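import Pool.Agent.P8H74.BL.Ten

/-! The base of the cone, positivity, and the minimum function. -/

set_option autoImplicit false
set_option linter.unusedSectionVars false

namespace Pool.Agent.P8H74.BL

open Finset Function

variable {J : Type} [Fintype J] [DecidableEq J] {d : ℕ}

/-- compact slices of cones: compact, in the hyperplane `x o = 1`, star-shaped about `e0` and
containing a neighbourhood of it in the hyperplane -/
structure Base (o : J) (Sg : Set (J → ℝ)) : Prop where
  cpt : IsCompact Sg
  one : ∀ x ∈ Sg, x o = 1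
  star : ∀ x ∈ Sg, ∀ c : ℝ, 0 ≤ c → c ≤ 1 → e0 o + c • (x - e0 o) ∈ Sg
  nb : ∃ ε : ℝ, 0 < ε ∧ ∀ y : J → ℝ, y o = 0 → (∀ l, |y l| ≤ ε) → e0 o + y ∈ Sg

variable {o : J} {Sg : Set (J → ℝ)}

theorem Base.mem_e0 (h : Base o Sg) : e0 o ∈ Sg := by
  obtain ⟨ε, hε, hn⟩ := h.nb
  have := hn 0 rfl (fun l => by simp [hε.le])
  rwa [add_zero] at this

theorem Base.bdd (h : Base o Sg) : ∃ R : ℝ, 1 ≤ R ∧ ∀ x ∈ Sg, ∀ l, |x l| ≤ R := by
  obtain ⟨R, hR⟩ := h.cpt.isBounded.subset_closedBall 0
  refine ⟨max R 1, le_max_right _ _, fun x hx l => ?_⟩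
  have h1 := hR hx
  rw [mem_closedBall_zero_iff] at h1
  have h2 := norm_le_pi_norm x l
  rw [Real.norm_eq_abs] at h2
  exact (h2.trans h1).trans (le_max_left _ _)

theorem Base.av (h : Base o Sg) {x : J → ℝ} (hx : x ∈ Sg) {s : ℝ} (hs : 0 ≤ s) : Av o s x ∈ Sg := by
  rw [Av_eq o (h.one x hx)]
  exact h.star x hx _ (Real.exp_pos _).le (Real.exp_le_one_iff.2 (by linarith))

/-- `e0 - ε (x - e0)` is in the base -/
theorem Base.refl (h : Base o Sg) : ∃ ε : ℝ, 0 < ε ∧ ∀ x ∈ Sg, e0 o - ε • (x - e0 o) ∈ Sg := by
  obtain ⟨ε, hε, hn⟩ := h.nb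
  obtain ⟨R, hR1, hR⟩ := h.bdd
  refine ⟨ε / (R + 1), by positivity, fun x hx => ?_⟩
  rw [sub_eq_add_neg]
  apply hn
  · show -(ε / (R + 1) * (x o - e0 o o)) = 0
    rw [h.one x hx]
    unfold e0
    rw [Pi.single_eq_same, sub_self, mul_zero, neg_zero]
  · intro l
    show |-(ε / (R + 1) * (x l - e0 o l))| ≤ ε
    have h1 : |e0 o l| ≤ 1 := by
      unfold e0
      by_cases hl : l = o
      · subst hl; rw [Pi.single_eq_same, abs_one]
      · rw [Pi.single_eq_of_ne hl, abs_zero]; exact zero_le_one
    rw [abs_neg, abs_mul, abs_of_pos (by positivity : 0 < ε / (R + 1))]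
    have h2 : |x l - e0 o l| ≤ R + 1 := (abs_sub _ _).trans (add_le_add (hR x hx l) h1)
    calc ε / (R + 1) * |x l - e0 o l| ≤ ε / (R + 1) * (R + 1) :=
          mul_le_mul_of_nonneg_left h2 (by positivity)
      _ = ε := by field_simp

/-- nonnegative on the base -/
def NN (Sg : Set (J → ℝ)) (T : Tn J d) : Prop := ∀ w : Fin d → J → ℝ, (∀ j, w j ∈ Sg) → 0 ≤ ev T w

/-- slots may be replaced by `e0` -/
theorem le_rep (h : Base o Sg) : ∃ C : ℝ, 1 ≤ C ∧ ∀ T : Tn J d, NN Sg T → ∀ (s : Finset (Fin d))
    (w : Fin d → J → ℝ), (∀ j, w j ∈ Sg) →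
    ev T w ≤ C ^ s.card * ev T (fun j => if j ∈ s then e0 o else w j) := by
  classical
  obtain ⟨ε, hε, hr⟩ := h.refl
  refine ⟨1 + 1 / ε, by linarith [(by positivity : 0 < 1 / ε)], fun T hT s => ?_⟩
  induction s using Finset.induction_on with
  | empty => intro w _; simp
  | insert a s ha ih =>
    intro w hw
    rw [card_insert_of_notMem ha, pow_succ, mul_assoc]
    refine (ih w hw).trans ?_
    apply mul_le_mul_of_nonneg_left _ (by positivity)
    set u : Fin d → J → ℝ := fun j => if j ∈ s then e0 o else w j with hu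
    have hus : ∀ j, u j ∈ Sg := by
      intro j
      simp only [hu]
      split_ifs
      · exact h.mem_e0
      · exact hw j
    have e1 : (fun j => if j ∈ insert a s then e0 o else w j) = update u a (e0 o) := by
      funext j
      by_cases hj : j = a
      · subst hj
        rw [update_self, if_pos (mem_insert_self _ _)]
      · rw [update_of_ne hj]
        simp only [hu, mem_insert, hj, false_or]
    rw [e1]
    have h1 : 0 ≤ ev T (update u a (e0 o - ε • (u a - e0 o))) := by
      apply hT
      intro j
      by_cases hj : j = a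
      · subst hj; rw [update_self]; exact hr _ (hus j)
      · rw [update_of_ne hj]; exact hus j
    rw [ev_update_sub, ev_update_smul, ev_update_sub, update_eq_self] at h1
    have h2 : ε * ev T u ≤ (1 + ε) * ev T (update u a (e0 o)) := by linarith
    have h3 : ev T u ≤ (1 + ε) * ev T (update u a (e0 o)) / ε := by
      rw [le_div_iff₀ hε]; linarith
    refine h3.trans (le_of_eq ?_)
    field_simp
    ring

/-- bounds for normalised nonnegative tensors -/
theorem bound_NN (h : Base o Sg) : ∃ C : ℝ, 0 < C ∧ ∀ T : Tn J d, NN Sg T → T (fun _ => o) = 1 →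
    ‖T‖ ≤ C := by
  classical
  obtain ⟨C, hC, hrep⟩ := le_rep (d := d) h
  obtain ⟨ε, hε, hn⟩ := h.nb
  -- values at the base
  have hval : ∀ T : Tn J d, NN Sg T → T (fun _ => o) = 1 → ∀ w : Fin d → J → ℝ, (∀ j, w j ∈ Sg) →
      |ev T w| ≤ C ^ d := by
    intro T hT h1 w hw
    have h2 := hrep T hT univ w hw
    rw [card_univ, Fintype.card_fin] at h2
    simp only [mem_univ, if_true] at h2
    rw [ev_e0, h1, mul_one] at h2
    rw [abs_of_nonneg (hT w hw)]
    exact h2
  -- the vectors `e l`
  have hcoord : ∀ T : Tn J d, NN Sg T → T (fun _ => o) = 1 → ∀ (i : Fin d → J)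
      (s : Finset (Fin d)) (w : Fin d → J → ℝ), (∀ j, w j ∈ Sg) →
      |ev T (fun j => if j ∈ s then Pi.single (i j) 1 else w j)| ≤ (2 / ε + 1) ^ s.card * C ^ d := by
    intro T hT h1 i s
    induction s using Finset.induction_on with
    | empty => intro w hw; simpa using hval T hT h1 w hw
    | insert a s ha ih =>
      intro w hw
      set u : Fin d → J → ℝ := fun j => if j ∈ s then Pi.single (i j) 1 else w j with hu
      have e1 : (fun j => if j ∈ insert a s then Pi.single (i j) 1 else w j) =
          update u a (Pi.single (i a) 1) := by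
        funext j
        by_cases hj : j = a
        · subst hj
          rw [update_self, if_pos (mem_insert_self _ _)]
        · rw [update_of_ne hj]
          simp only [hu, mem_insert, hj, false_or]
      have e2 : ∀ x : J → ℝ, update u a x = fun j => if j ∈ s then Pi.single (i j) 1 else update w a x j := by
        intro x
        funext j
        by_cases hj : j = a
        · subst hj
          rw [update_self, if_neg ha, update_self]
        · rw [update_of_ne hj, update_of_ne hj]
      have hup : ∀ x ∈ Sg, |ev T (update u a x)| ≤ (2 / ε + 1) ^ s.card * C ^ d := by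
        intro x hx
        rw [e2]
        apply ih
        intro j
        by_cases hj : j = a
        · subst hj; rw [update_self]; exact hx
        · rw [update_of_ne hj]; exact hw j
      rw [e1, card_insert_of_notMem ha, pow_succ]
      set A := (2 / ε + 1) ^ s.card * C ^ d with hA
      have hA0 : 0 ≤ A := by positivity
      have e3 : (2 / ε + 1) ^ s.card * (2 / ε + 1) * C ^ d = (2 / ε + 1) * A := by rw [hA]; ring
      rw [e3]
      by_cases hl : i a = o
      · rw [hl]
        have h2 := hup (e0 o) h.mem_e0
        have h3 : 0 ≤ 2 / ε * A := by positivity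
        show |ev T (update u a (e0 o))| ≤ _
        linarith
      · have h2 : e0 o + ε • (Pi.single (i a) 1 : J → ℝ) ∈ Sg := by
          apply hn
          · show ε * (Pi.single (i a) (1 : ℝ) : J → ℝ) o = 0
            rw [Pi.single_eq_of_ne (Ne.symm hl), mul_zero]
          · intro l
            show |ε * (Pi.single (i a) (1 : ℝ) : J → ℝ) l| ≤ ε
            by_cases hl2 : l = i a
            · subst hl2
              rw [Pi.single_eq_same, mul_one, abs_of_pos hε]
            · rw [Pi.single_eq_of_ne hl2, mul_zero, abs_zero]; exact hε.le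
        have h3 := hup _ h2
        have h4 := hup _ h.mem_e0
        rw [ev_update_add, ev_update_smul] at h3
        set p := ev T (update u a (e0 o))
        set q := ev T (update u a (Pi.single (i a) 1))
        have h5 : |ε * q| ≤ 2 * A := by
          have e4 : ε * q = (p + ε * q) - p := by ring
          rw [e4]
          exact (abs_sub _ _).trans (by linarith)
        rw [abs_mul, abs_of_pos hε] at h5
        have h6 : |q| ≤ 2 * A / ε := by rw [le_div_iff₀ hε]; linarith
        refine h6.trans ?_
        have : 2 * A / ε = 2 / ε * A := by ring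
        rw [this]
        linarith
  set M := (2 / ε + 1) ^ d * C ^ d with hM
  refine ⟨√(Fintype.card (Fin d → J) * M ^ 2) + 1, by positivity, fun T hT h1 => ?_⟩
  have hc : ∀ i, |T i| ≤ M := by
    intro i
    have h2 := hcoord T hT h1 i univ (fun _ => e0 o) (fun _ => h.mem_e0)
    simp only [mem_univ, if_true] at h2
    rw [ev_single, card_univ, Fintype.card_fin] at h2
    exact h2
  rw [EuclideanSpace.norm_eq]
  have h2 : ∑ i, ‖T i‖ ^ 2 ≤ Fintype.card (Fin d → J) * M ^ 2 := by
    calc ∑ i, ‖T i‖ ^ 2 ≤ ∑ i : Fin d → J, M ^ 2 := by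
          apply sum_le_sum
          intro i _
          rw [Real.norm_eq_abs]
          exact pow_le_pow_left₀ (abs_nonneg _) (hc i) 2
      _ = _ := by rw [sum_const, card_univ, nsmul_eq_mul]
  exact (Real.sqrt_le_sqrt h2).trans (by linarith)

/-- strict positivity inside -/
theorem pos_inside (h : Base o Sg) {T : Tn J d} (hT : NN Sg T) (h1 : T (fun _ => o) = 1)
    {c : ℝ} (hc0 : 0 ≤ c) (hc1 : c < 1) {w : Fin d → J → ℝ} (hw : ∀ j, w j ∈ Sg) :
    0 < ev T (fun j => e0 o + c • (w j - e0 o)) := by
  classical
  -- lower bound by induction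
  have key : ∀ (s : Finset (Fin d)) (u : Fin d → J → ℝ), (∀ j, u j ∈ Sg) →
      (1 - c) ^ s.card * ev T (fun j => if j ∈ s then e0 o else u j) ≤
        ev T (fun j => if j ∈ s then e0 o + c • (w j - e0 o) else u j) := by
    intro s
    induction s using Finset.induction_on with
    | empty => intro u _; simp
    | insert a s ha ih =>
      intro u hu
      have hwa : e0 o + c • (w a - e0 o) ∈ Sg := h.star _ (hw a) c hc0 hc1.le
      have e1 : ∀ (x y : J → ℝ) (f : Fin d → J → ℝ),
          (fun j => if j ∈ insert a s then (if j = a then x else f j) else u j) =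
          fun j => if j ∈ s then f j else update u a x j := by
        intro x y f
        funext j
        by_cases hj : j = a
        · subst hj
          rw [if_pos (mem_insert_self _ _), if_pos rfl, if_neg ha, update_self]
        · simp only [mem_insert, hj, false_or, if_false]
          rw [update_of_ne hj]
      have e2 : (fun j => if j ∈ insert a s then e0 o + c • (w j - e0 o) else u j) =
          fun j => if j ∈ s then e0 o + c • (w j - e0 o) else
            update u a (e0 o + c • (w a - e0 o)) j := by
        rw [← e1 _ 0]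
        funext j
        by_cases hj : j = a
        · subst hj; simp
        · simp [hj]
      have e3 : (fun j => if j ∈ insert a s then e0 o else u j) =
          fun j => if j ∈ s then e0 o else update u a (e0 o) j := by
        rw [← e1 _ 0]
        funext j
        by_cases hj : j = a
        · subst hj; simp
        · simp [hj]
      rw [e2, e3, card_insert_of_notMem ha, pow_succ]
      have h2 := ih (update u a (e0 o + c • (w a - e0 o))) (by
        intro j
        by_cases hj : j = a
        · subst hj; rw [update_self]; exact hwa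
        · rw [update_of_ne hj]; exact hu j)
      refine le_trans ?_ h2
      rw [mul_assoc]
      apply mul_le_mul_of_nonneg_left _ (pow_nonneg (by linarith) _)
      have e4 : ∀ x : J → ℝ, (fun j => if j ∈ s then e0 o else update u a x j) =
          update (fun j => if j ∈ s then e0 o else u j) a x := by
        intro x
        funext j
        by_cases hj : j = a
        · subst hj; rw [if_neg ha, update_self, update_self]
        · rw [update_of_ne hj, update_of_ne hj]
      rw [e4, e4]
      have e5 : e0 o + c • (w a - e0 o) = (1 - c) • e0 o + c • w a := by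
        rw [smul_sub, sub_smul, one_smul]; abel
      rw [e5, ev_update_add, ev_update_smul, ev_update_smul]
      have h3 : 0 ≤ ev T (update (fun j => if j ∈ s then e0 o else u j) a (w a)) := by
        apply hT
        intro j
        by_cases hj : j = a
        · subst hj; rw [update_self]; exact hw j
        · rw [update_of_ne hj]
          split_ifs
          · exact h.mem_e0
          · exact hu j
      have h4 : 0 ≤ c * ev T (update (fun j => if j ∈ s then e0 o else u j) a (w a)) :=
        mul_nonneg hc0 h3
      linarith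
  have h2 := key univ (fun _ => e0 o) (fun _ => h.mem_e0)
  simp only [mem_univ, if_true] at h2
  rw [ev_e0, h1, mul_one] at h2
  exact lt_of_lt_of_le (pow_pos (by linarith) _) h2

/-- the tuples of base points -/
def SS (Sg : Set (J → ℝ)) (d : ℕ) : Set (Fin d → J → ℝ) := {w | ∀ j, w j ∈ Sg}

theorem SS_cpt (h : Base o Sg) : IsCompact (SS Sg d) := by
  have : SS Sg d = Set.pi Set.univ (fun _ => Sg) := by
    ext w; simp [SS]
  rw [this]
  exact isCompact_univ_pi fun _ => h.cpt

theorem SS_ne (h : Base o Sg) : (SS Sg d).Nonempty := ⟨fun _ => e0 o, fun _ => h.mem_e0⟩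

/-- the minimum -/
noncomputable def mn (Sg : Set (J → ℝ)) (T : Tn J d) : ℝ := sInf (ev T '' SS Sg d)

theorem ev_cont_right (T : Tn J d) : Continuous (ev T) :=
  ev_cont.comp (continuous_const.prodMk continuous_id)

theorem mn_le (h : Base o Sg) (T : Tn J d) {w : Fin d → J → ℝ} (hw : ∀ j, w j ∈ Sg) :
    mn Sg T ≤ ev T w :=
  csInf_le ((SS_cpt h).image (ev_cont_right T)).bddBelow ⟨w, hw, rfl⟩

theorem mn_att (h : Base o Sg) (T : Tn J d) : ∃ w : Fin d → J → ℝ, (∀ j, w j ∈ Sg) ∧
    mn Sg T = ev T w := by
  have h1 : mn Sg T ∈ ev T '' SS Sg d :=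
    ((SS_cpt h).image (ev_cont_right T)).sInf_mem ((SS_ne h).image _)
  obtain ⟨w, hw, he⟩ := h1
  exact ⟨w, hw, he.symm⟩

/-- a common bound -/
theorem ev_bound (h : Base o Sg) : ∃ C : ℝ, 0 < C ∧ ∀ (T : Tn J d) (w : Fin d → J → ℝ),
    (∀ j, w j ∈ Sg) → |ev T w| ≤ C * ‖T‖ := by
  obtain ⟨R, hR1, hR⟩ := h.bdd
  have : Nonempty J := ⟨o⟩
  refine ⟨Fintype.card (Fin d → J) * R ^ d, ?_, fun T w hw => abs_ev_le T fun j l => hR _ (hw j) l⟩
  have h1 : (0 : ℝ) < Fintype.card (Fin d → J) := by exact_mod_cast Fintype.card_pos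
  positivity

theorem mn_lip (h : Base o Sg) : ∃ C : ℝ, 0 < C ∧ ∀ T S : Tn J d, |mn Sg T - mn Sg S| ≤ C * ‖T - S‖ := by
  obtain ⟨C, hC, hb⟩ := ev_bound (d := d) h
  have key : ∀ T S : Tn J d, mn Sg T - mn Sg S ≤ C * ‖T - S‖ := by
    intro T S
    obtain ⟨w, hw, he⟩ := mn_att h S
    have h1 := mn_le h T hw
    have h2 := hb (T - S) w hw
    rw [ev_sub] at h2
    have h3 := le_abs_self (ev T w - ev S w)
    linarith
  refine ⟨C, hC, fun T S => ?_⟩
  rw [abs_le]
  constructor
  · have := key S T
    rw [norm_sub_rev] at this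
    linarith
  · exact key T S

end Pool.Agent.P8H74.BL
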