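import Pool.Agent.P8H74.BL.Base

/-! Coordinates adapted to an open convex cone. -/

set_option autoImplicit false
set_option linter.unusedSectionVars false

namespace Pool.Agent.P8H74.BL

open Finset Function
open scoped Topology

variable {n : ℕ} {K : ConvexCone ℝ (Fin n → ℝ)} {v0 : Fin n → ℝ}

/-- the nonnegative functionals -/
def Kd (K : ConvexCone ℝ (Fin n → ℝ)) : Set (Module.Dual ℝ (Fin n → ℝ)) := {l | ∀ x ∈ K, 0 ≤ l x}

theorem Kd_pos (hK : IsOpen (K : Set (Fin n → ℝ))) {l : Module.Dual ℝ (Fin n → ℝ)} (hl : l ∈ Kd K)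
    (h0 : l ≠ 0) {x : Fin n → ℝ} (hx : x ∈ K) : 0 < l x := by
  rcases lt_or_eq_of_le (hl x hx) with h | h
  · exact h
  exfalso
  obtain ⟨w, hw⟩ : ∃ w, l w ≠ 0 := by
    by_contra hcon
    push Not at hcon
    exact h0 (LinearMap.ext hcon)
  have hc : Continuous fun t : ℝ => x + t • w := by fun_prop
  have h1 : ∀ᶠ t in 𝓝 (0 : ℝ), x + t • w ∈ (K : Set (Fin n → ℝ)) := by
    apply hc.continuousAt.eventually
    apply hK.mem_nhds
    show x + (0 : ℝ) • w ∈ K
    rwa [zero_smul, add_zero]
  obtain ⟨ε, hε, hball⟩ := Metric.eventually_nhds_iff.1 h1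
  have h2 : ∀ t : ℝ, |t| < ε → 0 ≤ t * l w := by
    intro t ht
    have h3 := hl _ (hball (y := t) (by rwa [Real.dist_eq, sub_zero]))
    rwa [map_add, map_smul, ← h, zero_add, smul_eq_mul] at h3
  have h3 := h2 (ε / 2) (by rw [abs_of_pos (by positivity)]; linarith)
  have h4 := h2 (-(ε / 2)) (by rw [abs_neg, abs_of_pos (by positivity)]; linarith)
  have h5 : ε / 2 * l w = 0 := by linarith
  rcases mul_eq_zero.1 h5 with h6 | h6
  · linarith
  · exact hw h6

theorem exists_sep (hK : IsOpen (K : Set (Fin n → ℝ))) (hv : v0 ∈ K) {p : Fin n → ℝ} (hp : p ∉ K) :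
    ∃ l ∈ Kd K, l ≠ 0 ∧ l p ≤ 0 := by
  obtain ⟨f, hf⟩ := geometric_hahn_banach_open_point K.convex hK hp
  have hf' : ∀ a ∈ K, f a < f p := hf
  have h1 : ∀ a ∈ K, ∀ c : ℝ, 0 < c → c * f a < f p := by
    intro a ha c hc
    have := hf' _ (K.smul_mem hc ha)
    rwa [map_smul, smul_eq_mul] at this
  have hneg : ∀ a ∈ K, f a ≤ 0 := by
    intro a ha
    by_contra hcon
    push Not at hcon
    have h2 := h1 a ha ((|f p| + 1) / f a) (by positivity)
    rw [div_mul_cancel₀ _ hcon.ne'] at h2
    have := le_abs_self (f p)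
    linarith
  have hp0 : 0 ≤ f p := by
    by_contra hcon
    push Not at hcon
    have h3 := hneg v0 hv
    have h4 := hf' v0 hv
    have h5 : f v0 < 0 := by linarith
    have h6 := h1 v0 hv (f p / f v0) (div_pos_of_neg_of_neg hcon h5)
    rw [div_mul_cancel₀ _ h5.ne] at h6
    exact lt_irrefl _ h6
  refine ⟨-(f : (Fin n → ℝ) →ₗ[ℝ] ℝ), fun x hx => ?_, fun h => ?_, ?_⟩
  · show 0 ≤ -(f x)
    linarith [hneg x hx]
  · have h2 : -(f v0) = 0 := LinearMap.congr_fun h v0
    have h3 : -(f p) = 0 := LinearMap.congr_fun h p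
    have := hf' v0 hv
    linarith
  · show -(f p) ≤ 0
    linarith

/-- adapted coordinates -/
structure Coord (K : ConvexCone ℝ (Fin n → ℝ)) (v0 : Fin n → ℝ) {J : Type} [Fintype J]
    [DecidableEq J] (o : J) (π : (Fin n → ℝ) →ₗ[ℝ] (J → ℝ)) (b : (J → ℝ) →ₗ[ℝ] (Fin n → ℝ)) : Prop where
  right : ∀ x, π (b x) = x
  pt : π v0 = e0 o
  ker : ∀ u, π u = 0 → ∀ v ∈ K, v + u ∈ K
  pos : ∀ v ∈ K, 0 < π v o
  base : Base o {x | x ∈ closure (π '' (K : Set (Fin n → ℝ))) ∧ x o = 1}

theorem exists_coord (hK : IsOpen (K : Set (Fin n → ℝ))) (hv : v0 ∈ K)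
    (hne : (K : Set (Fin n → ℝ)) ≠ Set.univ) :
    ∃ (J : Type) (_ : Fintype J) (_ : DecidableEq J) (o : J) (π : (Fin n → ℝ) →ₗ[ℝ] (J → ℝ))
      (b : (J → ℝ) →ₗ[ℝ] (Fin n → ℝ)), Coord K v0 o π b := by
  classical
  obtain ⟨B, hB1, hB2, hB3⟩ := exists_linearIndependent ℝ (Kd K)
  have hfin : Finite B := hB3.finite
  have : Fintype B := Fintype.ofFinite B
  obtain ⟨p, hp⟩ : ∃ p, p ∉ K := by
    by_contra hcon
    push Not at hcon
    exact hne (Set.eq_univ_of_forall hcon)
  obtain ⟨l0, hl0, hl00, -⟩ := exists_sep hK hv hp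
  have hBne : Nonempty B := by
    by_contra hcon
    rw [not_nonempty_iff, Set.isEmpty_coe_sort] at hcon
    rw [hcon, Submodule.span_empty] at hB2
    have : l0 ∈ Submodule.span ℝ (Kd K) := Submodule.subset_span hl0
    rw [← hB2, Submodule.mem_bot] at this
    exact hl00 this
  obtain ⟨o⟩ := hBne
  have hBpos : ∀ (k : B) (x : Fin n → ℝ), x ∈ K → 0 < (k : Module.Dual ℝ (Fin n → ℝ)) x :=
    fun k x hx => Kd_pos hK (hB1 k.2) (hB3.ne_zero k) hx
  -- normalised functionals
  set m : B → Module.Dual ℝ (Fin n → ℝ) := fun k =>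
    ((k : Module.Dual ℝ (Fin n → ℝ)) v0)⁻¹ • (k : Module.Dual ℝ (Fin n → ℝ)) with hm
  have hmpos : ∀ (k : B) (x : Fin n → ℝ), x ∈ K → 0 < m k x := by
    intro k x hx
    show 0 < ((k : Module.Dual ℝ (Fin n → ℝ)) v0)⁻¹ * (k : Module.Dual ℝ (Fin n → ℝ)) x
    exact mul_pos (inv_pos.2 (hBpos k v0 hv)) (hBpos k x hx)
  have hm0 : ∀ k : B, m k v0 = 1 := by
    intro k
    show ((k : Module.Dual ℝ (Fin n → ℝ)) v0)⁻¹ * (k : Module.Dual ℝ (Fin n → ℝ)) v0 = 1
    exact inv_mul_cancel₀ (hBpos k v0 hv).ne'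
  -- they are jointly surjective
  set L : (Fin n → ℝ) →ₗ[ℝ] (B → ℝ) := LinearMap.pi m with hL
  have hLsurj : Surjective L := by
    rw [← LinearMap.range_eq_top]
    by_contra hcon
    obtain ⟨f, hf0, hf⟩ := Submodule.exists_le_ker_of_lt_top _ (lt_top_iff_ne_top.2 hcon)
    apply hf0
    have h1 : ∀ x, ∑ k : B, m k x * f (Pi.single k 1) = 0 := by
      intro x
      have h2 : f (L x) = 0 := hf ⟨x, rfl⟩
      rw [LinearMap.pi_apply_eq_sum_univ f (L x)] at h2
      have e : ∀ k : B, (fun j : B => if k = j then (1 : ℝ) else 0) = Pi.single k 1 := by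
        intro k
        funext j
        by_cases h : k = j
        · subst h; simp
        · rw [if_neg h, Pi.single_eq_of_ne (Ne.symm h)]
      simpa [hL, e] using h2
    have h3 : ∑ k : B, (f (Pi.single k 1) * ((k : Module.Dual ℝ (Fin n → ℝ)) v0)⁻¹) •
        (k : Module.Dual ℝ (Fin n → ℝ)) = 0 := by
      apply LinearMap.ext
      intro x
      rw [LinearMap.sum_apply, LinearMap.zero_apply, ← h1 x]
      apply sum_congr rfl
      intro k _
      show (f (Pi.single k 1) * ((k : Module.Dual ℝ (Fin n → ℝ)) v0)⁻¹) *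
        (k : Module.Dual ℝ (Fin n → ℝ)) x = ((k : Module.Dual ℝ (Fin n → ℝ)) v0)⁻¹ *
        (k : Module.Dual ℝ (Fin n → ℝ)) x * f (Pi.single k 1)
      ring
    have h4 := Fintype.linearIndependent_iff.1 hB3 _ h3
    apply LinearMap.pi_ext'
    intro k
    apply LinearMap.ext_ring
    have h5 := h4 k
    rcases mul_eq_zero.1 h5 with h6 | h6
    · exact h6
    · exact absurd h6 (inv_ne_zero (hBpos k v0 hv).ne')
  -- the coordinates
  set N : ℝ := (Fintype.card B : ℝ) with hN
  have hN1' : 1 ≤ Fintype.card B := Fintype.card_pos_iff.2 ⟨o⟩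
  have hN1 : 1 ≤ N := by
    rw [hN]
    exact_mod_cast hN1'
  have hN0 : N ≠ 0 := by linarith
  set s : Module.Dual ℝ (Fin n → ℝ) := N⁻¹ • ∑ k, m k with hs
  have hsx : ∀ x, s x = N⁻¹ * ∑ k, m k x := by
    intro x
    rw [hs, LinearMap.smul_apply, LinearMap.sum_apply, smul_eq_mul]
  set π : (Fin n → ℝ) →ₗ[ℝ] (B → ℝ) := LinearMap.pi (fun k => if k = o then s else m k - s) with hπ
  have hπo : ∀ x, π x o = s x := by
    intro x
    rw [hπ, LinearMap.pi_apply, if_pos rfl]
  have hπk : ∀ x, ∀ k, k ≠ o → π x k = m k x - s x := by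
    intro x k hk
    rw [hπ, LinearMap.pi_apply, if_neg hk, LinearMap.sub_apply]
  have hsum0 : ∀ x, m o x = s x - ∑ k ∈ univ.erase o, π x k := by
    intro x
    have h1 : ∑ k ∈ univ.erase o, π x k = ∑ k ∈ univ.erase o, (m k x - s x) :=
      sum_congr rfl fun k hk => hπk x k (ne_of_mem_erase hk)
    have h2 : ∑ k, (m k x - s x) = 0 := by
      rw [sum_sub_distrib, sum_const, card_univ, nsmul_eq_mul, ← hN, hsx]
      field_simp
      ring
    rw [← add_sum_erase univ _ (mem_univ o)] at h2
    rw [h1]; linarith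
  have hπsurj : Surjective π := by
    intro y
    obtain ⟨x, hx⟩ := hLsurj (fun k => if k = o then y o - ∑ j ∈ univ.erase o, y j else y k + y o)
    have hx' : ∀ k, m k x = if k = o then y o - ∑ j ∈ univ.erase o, y j else y k + y o := by
      intro k
      exact congrFun hx k
    have hsx' : s x = y o := by
      rw [hsx, ← add_sum_erase univ _ (mem_univ o), hx' o, if_pos rfl]
      have h1 : ∑ k ∈ univ.erase o, m k x = ∑ k ∈ univ.erase o, (y k + y o) := by
        apply sum_congr rfl
        intro k hk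
        rw [hx' k, if_neg (ne_of_mem_erase hk)]
      rw [h1, sum_add_distrib, sum_const, card_erase_of_mem (mem_univ o), card_univ, nsmul_eq_mul,
        Nat.cast_sub hN1', ← hN, Nat.cast_one]
      field_simp
      ring
    refine ⟨x, funext fun k => ?_⟩
    by_cases hk : k = o
    · rw [hk, hπo, hsx']
    · rw [hπk x k hk, hx' k, if_neg hk, hsx']; ring
  obtain ⟨b, hb⟩ := LinearMap.exists_rightInverse_of_surjective π (LinearMap.range_eq_top.2 hπsurj)
  have hπb : ∀ x, π (b x) = x := fun x => LinearMap.congr_fun hb x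
  have hπv : π v0 = e0 o := by
    have hs1 : s v0 = 1 := by
      rw [hsx, sum_congr rfl (fun k _ => hm0 k), sum_const, card_univ, nsmul_eq_mul, ← hN, mul_one,
        inv_mul_cancel₀ hN0]
    funext k
    unfold e0
    by_cases hk : k = o
    · rw [hk, hπo, hs1, Pi.single_eq_same]
    · rw [hπk v0 k hk, hm0, hs1, Pi.single_eq_of_ne hk, sub_self]
  have hcπ : Continuous π := π.continuous_of_finiteDimensional
  have hcb : Continuous b := b.continuous_of_finiteDimensional
  have hconv : Convex ℝ (closure (π '' (K : Set (Fin n → ℝ)))) :=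
    (K.convex.linear_image π).closure
  have he0 : e0 o ∈ closure (π '' (K : Set (Fin n → ℝ))) := subset_closure ⟨v0, hv, hπv⟩
  refine ⟨B, inferInstance, inferInstance, o, π, b, ⟨hπb, hπv, ?_, ?_, ?_⟩⟩
  · intro u hu v hvK
    by_contra hcon
    obtain ⟨l, hl, hl0', hlp⟩ := exists_sep hK hv hcon
    have h1 : ∀ k : B, (k : Module.Dual ℝ (Fin n → ℝ)) u = 0 := by
      intro k
      have h2 : m k u = 0 := by
        have hs0 : s u = 0 := by rw [← hπo, hu]; rfl
        by_cases hk : k = o
        · rw [hk, hsum0, hs0, sum_eq_zero, sub_zero]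
          intro j _
          rw [hu]; rfl
        · have := hπk u k hk
          rw [hu, hs0, sub_zero] at this
          exact this.symm
      have h3 : ((k : Module.Dual ℝ (Fin n → ℝ)) v0)⁻¹ * (k : Module.Dual ℝ (Fin n → ℝ)) u = 0 := h2
      rcases mul_eq_zero.1 h3 with h4 | h4
      · exact absurd h4 (inv_ne_zero (hBpos k v0 hv).ne')
      · exact h4
    have h2 : ∀ l ∈ Submodule.span ℝ B, l u = 0 := by
      intro l hl
      induction hl using Submodule.span_induction with
      | mem x hx => exact h1 ⟨x, hx⟩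
      | zero => rfl
      | add x y _ _ hx hy => rw [LinearMap.add_apply, hx, hy, add_zero]
      | smul c x _ hx => rw [LinearMap.smul_apply, hx, smul_zero]
    have h3 : l u = 0 := h2 l (by rw [hB2]; exact Submodule.subset_span hl)
    rw [map_add, h3, add_zero] at hlp
    exact absurd (Kd_pos hK hl hl0' hvK) (not_lt.2 hlp)
  · intro v hvK
    rw [hπo, hsx]
    exact mul_pos (by positivity) (sum_pos (fun k _ => hmpos k v hvK) ⟨o, mem_univ _⟩)
  · refine ⟨?_, fun x hx => hx.2, ?_, ?_⟩
    · -- compactness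
      apply Metric.isCompact_of_isClosed_isBounded
      · exact isClosed_closure.inter (isClosed_eq (continuous_apply o) continuous_const)
      · have hcl1 : ∀ x ∈ closure (π '' (K : Set (Fin n → ℝ))), ∀ k, k ≠ o → 0 ≤ x k + x o := by
          intro x hx k hk
          have hsub : closure (π '' (K : Set (Fin n → ℝ))) ⊆ {x : B → ℝ | 0 ≤ x k + x o} := by
            apply closure_minimal
            · rintro _ ⟨v, hvK, rfl⟩
              show 0 ≤ π v k + π v o
              rw [hπk v k hk, hπo]
              linarith [hmpos k v hvK]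
            · exact isClosed_le continuous_const ((continuous_apply k).add (continuous_apply o))
          exact hsub hx
        have hcl2 : ∀ x ∈ closure (π '' (K : Set (Fin n → ℝ))),
            0 ≤ x o - ∑ k ∈ univ.erase o, x k := by
          intro x hx
          have hsub : closure (π '' (K : Set (Fin n → ℝ))) ⊆
              {x : B → ℝ | 0 ≤ x o - ∑ k ∈ univ.erase o, x k} := by
            apply closure_minimal
            · rintro _ ⟨v, hvK, rfl⟩
              show 0 ≤ π v o - ∑ k ∈ univ.erase o, π v k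
              rw [hπo, ← hsum0]
              exact (hmpos o v hvK).le
            · exact isClosed_le continuous_const ((continuous_apply o).sub
                (continuous_finsetSum _ fun k _ => continuous_apply k))
          exact hsub hx
        rw [isBounded_iff_forall_norm_le]
        refine ⟨N + 1, fun x hx => ?_⟩
        rw [pi_norm_le_iff_of_nonneg (by linarith)]
        intro k
        have h1 := hcl2 x hx.1
        rw [hx.2] at h1
        have h2 : ∀ j ∈ univ.erase o, 0 ≤ x j + 1 := by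
          intro j hj
          have := hcl1 x hx.1 j (ne_of_mem_erase hj)
          rwa [hx.2] at this
        rw [Real.norm_eq_abs]
        by_cases hk : k = o
        · rw [hk, hx.2, abs_one]; linarith
        · have hkm : k ∈ univ.erase o := mem_erase.2 ⟨hk, mem_univ _⟩
          have h3 : x k + 1 ≤ ∑ j ∈ univ.erase o, (x j + 1) :=
            single_le_sum h2 hkm
          rw [sum_add_distrib, sum_const, card_erase_of_mem (mem_univ o), card_univ, nsmul_eq_mul,
            Nat.cast_sub hN1', ← hN, Nat.cast_one] at h3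
          rw [abs_le]
          constructor
          · have := h2 k hkm
            linarith
          · linarith
    · intro x hx c hc0 hc1
      refine ⟨?_, ?_⟩
      · have := hconv he0 hx.1 (sub_nonneg.2 hc1) hc0 (by ring)
        convert this using 1
        rw [smul_sub, sub_smul, one_smul]; abel
      · show e0 o o + c * (x o - e0 o o) = 1
        unfold e0
        rw [Pi.single_eq_same, hx.2, sub_self, mul_zero, add_zero]
    · have hc : Continuous fun y : B → ℝ => v0 + b y := continuous_const.add hcb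
      have h1 : ∀ᶠ y in 𝓝 (0 : B → ℝ), v0 + b y ∈ (K : Set (Fin n → ℝ)) := by
        apply hc.continuousAt.eventually
        apply hK.mem_nhds
        show v0 + b 0 ∈ K
        rwa [map_zero, add_zero]
      obtain ⟨ε, hε, hball⟩ := Metric.eventually_nhds_iff.1 h1
      refine ⟨ε / 2, by positivity, fun y hyo hy => ⟨subset_closure ⟨v0 + b y, ?_, ?_⟩, ?_⟩⟩
      · apply hball
        rw [dist_zero_right]
        refine lt_of_le_of_lt ((pi_norm_le_iff_of_nonneg (by positivity)).2 hy) (by linarith)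
      · rw [map_add, hπv, hπb]
      · show e0 o o + y o = 1
        unfold e0
        rw [Pi.single_eq_same, hyo, add_zero]

end Pool.Agent.P8H74.BL
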