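import Pool.Agent.P8H74.BL.Base

/-! Positivity and signature along the flow. -/

set_option autoImplicit false
set_option linter.unusedSectionVars false

namespace Pool.Agent.P8H74.BL

open Finset Function

variable {J : Type} [Fintype J] [DecidableEq J] {d : ℕ} {o : J} {Sg : Set (J → ℝ)}

/-- the bilinear forms -/
noncomputable def Bf (T : Tn J d) (w : Fin d → J → ℝ) (a b : Fin d) (x y : J → ℝ) : ℝ :=
  ev T (update (update w a x) b y)

theorem Bf_sub_right (T : Tn J d) (w : Fin d → J → ℝ) (a b : Fin d) (x y z : J → ℝ) :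
    Bf T w a b x (y - z) = Bf T w a b x y - Bf T w a b x z := ev_update_sub _ _ _ _ _

theorem Bf_add_right (T : Tn J d) (w : Fin d → J → ℝ) (a b : Fin d) (x y z : J → ℝ) :
    Bf T w a b x (y + z) = Bf T w a b x y + Bf T w a b x z := ev_update_add _ _ _ _ _

theorem Bf_smul_right (T : Tn J d) (w : Fin d → J → ℝ) (a b : Fin d) (x y : J → ℝ) (c : ℝ) :
    Bf T w a b x (c • y) = c * Bf T w a b x y := ev_update_smul _ _ _ _ _

theorem Bf_comm' (T : Tn J d) (w : Fin d → J → ℝ) {a b : Fin d} (hab : a ≠ b) (x y : J → ℝ) :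
    Bf T w a b x y = ev T (update (update w b y) a x) := by
  unfold Bf; rw [update_comm hab]

theorem Bf_sub_left (T : Tn J d) (w : Fin d → J → ℝ) {a b : Fin d} (hab : a ≠ b) (x y z : J → ℝ) :
    Bf T w a b (x - y) z = Bf T w a b x z - Bf T w a b y z := by
  rw [Bf_comm' T w hab, Bf_comm' T w hab, Bf_comm' T w hab, ev_update_sub]

theorem Bf_add_left (T : Tn J d) (w : Fin d → J → ℝ) {a b : Fin d} (hab : a ≠ b) (x y z : J → ℝ) :
    Bf T w a b (x + y) z = Bf T w a b x z + Bf T w a b y z := by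
  rw [Bf_comm' T w hab, Bf_comm' T w hab, Bf_comm' T w hab, ev_update_add]

theorem Bf_smul_left (T : Tn J d) (w : Fin d → J → ℝ) {a b : Fin d} (hab : a ≠ b) (x z : J → ℝ)
    (c : ℝ) : Bf T w a b (c • x) z = c * Bf T w a b x z := by
  rw [Bf_comm' T w hab, Bf_comm' T w hab, ev_update_smul]

/-- symmetric tensors -/
def Sym (T : Tn J d) : Prop := ∀ (σ : Equiv.Perm (Fin d)) (i : Fin d → J), T (i ∘ σ) = T i

theorem Bf_symm {T : Tn J d} (hT : Sym T) (w : Fin d → J → ℝ) {a b : Fin d} (hab : a ≠ b)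
    (x y : J → ℝ) : Bf T w a b x y = Bf T w a b y x := ev_comm hT w hab x y

/-- the discriminant -/
noncomputable def disc (o : J) (T : Tn J d) (w : Fin d → J → ℝ) (a b : Fin d) (x : J → ℝ) : ℝ :=
  Bf T w a b x (e0 o) ^ 2 - Bf T w a b x x * Bf T w a b (e0 o) (e0 o)

theorem disc_shift {T : Tn J d} (hT : Sym T) (w : Fin d → J → ℝ) {a b : Fin d} (hab : a ≠ b)
    (x : J → ℝ) (c : ℝ) : disc o T w a b (x + c • e0 o) = disc o T w a b x := by
  unfold disc
  simp only [Bf_add_left T w hab, Bf_add_right, Bf_smul_left T w hab, Bf_smul_right]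
  rw [Bf_symm hT w hab (e0 o) x]
  ring

theorem disc_smul {T : Tn J d} (w : Fin d → J → ℝ) {a b : Fin d} (hab : a ≠ b)
    (x : J → ℝ) (c : ℝ) : disc o T w a b (c • x) = c ^ 2 * disc o T w a b x := by
  unfold disc
  simp only [Bf_smul_left T w hab, Bf_smul_right]
  ring

/-- the Hodge-Riemann condition on the base -/
def HR (o : J) (Sg : Set (J → ℝ)) (T : Tn J d) : Prop := ∀ w : Fin d → J → ℝ, (∀ j, w j ∈ Sg) →
  ∀ a b : Fin d, a ≠ b → ∀ x : J → ℝ, x o = 0 → 0 ≤ disc o T w a b x

theorem HR_all {T : Tn J d} (hT : Sym T) (h : HR o Sg T) {w : Fin d → J → ℝ} (hw : ∀ j, w j ∈ Sg)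
    {a b : Fin d} (hab : a ≠ b) (x : J → ℝ) : 0 ≤ disc o T w a b x := by
  have h1 := h w hw a b hab (x + (-(x o)) • e0 o) (by
    show x o + -(x o) * e0 o o = 0
    unfold e0
    rw [Pi.single_eq_same]; ring)
  rwa [disc_shift hT w hab] at h1

/-- a solution of the differential equation on `[0, t1]` -/
structure Sol (o : J) (Sg : Set (J → ℝ)) (c : ℝ) (G : Tn J d) (t1 : ℝ) (f : ℝ → Tn J d) : Prop where
  cont : Continuous f
  hd : ∀ t ∈ Set.Icc 0 t1, ∀ i, HasDerivAt (fun τ => f τ i)
    (-(wt o i : ℝ) * f t i - c * max (mn Sg (f t)) 0 * (G i - G (fun _ => o) * f t i)) t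

variable {c t1 : ℝ} {G : Tn J d} {f : ℝ → Tn J d}

theorem mn_cont (hB : Base o Sg) : Continuous fun T : Tn J d => mn Sg T := by
  obtain ⟨C, hC, h⟩ := mn_lip (d := d) hB
  have : LipschitzWith (Real.toNNReal C) (fun T : Tn J d => mn Sg T) := by
    apply LipschitzWith.of_dist_le_mul
    intro T S
    rw [Real.dist_eq, dist_eq_norm, Real.coe_toNNReal C hC.le]
    exact h T S
  exact this.continuous

theorem psi_der (h : Sol o Sg c G t1 f) (r : ℝ) (v : Fin d → J → ℝ) {τ : ℝ}
    (hτ : τ ∈ Set.Icc 0 t1) :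
    HasDerivAt (fun τ => ev (f τ) (fun j => Av o (r - τ) (v j)))
      (-(c * max (mn Sg (f τ)) 0 * (ev G (fun j => Av o (r - τ) (v j)) -
        G (fun _ => o) * ev (f τ) (fun j => Av o (r - τ) (v j))))) τ := by
  simp only [ev_Av]
  have h1 : HasDerivAt (fun τ => ∑ i : Fin d → J, f τ i * Real.exp (-((r - τ) * wt o i)) *
      ∏ j, v j (i j)) (∑ i : Fin d → J, ((-(wt o i : ℝ) * f τ i - c * max (mn Sg (f τ)) 0 *
        (G i - G (fun _ => o) * f τ i)) * Real.exp (-((r - τ) * wt o i)) +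
        f τ i * (Real.exp (-((r - τ) * wt o i)) * wt o i)) * ∏ j, v j (i j)) τ := by
    apply HasDerivAt.fun_sum
    intro i _
    apply HasDerivAt.mul_const
    apply (h.hd τ hτ i).mul
    have h2 : HasDerivAt (fun τ : ℝ => -((r - τ) * wt o i)) (wt o i : ℝ) τ := by
      have h3 : HasDerivAt (fun τ : ℝ => -((r - τ) * (wt o i : ℝ))) (-((-1) * (wt o i : ℝ))) τ :=
        (((hasDerivAt_id τ).const_sub r).mul_const (wt o i : ℝ)).neg
      have e : -((-1) * (wt o i : ℝ)) = wt o i := by ring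
      rw [e] at h3
      exact h3
    exact h2.exp
  convert h1 using 1
  rw [mul_sum, ← sum_sub_distrib, mul_sum, ← sum_neg_distrib]
  apply sum_congr rfl
  intro i _
  ring

/-- positivity is kept -/
theorem pos_step (hB : Base o Sg) (h : Sol o Sg c G t1 f) (hc : 0 ≤ c) (hγ : 0 ≤ G (fun _ => o))
    {s r : ℝ} (hs : 0 ≤ s) (hsr : s ≤ r) (hr : r ≤ t1)
    (hnn : ∀ τ ∈ Set.Icc s r, 0 ≤ mn Sg (f τ)) (hpos : 0 < mn Sg (f s)) : 0 < mn Sg (f r) := by
  obtain ⟨C, hC, hbd⟩ := ev_bound (d := d) hB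
  obtain ⟨v, hv, he⟩ := mn_att hB (f r)
  rw [he]
  set κ := c * (C * ‖G‖) with hκ
  set ψ : ℝ → ℝ := fun τ => ev (f τ) (fun j => Av o (r - τ) (v j)) with hψ
  have hd : ∀ τ ∈ Set.Icc s r, HasDerivAt (fun τ => Real.exp (κ * τ) * ψ τ)
      (Real.exp (κ * τ) * κ * ψ τ + Real.exp (κ * τ) *
        (-(c * max (mn Sg (f τ)) 0 * (ev G (fun j => Av o (r - τ) (v j)) -
        G (fun _ => o) * ψ τ)))) τ := by
    intro τ hτ
    have h1 : HasDerivAt (fun τ : ℝ => Real.exp (κ * τ)) (Real.exp (κ * τ) * κ) τ := by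
      have := ((hasDerivAt_id τ).const_mul κ).exp
      simpa using this
    exact h1.mul (psi_der h r v ⟨hs.trans hτ.1, hτ.2.trans hr⟩)
  have hmono : MonotoneOn (fun τ => Real.exp (κ * τ) * ψ τ) (Set.Icc s r) := by
    apply monotoneOn_of_deriv_nonneg (convex_Icc s r)
    · exact fun τ hτ => (hd τ hτ).continuousAt.continuousWithinAt
    · intro τ hτ
      exact (hd τ (interior_subset hτ)).differentiableAt.differentiableWithinAt
    · intro τ hτ
      have hτ' := interior_subset hτ
      rw [(hd τ hτ').deriv]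
      have hav : ∀ j, Av o (r - τ) (v j) ∈ Sg := fun j => hB.av (hv j) (by linarith [hτ'.2])
      have h1 := hnn τ hτ'
      have h2 : mn Sg (f τ) ≤ ψ τ := mn_le hB (f τ) hav
      have h3 := le_trans (le_abs_self _) (hbd G _ hav)
      rw [max_eq_left h1]
      have e : Real.exp (κ * τ) * κ * ψ τ + Real.exp (κ * τ) *
          (-(c * mn Sg (f τ) * (ev G (fun j => Av o (r - τ) (v j)) - G (fun _ => o) * ψ τ))) =
          Real.exp (κ * τ) * (κ * ψ τ - c * mn Sg (f τ) * ev G (fun j => Av o (r - τ) (v j)) +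
            c * mn Sg (f τ) * G (fun _ => o) * ψ τ) := by ring
      rw [e]
      apply mul_nonneg (Real.exp_pos _).le
      have h4 : c * mn Sg (f τ) * ev G (fun j => Av o (r - τ) (v j)) ≤
          c * mn Sg (f τ) * (C * ‖G‖) := mul_le_mul_of_nonneg_left h3 (by positivity)
      have h5 : c * (C * ‖G‖) * mn Sg (f τ) ≤ c * (C * ‖G‖) * ψ τ :=
        mul_le_mul_of_nonneg_left h2 (by positivity)
      have h6 : 0 ≤ c * mn Sg (f τ) * G (fun _ => o) * ψ τ := by
        have : 0 ≤ ψ τ := h1.trans h2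
        positivity
      rw [hκ]
      linarith
  have h1 := hmono (Set.left_mem_Icc.2 hsr) (Set.right_mem_Icc.2 hsr) hsr
  have h2 : ψ r = ev (f r) v := by
    simp only [hψ, sub_self, Av_zero_time]
  have h3 : mn Sg (f s) ≤ ψ s :=
    mn_le hB (f s) fun j => hB.av (hv j) (by linarith)
  simp only [h2] at h1
  have h4 : 0 < Real.exp (κ * r) * ev (f r) v :=
    lt_of_lt_of_le (mul_pos (Real.exp_pos _) (lt_of_lt_of_le hpos h3)) h1
  exact (mul_pos_iff_of_pos_left (Real.exp_pos _)).1 h4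

/-- positivity for positive times -/
theorem pos_all (hB : Base o Sg) (h : Sol o Sg c G t1 f) (hc : 0 ≤ c) (hγ : 0 ≤ G (fun _ => o))
    (h0 : NN Sg (f 0)) (h01 : f 0 (fun _ => o) = 1) {t : ℝ} (ht : 0 < t) (ht1 : t ≤ t1) :
    0 < mn Sg (f t) := by
  by_contra hcon
  push Not at hcon
  have hmc : Continuous fun τ => mn Sg (f τ) := (mn_cont hB).comp h.cont
  by_cases hall : ∀ τ ∈ Set.Icc 0 t, mn Sg (f τ) ≤ 0
  · obtain ⟨v, hv, he⟩ := mn_att hB (f t)
    set ψ : ℝ → ℝ := fun τ => ev (f τ) (fun j => Av o (t - τ) (v j)) with hψ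
    have hd : ∀ τ ∈ Set.Icc 0 t, HasDerivAt ψ 0 τ := by
      intro τ hτ
      have h1 := psi_der h t v ⟨hτ.1, hτ.2.trans ht1⟩
      rw [max_eq_right (hall τ hτ)] at h1
      simpa using h1
    have h1 := constant_of_has_deriv_right_zero (f := ψ) (a := 0) (b := t)
      (fun τ hτ => (hd τ hτ).continuousAt.continuousWithinAt)
      (fun τ hτ => (hd τ (Set.Ico_subset_Icc_self hτ)).hasDerivWithinAt) t
      (Set.right_mem_Icc.2 ht.le)
    have h2 : ψ t = ev (f t) v := by simp only [hψ, sub_self, Av_zero_time]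
    have h3 : ψ 0 = ev (f 0) (fun j => e0 o + Real.exp (-t) • (v j - e0 o)) := by
      simp only [hψ, sub_zero]
      congr 1
      funext j
      exact Av_eq o (hB.one _ (hv j))
    have h4 := pos_inside hB h0 h01 (Real.exp_pos (-t)).le (Real.exp_lt_one_iff.2 (by linarith)) hv
    rw [← h3, ← h1, h2, ← he] at h4
    linarith
  · push Not at hall
    obtain ⟨s, hs, hspos⟩ := hall
    set S : Set ℝ := {τ | τ ∈ Set.Icc s t ∧ mn Sg (f τ) ≤ 0} with hS
    have hSc : IsCompact S := by
      have : S = Set.Icc s t ∩ {τ | mn Sg (f τ) ≤ 0} := rfl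
      rw [this]
      exact isCompact_Icc.inter_right (isClosed_le hmc continuous_const)
    obtain ⟨r, hrS, hrmin⟩ := hSc.exists_isLeast ⟨t, ⟨hs.2, le_rfl⟩, hcon⟩
    have hsr : s < r := by
      rcases hrS.1.1.lt_or_eq with h1 | h1
      · exact h1
      · exfalso; rw [← h1] at hrS; linarith [hrS.2]
    have hlt : ∀ τ ∈ Set.Ico s r, 0 < mn Sg (f τ) := by
      intro τ hτ
      by_contra h1
      push Not at h1
      have h2 := hrmin ⟨⟨hτ.1, hτ.2.le.trans hrS.1.2⟩, h1⟩
      linarith [hτ.2]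
    have hle : ∀ τ ∈ Set.Icc s r, 0 ≤ mn Sg (f τ) := by
      have h1 : Set.Icc s r ⊆ {τ | 0 ≤ mn Sg (f τ)} := by
        rw [← closure_Ico hsr.ne]
        apply closure_minimal _ (isClosed_le continuous_const hmc)
        intro τ hτ
        exact (hlt τ hτ).le
      exact fun τ hτ => h1 hτ
    have h3 := pos_step hB h hc hγ hs.1 hsr.le (hrS.1.2.trans ht1) hle hspos
    linarith [hrS.2]

/-- the forms of the correction are positive definite -/
def PD (Sg : Set (J → ℝ)) (G : Tn J d) : Prop := ∀ w : Fin d → J → ℝ, (∀ j, w j ∈ Sg) →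
  ∀ a b : Fin d, a ≠ b → ∀ y : J → ℝ, y ≠ 0 → 0 < Bf G w a b y y

/-- the signature becomes nondegenerate -/
theorem neg_on (hB : Base o Sg) (h : Sol o Sg c G t1 f) (hc : 0 < c) (hγ : 0 ≤ G (fun _ => o))
    (hG : PD Sg G) (h0 : NN Sg (f 0)) (h01 : f 0 (fun _ => o) = 1) (hsym : Sym (f 0))
    (hHR : HR o Sg (f 0)) {t : ℝ} (ht : 0 < t) (ht1 : t ≤ t1) {w : Fin d → J → ℝ}
    (hw : ∀ j, w j ∈ Sg) {a b : Fin d} (hab : a ≠ b) {y : J → ℝ} (hy : y ≠ 0)
    (hφ : Bf (f 0) (fun j => Av o t (w j)) a b (Av o t y) (e0 o) = 0) :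
    Bf (f t) w a b y y < 0 := by
  have hmc : Continuous fun τ => mn Sg (f τ) := (mn_cont hB).comp h.cont
  set μ : ℝ → ℝ := fun τ => c * max (mn Sg (f τ)) 0 * G (fun _ => o) with hμ
  have hμc : Continuous μ := (continuous_const.mul (hmc.max continuous_const)).mul continuous_const
  set A : ℝ → ℝ := fun s => ∫ u in (0 : ℝ)..s, μ u with hA
  have hAd : ∀ s, HasDerivAt A (μ s) s := fun s =>
    (hμc.integral_hasStrictDerivAt 0 s).hasDerivAt
  set v := update (update w a y) b y with hv
  set ψ : ℝ → ℝ := fun τ => ev (f τ) (fun j => Av o (t - τ) (v j)) with hψ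
  have hav : ∀ s, (fun j => Av o s (v j)) =
      update (update (fun j => Av o s (w j)) a (Av o s y)) b (Av o s y) := by
    intro s
    rw [hv, Av_update, Av_update]
  have hd : ∀ τ ∈ Set.Icc 0 t, HasDerivAt (fun τ => Real.exp (-A τ) * ψ τ)
      (-(Real.exp (-A τ) * (c * max (mn Sg (f τ)) 0 *
        ev G (fun j => Av o (t - τ) (v j))))) τ := by
    intro τ hτ
    have h1 := (hAd τ).neg.exp
    have h2 := h1.mul (psi_der h t v ⟨hτ.1, hτ.2.trans ht1⟩)
    have e : (-(Real.exp (-A τ) * (c * max (mn Sg (f τ)) 0 *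
        ev G (fun j => Av o (t - τ) (v j))))) = Real.exp (-A τ) * -μ τ *
        ev (f τ) (fun j => Av o (t - τ) (v j)) + Real.exp (-A τ) *
        -(c * max (mn Sg (f τ)) 0 * (ev G (fun j => Av o (t - τ) (v j)) -
        G (fun _ => o) * ev (f τ) (fun j => Av o (t - τ) (v j)))) := by
      simp only [hμ]; ring
    rw [e]
    exact h2
  have hanti : StrictAntiOn (fun τ => Real.exp (-A τ) * ψ τ) (Set.Icc 0 t) := by
    apply strictAntiOn_of_deriv_neg (convex_Icc 0 t)
    · exact fun τ hτ => (hd τ hτ).continuousAt.continuousWithinAt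
    · intro τ hτ
      rw [interior_Icc] at hτ
      rw [(hd τ (Set.Ioo_subset_Icc_self hτ)).deriv]
      have h1 := pos_all hB h hc.le hγ h0 h01 hτ.1 (hτ.2.le.trans ht1)
      have h2 : 0 < ev G (fun j => Av o (t - τ) (v j)) := by
        rw [hav]
        exact hG _ (fun j => hB.av (hw j) (by linarith [hτ.2])) a b hab _ (Av_ne_zero o hy)
      rw [max_eq_left h1.le]
      have := Real.exp_pos (-A τ)
      have h3 : 0 < Real.exp (-A τ) * (c * mn Sg (f τ) * ev G (fun j => Av o (t - τ) (v j))) := by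
        positivity
      linarith
  have h1 := hanti (Set.left_mem_Icc.2 ht.le) (Set.right_mem_Icc.2 ht.le) ht
  have h2 : ψ t = Bf (f t) w a b y y := by
    simp only [hψ, sub_self, Av_zero_time]
    rfl
  have h3 : ψ 0 = Bf (f 0) (fun j => Av o t (w j)) a b (Av o t y) (Av o t y) := by
    simp only [hψ, sub_zero]
    rw [hav]
    rfl
  have hA0 : A 0 = 0 := by simp [hA]
  simp only [hA0, neg_zero, Real.exp_zero, one_mul, h2, h3] at h1
  -- the value at time 0
  have h4 := HR_all hsym hHR (w := fun j => Av o t (w j)) (fun j => hB.av (hw j) ht.le) hab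
    (Av o t y)
  have h5 : 0 < Bf (f 0) (fun j => Av o t (w j)) a b (e0 o) (e0 o) := by
    have h6 := pos_inside hB h0 h01 (Real.exp_pos (-t)).le (Real.exp_lt_one_iff.2 (by linarith))
      (w := update (update w a (e0 o)) b (e0 o)) (by
        intro j
        by_cases hj : j = b
        · subst hj; rw [update_self]; exact hB.mem_e0
        · rw [update_of_ne hj]
          by_cases hj' : j = a
          · subst hj'; rw [update_self]; exact hB.mem_e0
          · rw [update_of_ne hj']; exact hw j)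
    have e : (fun j => e0 o + Real.exp (-t) • (update (update w a (e0 o)) b (e0 o) j - e0 o)) =
        update (update (fun j => Av o t (w j)) a (e0 o)) b (e0 o) := by
      have h7 : (fun j => Av o t (update (update w a (e0 o)) b (e0 o) j)) =
          update (update (fun j => Av o t (w j)) a (e0 o)) b (e0 o) := by
        rw [Av_update, Av_update, Av_e0]
      rw [← h7]
      funext j
      rw [Av_eq]
      by_cases hj : j = b
      · subst hj; rw [update_self]; exact hB.one _ hB.mem_e0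
      · rw [update_of_ne hj]
        by_cases hj' : j = a
        · subst hj'; rw [update_self]; exact hB.one _ hB.mem_e0
        · rw [update_of_ne hj']; exact hB.one _ (hw j)
    rw [e] at h6
    exact h6
  unfold disc at h4
  rw [hφ] at h4
  have h6 : Bf (f 0) (fun j => Av o t (w j)) a b (Av o t y) (Av o t y) ≤ 0 := by
    by_contra hcon
    push Not at hcon
    nlinarith [mul_pos hcon h5]
  have h7 : Real.exp (-A t) * Bf (f t) w a b y y < 0 := lt_of_lt_of_le h1 h6
  have h8 := Real.exp_pos (-A t)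
  by_contra hcon
  push Not at hcon
  have := mul_nonneg h8.le hcon
  linarith

/-- the discriminants become positive -/
theorem disc_pos (hB : Base o Sg) (h : Sol o Sg c G t1 f) (hc : 0 < c) (hγ : 0 ≤ G (fun _ => o))
    (hG : PD Sg G) (h0 : NN Sg (f 0)) (h01 : f 0 (fun _ => o) = 1) (hsym : Sym (f 0))
    (hHR : HR o Sg (f 0)) {t : ℝ} (ht : 0 < t) (ht1 : t ≤ t1) (hsymt : Sym (f t))
    {w : Fin d → J → ℝ} (hw : ∀ j, w j ∈ Sg) {a b : Fin d} (hab : a ≠ b) {x : J → ℝ}
    (hxo : x o = 0) (hx : x ≠ 0) : 0 < disc o (f t) w a b x := by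
  set w' : Fin d → J → ℝ := fun j => Av o t (w j) with hw'
  set α := Bf (f 0) w' a b (e0 o) (e0 o) with hα
  set β := Bf (f 0) w' a b (Av o t x) (e0 o) with hβ
  have hα0 : 0 < α := by
    have h6 := pos_inside hB h0 h01 (Real.exp_pos (-t)).le (Real.exp_lt_one_iff.2 (by linarith))
      (w := update (update w a (e0 o)) b (e0 o)) (by
        intro j
        by_cases hj : j = b
        · subst hj; rw [update_self]; exact hB.mem_e0
        · rw [update_of_ne hj]
          by_cases hj' : j = a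
          · subst hj'; rw [update_self]; exact hB.mem_e0
          · rw [update_of_ne hj']; exact hw j)
    have e : (fun j => e0 o + Real.exp (-t) • (update (update w a (e0 o)) b (e0 o) j - e0 o)) =
        update (update (fun j => Av o t (w j)) a (e0 o)) b (e0 o) := by
      have h7 : (fun j => Av o t (update (update w a (e0 o)) b (e0 o) j)) =
          update (update (fun j => Av o t (w j)) a (e0 o)) b (e0 o) := by
        rw [Av_update, Av_update, Av_e0]
      rw [← h7]
      funext j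
      rw [Av_eq]
      by_cases hj : j = b
      · subst hj; rw [update_self]; exact hB.one _ hB.mem_e0
      · rw [update_of_ne hj]
        by_cases hj' : j = a
        · subst hj'; rw [update_self]; exact hB.one _ hB.mem_e0
        · rw [update_of_ne hj']; exact hB.one _ (hw j)
    rw [e] at h6
    exact h6
  set y := α • x - β • e0 o with hy
  have hy0 : y ≠ 0 := by
    intro h1
    apply hx
    funext l
    by_cases hl : l = o
    · rw [hl, hxo]; rfl
    · have h2 := congrFun h1 l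
      rw [hy] at h2
      have h3 : α * x l - β * e0 o l = 0 := h2
      unfold e0 at h3
      rw [Pi.single_eq_of_ne hl, mul_zero, sub_zero] at h3
      rcases mul_eq_zero.1 h3 with h4 | h4
      · exact absurd h4 hα0.ne'
      · exact h4
  have hφ : Bf (f 0) w' a b (Av o t y) (e0 o) = 0 := by
    have e : Av o t y = α • Av o t x - β • e0 o := by
      rw [hy, sub_eq_add_neg, ← neg_smul, Av_add, Av_smul, Av_smul, Av_e0, neg_smul, ← sub_eq_add_neg]
    rw [e, Bf_sub_left _ _ hab, Bf_smul_left _ _ hab, Bf_smul_left _ _ hab, ← hβ, ← hα]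
    ring
  have h1 := neg_on hB h hc hγ hG h0 h01 hsym hHR ht ht1 hw hab hy0 hφ
  have hC : 0 < Bf (f t) w a b (e0 o) (e0 o) := by
    refine lt_of_lt_of_le (pos_all hB h hc.le hγ h0 h01 ht ht1) (mn_le hB _ ?_)
    intro j
    by_cases hj : j = b
    · subst hj; rw [update_self]; exact hB.mem_e0
    · rw [update_of_ne hj]
      by_cases hj' : j = a
      · subst hj'; rw [update_self]; exact hB.mem_e0
      · rw [update_of_ne hj']; exact hw j
  rw [hy, Bf_sub_left _ _ hab, Bf_smul_left _ _ hab, Bf_smul_left _ _ hab, Bf_sub_right, Bf_sub_right,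
    Bf_smul_right, Bf_smul_right, Bf_smul_right, Bf_smul_right, Bf_symm hsymt w hab (e0 o) x] at h1
  unfold disc
  set P := Bf (f t) w a b x x
  set R := Bf (f t) w a b x (e0 o)
  set C := Bf (f t) w a b (e0 o) (e0 o)
  by_contra hcon
  push Not at hcon
  have h2 : C * (α * (α * P - β * R) - β * (α * R - β * C)) =
      α ^ 2 * (P * C - R ^ 2) + (α * R - β * C) ^ 2 := by ring
  have h3 : C * (α * (α * P - β * R) - β * (α * R - β * C)) < 0 :=
    mul_neg_of_pos_of_neg hC h1
  have h4 : 0 ≤ α ^ 2 * (P * C - R ^ 2) := mul_nonneg (sq_nonneg _) (by linarith)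
  have h5 := sq_nonneg (α * R - β * C)
  linarith

end Pool.Agent.P8H74.BL
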