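import Mathlib

/-! Exactly one positive eigenvalue versus the reverse Cauchy–Schwarz inequality. -/

set_option autoImplicit false

namespace Pool.Agent.P8H74.BL

open Finset Matrix

variable {n : ℕ} {A : Matrix (Fin n) (Fin n) ℝ}

/-- eigenvectors as plain vectors -/
noncomputable def uu (hA : A.IsHermitian) (i : Fin n) : Fin n → ℝ := (hA.eigenvectorBasis i).ofLp

theorem mul_uu (hA : A.IsHermitian) (i : Fin n) : A *ᵥ uu hA i = hA.eigenvalues i • uu hA i :=
  hA.mulVec_eigenvectorBasis i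

theorem uu_dot (hA : A.IsHermitian) (i j : Fin n) : uu hA i ⬝ᵥ uu hA j = if i = j then 1 else 0 := by
  have h := (orthonormal_iff_ite.1 hA.eigenvectorBasis.orthonormal) i j
  rw [← h, PiLp.inner_apply]
  unfold dotProduct uu
  apply sum_congr rfl
  intro k _
  show _ = _ * _
  rw [mul_comm]
  rfl

theorem uu_sum (hA : A.IsHermitian) (x : Fin n → ℝ) : x = ∑ i, (x ⬝ᵥ uu hA i) • uu hA i := by
  have h := hA.eigenvectorBasis.sum_repr' (WithLp.toLp 2 x)
  have h2 := congrArg WithLp.ofLp h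
  simp only [WithLp.ofLp_sum, WithLp.ofLp_smul] at h2
  refine h2.symm.trans ?_
  apply sum_congr rfl
  intro i _
  unfold uu
  congr 1

theorem B_expand (hA : A.IsHermitian) (x : Fin n → ℝ) :
    x ⬝ᵥ (A *ᵥ x) = ∑ i, hA.eigenvalues i * (x ⬝ᵥ uu hA i) ^ 2 := by
  have h1 : A *ᵥ x = ∑ i, (x ⬝ᵥ uu hA i) • hA.eigenvalues i • uu hA i := by
    conv_lhs => rw [uu_sum hA x]
    rw [Matrix.mulVec_sum]
    apply sum_congr rfl
    intro i _
    rw [Matrix.mulVec_smul, mul_uu]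
  rw [h1, dotProduct_sum]
  apply sum_congr rfl
  intro i _
  rw [dotProduct_smul, dotProduct_smul, smul_eq_mul, smul_eq_mul]
  ring

theorem B_symm (hA : A.IsHermitian) (x y : Fin n → ℝ) : x ⬝ᵥ (A *ᵥ y) = y ⬝ᵥ (A *ᵥ x) := by
  have h : Aᵀ = A := by
    have := hA.eq
    rwa [conjTranspose_eq_transpose_of_trivial] at this
  rw [dotProduct_mulVec, ← mulVec_transpose, h, dotProduct_comm]

/-- the equivalence -/
theorem eig_iff (hA : A.IsHermitian) {v : Fin n → ℝ} (hv : 0 < v ⬝ᵥ (A *ᵥ v)) :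
    (univ.filter fun i => 0 < hA.eigenvalues i).card = 1 ↔
      ∀ x, (x ⬝ᵥ (A *ᵥ x)) * (v ⬝ᵥ (A *ᵥ v)) ≤ (x ⬝ᵥ (A *ᵥ v)) ^ 2 := by
  have hq : ∀ (x y : Fin n → ℝ) (a b : ℝ), (a • x + b • y) ⬝ᵥ (A *ᵥ (a • x + b • y)) =
      a ^ 2 * (x ⬝ᵥ (A *ᵥ x)) + 2 * (a * b) * (x ⬝ᵥ (A *ᵥ y)) + b ^ 2 * (y ⬝ᵥ (A *ᵥ y)) := by
    intro x y a b
    rw [mulVec_add, mulVec_smul, mulVec_smul]
    simp only [add_dotProduct, dotProduct_add, smul_dotProduct, dotProduct_smul, smul_eq_mul]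
    rw [B_symm hA y x]
    ring
  constructor
  · intro h1 x
    obtain ⟨i0, hi0⟩ := card_eq_one.1 h1
    have hle : ∀ i, i ≠ i0 → hA.eigenvalues i ≤ 0 := by
      intro i hi
      by_contra hcon
      push Not at hcon
      have : i ∈ univ.filter fun i => 0 < hA.eigenvalues i := mem_filter.2 ⟨mem_univ _, hcon⟩
      rw [hi0, mem_singleton] at this
      exact hi this
    have hneg : ∀ z : Fin n → ℝ, z ⬝ᵥ uu hA i0 = 0 → z ⬝ᵥ (A *ᵥ z) ≤ 0 := by
      intro z hz
      rw [B_expand hA]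
      apply sum_nonpos
      intro i _
      by_cases hi : i = i0
      · rw [hi, hz]; simp
      · exact mul_nonpos_of_nonpos_of_nonneg (hle i hi) (sq_nonneg _)
    set β := v ⬝ᵥ (A *ᵥ v) with hβ
    set γ := x ⬝ᵥ (A *ᵥ v) with hγ
    set y : Fin n → ℝ := β • x + (-γ) • v with hy
    have hyv : y ⬝ᵥ (A *ᵥ v) = 0 := by
      rw [hy, add_dotProduct, smul_dotProduct, smul_dotProduct, ← hβ, ← hγ, smul_eq_mul,
        smul_eq_mul]; ring
    have hyy : y ⬝ᵥ (A *ᵥ y) = β * ((x ⬝ᵥ (A *ᵥ x)) * β - γ ^ 2) := by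
      rw [hy, hq, ← hβ, ← hγ]; ring
    by_contra hcon
    push Not at hcon
    have hyp : 0 < y ⬝ᵥ (A *ᵥ y) := by
      rw [hyy]; exact mul_pos hv (by linarith)
    set a := v ⬝ᵥ uu hA i0 with ha
    set b := -(y ⬝ᵥ uu hA i0) with hb
    have hz := hneg (a • y + b • v) (by
      rw [add_dotProduct, smul_dotProduct, smul_dotProduct, smul_eq_mul, smul_eq_mul, ← ha, hb]
      ring)
    rw [hq, hyv, ← hβ] at hz
    have h2 : 0 ≤ a ^ 2 * (y ⬝ᵥ (A *ᵥ y)) := mul_nonneg (sq_nonneg _) hyp.le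
    have h3 : 0 ≤ b ^ 2 * β := mul_nonneg (sq_nonneg _) hv.le
    have h4 : a ^ 2 * (y ⬝ᵥ (A *ᵥ y)) = 0 := by linarith
    have ha0 : a = 0 := by
      rcases mul_eq_zero.1 h4 with h | h
      · exact pow_eq_zero_iff (two_ne_zero) |>.1 h
      · exact absurd h hyp.ne'
    have h5 := hneg v ha0
    linarith
  · intro h
    rw [card_eq_one]
    have hex : ∃ i, 0 < hA.eigenvalues i := by
      by_contra hcon
      push Not at hcon
      have : v ⬝ᵥ (A *ᵥ v) ≤ 0 := by
        rw [B_expand hA]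
        exact sum_nonpos fun i _ => mul_nonpos_of_nonpos_of_nonneg (hcon i) (sq_nonneg _)
      linarith
    obtain ⟨i0, hi0⟩ := hex
    refine ⟨i0, ?_⟩
    ext j
    rw [mem_filter, mem_singleton]
    constructor
    · rintro ⟨_, hj⟩
      by_contra hne
      -- the plane spanned by the two eigenvectors
      have huu : ∀ i, uu hA i ⬝ᵥ (A *ᵥ uu hA i) = hA.eigenvalues i := by
        intro i
        rw [mul_uu, dotProduct_smul, uu_dot, if_pos rfl, smul_eq_mul, mul_one]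
      have huj : uu hA j ⬝ᵥ (A *ᵥ uu hA i0) = 0 := by
        rw [mul_uu, dotProduct_smul, uu_dot, if_neg hne, smul_zero]
      set a := uu hA i0 ⬝ᵥ (A *ᵥ v) with ha
      set b := -(uu hA j ⬝ᵥ (A *ᵥ v)) with hb
      have h1 := h (a • uu hA j + b • uu hA i0)
      have h2 : (a • uu hA j + b • uu hA i0) ⬝ᵥ (A *ᵥ v) = 0 := by
        rw [add_dotProduct, smul_dotProduct, smul_dotProduct, smul_eq_mul, smul_eq_mul, ← ha, hb]
        ring
      rw [h2, hq, huj, huu, huu] at h1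
      have h3 : 0 ≤ a ^ 2 * hA.eigenvalues j := mul_nonneg (sq_nonneg _) hj.le
      have h4 : 0 ≤ b ^ 2 * hA.eigenvalues i0 := mul_nonneg (sq_nonneg _) hi0.le
      have h5 : a ^ 2 * hA.eigenvalues j + 2 * (a * b) * 0 + b ^ 2 * hA.eigenvalues i0 ≤ 0 := by
        by_contra hcon
        push Not at hcon
        have := mul_pos hcon hv
        linarith
      have h6 : a ^ 2 * hA.eigenvalues j = 0 := by linarith
      have ha0 : a = 0 := by
        rcases mul_eq_zero.1 h6 with h | h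
        · exact pow_eq_zero_iff (two_ne_zero) |>.1 h
        · exact absurd h hj.ne'
      -- then `uu i0` is orthogonal to `v`
      have h7 := h (uu hA i0)
      rw [← ha, ha0, huu] at h7
      have := mul_pos hi0 hv
      linarith
    · rintro rfl
      exact ⟨mem_univ _, hi0⟩

end Pool.Agent.P8H74.BL
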