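import Mathlib
import Pool.Agent.H839R2.Ode.Flow

/-! Compact sets which are absorbed by a contracting flow are balls. -/

set_option autoImplicit false

namespace Pool.Agent.P8H74.BL

open Set Filter Topology Metric
open scoped NNReal InnerProductSpace

/-- flows of vector fields -/
structure IsFlow {F : Type*} [NormedAddCommGroup F] [NormedSpace ℝ F] (X : F → F) (Φ : F → ℝ → F) :
    Prop where
  zero : ∀ x, Φ x 0 = x
  add : ∀ x s t, Φ (Φ x s) t = Φ x (s + t)
  der : ∀ x t, HasDerivAt (Φ x) (X (Φ x t)) t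
  cont : Continuous fun q : F × ℝ => Φ q.1 q.2

section exist

variable {F : Type*} [NormedAddCommGroup F] [NormedSpace ℝ F] [CompleteSpace F]

theorem exists_isFlow (W : F → F) (K L : ℝ≥0) (hK : LipschitzWith K W) (hL : ∀ x, ‖W x‖ ≤ L) :
    ∃ Φ, IsFlow W Φ := by
  choose Φ h0 h1 using Pool.Agent.H839R2.Ode.exists_global_solution W K L hK hL
  have hpos : ∀ x y t, 0 ≤ t → dist (Φ x t) (Φ y t) ≤ dist x y * Real.exp (K * t) := by
    intro x y t ht
    have := dist_le_of_trajectories_ODE (v := fun _ => W) (K := K) (f := Φ x) (g := Φ y) (a := 0)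
      (b := t) (δ := dist x y) (fun _ => hK)
      (fun s _ => (h1 x s).continuousAt.continuousWithinAt)
      (fun s _ => (h1 x s).hasDerivWithinAt)
      (fun s _ => (h1 y s).continuousAt.continuousWithinAt)
      (fun s _ => (h1 y s).hasDerivWithinAt) (by rw [h0, h0]) t ⟨ht, le_refl _⟩
    simpa using this
  have hneg : ∀ x y t, 0 ≤ t → dist (Φ x (-t)) (Φ y (-t)) ≤ dist x y * Real.exp (K * t) := by
    intro x y t ht
    have hr : ∀ z s, HasDerivAt (fun u => Φ z (-u)) (-W (Φ z (-s))) s := by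
      intro z s
      have := (h1 z (-s)).scomp s (hasDerivAt_neg s)
      rw [neg_smul, one_smul] at this
      exact this
    have hK' : LipschitzWith K (fun z => -W z) := hK.neg
    have := dist_le_of_trajectories_ODE (v := fun _ z => -W z) (K := K) (f := fun u => Φ x (-u))
      (g := fun u => Φ y (-u)) (a := 0)
      (b := t) (δ := dist x y) (fun _ => hK')
      (fun s _ => (hr x s).continuousAt.continuousWithinAt)
      (fun s _ => (hr x s).hasDerivWithinAt)
      (fun s _ => (hr y s).continuousAt.continuousWithinAt)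
      (fun s _ => (hr y s).hasDerivWithinAt) (by simp [h0]) t ⟨ht, le_refl _⟩
    simpa using this
  have hboth : ∀ x y t, dist (Φ x t) (Φ y t) ≤ dist x y * Real.exp (K * |t|) := by
    intro x y t
    rcases le_total 0 t with h | h
    · rw [abs_of_nonneg h]; exact hpos x y t h
    · rw [abs_of_nonpos h]
      have := hneg x y (-t) (by linarith)
      rwa [neg_neg] at this
  have htime : ∀ x s t, dist (Φ x s) (Φ x t) ≤ L * |s - t| := by
    intro x s t
    have h2 := Convex.norm_image_sub_le_of_norm_hasDerivWithin_le (f := Φ x)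
      (f' := fun u => W (Φ x u)) (s := univ) (C := L) (x := t) (y := s)
      (fun u _ => (h1 x u).hasDerivWithinAt) (fun u _ => hL _) convex_univ trivial trivial
    rw [dist_eq_norm]
    simpa [Real.norm_eq_abs] using h2
  refine ⟨Φ, h0, ?_, h1, ?_⟩
  · intro x s t
    have hf : ∀ u, HasDerivAt (fun v => Φ x (s + v)) (W (Φ x (s + u))) u := by
      intro u
      have := (h1 x (s + u)).scomp u ((hasDerivAt_id u).const_add s)
      rw [one_smul] at this
      exact this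
    have h3 := ODE_solution_unique_univ (v := fun _ => W) (s := fun _ => univ) (K := K) (t₀ := 0)
      (f := Φ (Φ x s)) (g := fun v => Φ x (s + v)) (fun _ => hK.lipschitzOnWith)
      (fun u => ⟨h1 _ u, trivial⟩) (fun u => ⟨hf u, trivial⟩) (by simp [h0])
    exact congrFun h3 t
  · rw [continuous_iff_continuousAt]
    rintro ⟨x, t⟩
    rw [ContinuousAt, tendsto_iff_dist_tendsto_zero]
    have hb : ∀ q : F × ℝ, dist (Φ q.1 q.2) (Φ x t) ≤
        dist q.1 x * Real.exp (K * |q.2|) + L * |q.2 - t| := fun q =>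
      (dist_triangle _ (Φ x q.2) _).trans (add_le_add (hboth q.1 x q.2) (htime x q.2 t))
    have hc : Tendsto (fun q : F × ℝ => dist q.1 x * Real.exp (K * |q.2|) + L * |q.2 - t|)
        (𝓝 (x, t)) (𝓝 (dist x x * Real.exp (K * |t|) + L * |t - t|)) := by
      apply Continuous.tendsto (f := fun q : F × ℝ =>
        dist q.1 x * Real.exp (K * |q.2|) + L * |q.2 - t|)
      fun_prop
    have e : dist x x * Real.exp (K * |t|) + L * |t - t| = 0 := by simp
    rw [e] at hc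
    exact squeeze_zero (fun _ => dist_nonneg) hb hc

end exist

section ball

variable {F : Type*} [NormedAddCommGroup F] [InnerProductSpace ℝ F]
  {X : F → F} {Φ : F → ℝ → F} {Q : Set F} {κ : ℝ}

theorem flow_contract (hΦ : IsFlow X Φ) (hinv : ∀ x ∈ Q, ∀ t, 0 ≤ t → Φ x t ∈ Q)
    (hcon : ∀ x ∈ Q, ∀ y ∈ Q, ⟪x - y, X x - X y⟫_ℝ ≤ -κ * ‖x - y‖ ^ 2) {x y : F} (hx : x ∈ Q)
    (hy : y ∈ Q) {t : ℝ} (ht : 0 ≤ t) : ‖Φ x t - Φ y t‖ ≤ Real.exp (-κ * t) * ‖x - y‖ := by
  have hd : ∀ u, HasDerivAt (fun u => Real.exp (2 * κ * u) * ‖Φ x u - Φ y u‖ ^ 2)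
      (Real.exp (2 * κ * u) * (2 * κ) * ‖Φ x u - Φ y u‖ ^ 2 +
        Real.exp (2 * κ * u) * (2 * ⟪Φ x u - Φ y u, X (Φ x u) - X (Φ y u)⟫_ℝ)) u := by
    intro u
    have h1 : HasDerivAt (fun u : ℝ => Real.exp (2 * κ * u)) (Real.exp (2 * κ * u) * (2 * κ)) u := by
      have := ((hasDerivAt_id u).const_mul (2 * κ)).exp
      simpa using this
    have h2 : HasDerivAt (fun u => ‖Φ x u - Φ y u‖ ^ 2)
        (2 * ⟪Φ x u - Φ y u, X (Φ x u) - X (Φ y u)⟫_ℝ) u :=
      ((hΦ.der x u).sub (hΦ.der y u)).norm_sq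
    exact h1.mul h2
  have hanti : AntitoneOn (fun u => Real.exp (2 * κ * u) * ‖Φ x u - Φ y u‖ ^ 2) (Ici 0) := by
    apply antitoneOn_of_deriv_nonpos (convex_Ici 0)
    · exact fun u _ => (hd u).continuousAt.continuousWithinAt
    · exact fun u _ => (hd u).differentiableAt.differentiableWithinAt
    · intro u hu
      rw [interior_Ici] at hu
      rw [(hd u).deriv]
      have h3 := hcon _ (hinv x hx u (le_of_lt hu)) _ (hinv y hy u (le_of_lt hu))
      have h4 := Real.exp_pos (2 * κ * u)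
      have h5 : Real.exp (2 * κ * u) * (2 * κ) * ‖Φ x u - Φ y u‖ ^ 2 +
          Real.exp (2 * κ * u) * (2 * ⟪Φ x u - Φ y u, X (Φ x u) - X (Φ y u)⟫_ℝ) =
          2 * Real.exp (2 * κ * u) * (κ * ‖Φ x u - Φ y u‖ ^ 2 +
            ⟪Φ x u - Φ y u, X (Φ x u) - X (Φ y u)⟫_ℝ) := by ring
      rw [h5]
      apply mul_nonpos_of_nonneg_of_nonpos (by positivity)
      linarith
  have h1 := hanti (mem_Ici.2 le_rfl) (mem_Ici.2 ht) ht
  simp only [mul_zero, Real.exp_zero, one_mul, hΦ.zero] at h1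
  have h2 : ‖Φ x t - Φ y t‖ ^ 2 ≤ (Real.exp (-κ * t) * ‖x - y‖) ^ 2 := by
    have e1 : Real.exp (-κ * t) ^ 2 * Real.exp (2 * κ * t) = 1 := by
      rw [← Real.exp_nat_mul, ← Real.exp_add]
      have : ((2 : ℕ) : ℝ) * (-κ * t) + 2 * κ * t = 0 := by push_cast; ring
      rw [this, Real.exp_zero]
    rw [mul_pow]
    calc ‖Φ x t - Φ y t‖ ^ 2 = Real.exp (-κ * t) ^ 2 * (Real.exp (2 * κ * t) *
          ‖Φ x t - Φ y t‖ ^ 2) := by rw [← mul_assoc, e1, one_mul]
      _ ≤ Real.exp (-κ * t) ^ 2 * ‖x - y‖ ^ 2 := mul_le_mul_of_nonneg_left h1 (by positivity)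
  exact le_of_sq_le_sq h2 (by positivity)

theorem exists_fixed (hΦ : IsFlow X Φ) (hQc : IsCompact Q) (hne : Q.Nonempty) (hκ : 0 < κ)
    (hinv : ∀ x ∈ Q, ∀ t, 0 ≤ t → Φ x t ∈ Q)
    (hcon : ∀ x ∈ Q, ∀ y ∈ Q, ⟪x - y, X x - X y⟫_ℝ ≤ -κ * ‖x - y‖ ^ 2) :
    ∃ p ∈ Q, ∀ t, Φ p t = p := by
  have hc1 : Continuous fun x => Φ x 1 := hΦ.cont.comp (continuous_id.prodMk continuous_const)
  obtain ⟨p, hp, hmin⟩ := hQc.exists_isMinOn hne
    ((hc1.sub continuous_id).norm.continuousOn (s := Q))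
  have hmin' : ∀ x ∈ Q, ‖Φ p 1 - p‖ ≤ ‖Φ x 1 - x‖ := fun x hx => hmin hx
  have he : Real.exp (-κ * 1) < 1 := by
    rw [Real.exp_lt_one_iff]; linarith
  have h1 : Φ p 1 = p := by
    by_contra hne'
    have hpos : 0 < ‖Φ p 1 - p‖ := norm_pos_iff.2 (sub_ne_zero.2 hne')
    have h2 := hmin' (Φ p 1) (hinv p hp 1 zero_le_one)
    have h3 := flow_contract hΦ hinv hcon (hinv p hp 1 zero_le_one) hp zero_le_one
    nlinarith
  have hpos : ∀ t, 0 ≤ t → Φ p t = p := by
    intro t ht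
    have h2 := flow_contract hΦ hinv hcon (hinv p hp t ht) hp zero_le_one
    have h3 : Φ (Φ p t) 1 = Φ p t := by
      rw [hΦ.add, add_comm, ← hΦ.add, h1]
    rw [h3, h1] at h2
    by_contra hne'
    have hpos : 0 < ‖Φ p t - p‖ := norm_pos_iff.2 (sub_ne_zero.2 hne')
    nlinarith
  refine ⟨p, hp, fun t => ?_⟩
  rcases le_total 0 t with ht | ht
  · exact hpos t ht
  · have h2 := hpos (-t) (by linarith)
    have h3 : Φ (Φ p (-t)) t = p := by rw [hΦ.add, neg_add_cancel, hΦ.zero]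
    rwa [h2] at h3

/-- the exit time from a set, backwards -/
noncomputable def TA (Φ : F → ℝ → F) (A : Set F) (x : F) : ℝ := sSup {s : ℝ | Φ x (-s) ∈ A}

section exit

variable {A : Set F} {p : F}

theorem TA_spec (hΦ : IsFlow X Φ) (hA : IsClosed A) (hAQ : A ⊆ Q) (hQb : Bornology.IsBounded Q)
    (hκ : 0 < κ) (hinv : ∀ x ∈ Q, ∀ t, 0 ≤ t → Φ x t ∈ Q)
    (hcon : ∀ x ∈ Q, ∀ y ∈ Q, ⟪x - y, X x - X y⟫_ℝ ≤ -κ * ‖x - y‖ ^ 2)
    (hp : p ∈ Q) (hfix : ∀ t, Φ p t = p) (hpA : p ∈ interior A)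
    (habs : ∀ x ∈ A, ∀ t, 0 < t → Φ x t ∈ interior A) {x : F} (hx : x ∈ Q) (hxp : x ≠ p) :
    (∀ s, Φ x (-s) ∈ A ↔ s ≤ TA Φ A x) ∧ (∀ s, Φ x (-s) ∈ interior A ↔ s < TA Φ A x) := by
  set J : Set ℝ := {s : ℝ | Φ x (-s) ∈ A} with hJ
  have hpos : 0 < ‖x - p‖ := norm_pos_iff.2 (sub_ne_zero.2 hxp)
  have hcx : Continuous (fun s : ℝ => Φ x (-s)) :=
    hΦ.cont.comp (continuous_const.prodMk continuous_neg)
  have hfw : ∀ t, 0 ≤ t → ‖Φ x t - p‖ ≤ Real.exp (-κ * t) * ‖x - p‖ := by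
    intro t ht
    have := flow_contract hΦ hinv hcon hx hp ht
    rwa [hfix] at this
  -- nonempty
  have hJne : J.Nonempty := by
    have hlim : Tendsto (fun t : ℝ => Φ x t) atTop (𝓝 p) := by
      rw [tendsto_iff_norm_sub_tendsto_zero]
      have h1 : Tendsto (fun t : ℝ => Real.exp (-κ * t) * ‖x - p‖) atTop (𝓝 (0 * ‖x - p‖)) := by
        apply Tendsto.mul_const
        apply Real.tendsto_exp_atBot.comp
        exact tendsto_id.const_mul_atTop_of_neg (by linarith)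
      rw [zero_mul] at h1
      apply squeeze_zero' (Eventually.of_forall fun _ => norm_nonneg _) _ h1
      filter_upwards [eventually_ge_atTop 0] with t ht
      exact hfw t ht
    have h2 : ∀ᶠ t in atTop, Φ x t ∈ A :=
      hlim (mem_of_superset (isOpen_interior.mem_nhds hpA) interior_subset)
    obtain ⟨t, ht⟩ := h2.exists
    exact ⟨-t, by rw [hJ, mem_ofPred_eq, neg_neg]; exact ht⟩
  -- bounded
  obtain ⟨M, hM⟩ := hQb.subset_closedBall p
  have hJb : BddAbove J := by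
    have hlim : Tendsto (fun t : ℝ => Real.exp (-κ * t) * M) atTop (𝓝 (0 * M)) := by
      apply Tendsto.mul_const
      apply Real.tendsto_exp_atBot.comp
      exact tendsto_id.const_mul_atTop_of_neg (by linarith)
    rw [zero_mul] at hlim
    obtain ⟨t0, ht0⟩ := (hlim.eventually_lt_const hpos).and (eventually_ge_atTop 0) |>.exists_forall_of_atTop
    refine ⟨max t0 0, ?_⟩
    intro s hs
    by_contra hcon'
    push Not at hcon'
    have hs0 : 0 ≤ s := (le_max_right _ _).trans hcon'.le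
    have h1 := (ht0 s ((le_max_left _ _).trans hcon'.le)).1
    have h2 : Φ x (-s) ∈ Q := hAQ hs
    have h3 := flow_contract hΦ hinv hcon h2 hp hs0
    rw [hfix, hΦ.add, neg_add_cancel, hΦ.zero] at h3
    have h4 := hM h2
    rw [mem_closedBall, dist_eq_norm] at h4
    have h5 : Real.exp (-κ * s) * ‖Φ x (-s) - p‖ ≤ Real.exp (-κ * s) * M :=
      mul_le_mul_of_nonneg_left h4 (Real.exp_pos _).le
    linarith
  have hJc : IsClosed J := hA.preimage hcx
  have hmem : TA Φ A x ∈ J := hJc.csSup_mem hJne hJb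
  have hlt : ∀ s, s < TA Φ A x → Φ x (-s) ∈ interior A := by
    intro s hs
    have h1 : Φ (Φ x (-TA Φ A x)) (TA Φ A x - s) = Φ x (-s) := by
      rw [hΦ.add]; congr 1; ring
    rw [← h1]
    exact habs _ hmem _ (by linarith)
  refine ⟨fun s => ⟨fun h => le_csSup hJb h, fun h => ?_⟩, fun s => ⟨fun h => ?_, hlt s⟩⟩
  · rcases h.lt_or_eq with h | h
    · exact interior_subset (hlt s h)
    · rw [h]; exact hmem
  · have h1 : ∀ᶠ u in 𝓝 s, Φ x (-u) ∈ interior A :=
      hcx.continuousAt.eventually_mem (isOpen_interior.mem_nhds h)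
    have h2 : ∀ᶠ u in 𝓝[>] s, Φ x (-u) ∈ interior A := h1.filter_mono nhdsWithin_le_nhds
    obtain ⟨u, hu1, hu2⟩ := (h2.and self_mem_nhdsWithin).exists
    exact lt_of_lt_of_le hu2 (le_csSup hJb (show Φ x (-u) ∈ A from interior_subset hu1))

end exit

theorem ball_of_flow (hΦ : IsFlow X Φ) (hQc : IsCompact Q) (hne : Q.Nonempty) (hκ : 0 < κ)
    (hint : ∀ x ∈ Q, ∀ t, 0 < t → Φ x t ∈ interior Q)
    (hcon : ∀ x ∈ Q, ∀ y ∈ Q, ⟪x - y, X x - X y⟫_ℝ ≤ -κ * ‖x - y‖ ^ 2) :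
    ∃ (p : F) (r : ℝ), 0 < r ∧ Nonempty (Q ≃ₜ closedBall p r) := by
  classical
  have hinv : ∀ x ∈ Q, ∀ t, 0 ≤ t → Φ x t ∈ Q := by
    intro x hx t ht
    rcases ht.eq_or_lt with h | h
    · rw [← h, hΦ.zero]; exact hx
    · exact interior_subset (hint x hx t h)
  obtain ⟨p, hp, hfix⟩ := exists_fixed hΦ hQc hne hκ hinv hcon
  have hpi : p ∈ interior Q := by
    have := hint p hp 1 one_pos
    rwa [hfix] at this
  obtain ⟨r, hr, hrQ⟩ : ∃ r, 0 < r ∧ closedBall p r ⊆ Q := by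
    obtain ⟨r, hr, h⟩ := Metric.mem_nhds_iff.1 (mem_interior_iff_mem_nhds.1 hpi)
    exact ⟨r / 2, by positivity, (closedBall_subset_ball (by linarith)).trans h⟩
  refine ⟨p, r, hr, ?_⟩
  set B := closedBall p r with hB
  have hpB : p ∈ interior B := mem_interior_iff_mem_nhds.2 (closedBall_mem_nhds p hr)
  have hcontr : ∀ x ∈ Q, ∀ t, 0 ≤ t → ‖Φ x t - p‖ ≤ Real.exp (-κ * t) * ‖x - p‖ := by
    intro x hx t ht
    have := flow_contract hΦ hinv hcon hx hp ht
    rwa [hfix] at this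
  have habsB : ∀ x ∈ B, ∀ t, 0 < t → Φ x t ∈ interior B := by
    intro x hx t ht
    apply interior_mono ball_subset_closedBall
    rw [isOpen_ball.interior_eq, mem_ball, dist_eq_norm]
    have h1 := hcontr x (hrQ hx) t ht.le
    rw [hB, mem_closedBall, dist_eq_norm] at hx
    have h2 : Real.exp (-κ * t) < 1 := by
      rw [Real.exp_lt_one_iff]; nlinarith
    have h3 : Real.exp (-κ * t) * ‖x - p‖ ≤ Real.exp (-κ * t) * r :=
      mul_le_mul_of_nonneg_left hx (Real.exp_pos _).le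
    nlinarith
  have sQ : ∀ {x}, x ∈ Q → x ≠ p → (∀ s, Φ x (-s) ∈ Q ↔ s ≤ TA Φ Q x) ∧
      (∀ s, Φ x (-s) ∈ interior Q ↔ s < TA Φ Q x) := fun hx hxp =>
    TA_spec hΦ hQc.isClosed Subset.rfl hQc.isBounded hκ hinv hcon hp hfix hpi hint hx hxp
  have sB : ∀ {x}, x ∈ Q → x ≠ p → (∀ s, Φ x (-s) ∈ B ↔ s ≤ TA Φ B x) ∧
      (∀ s, Φ x (-s) ∈ interior B ↔ s < TA Φ B x) := fun hx hxp =>
    TA_spec hΦ isClosed_closedBall hrQ hQc.isBounded hκ hinv hcon hp hfix hpB habsB hx hxp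
  -- shift
  have hnp : ∀ {x t}, x ≠ p → Φ x t ≠ p := by
    intro x t hxp h
    apply hxp
    have h1 : Φ (Φ x t) (-t) = x := by rw [hΦ.add, add_neg_cancel, hΦ.zero]
    rw [← h1, h, hfix]
  have shift : ∀ {A : Set F}, (∀ {x}, x ∈ Q → x ≠ p → (∀ s, Φ x (-s) ∈ A ↔ s ≤ TA Φ A x) ∧
      (∀ s, Φ x (-s) ∈ interior A ↔ s < TA Φ A x)) → ∀ {x t}, x ∈ Q → x ≠ p → Φ x t ∈ Q →
      TA Φ A (Φ x t) = TA Φ A x + t := by
    intro A hA x t hx hxp hxt
    have h1 := (hA hx hxp).1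
    have h2 := (hA hxt (hnp hxp)).1
    have h3 : ∀ s, s ≤ TA Φ A (Φ x t) ↔ s ≤ TA Φ A x + t := by
      intro s
      rw [← h2, hΦ.add]
      have e : t + -s = -(s - t) := by ring
      rw [e, h1]
      constructor <;> intro h <;> linarith
    exact le_antisymm ((h3 _).1 le_rfl) ((h3 _).2 le_rfl)
  set D : F → ℝ := fun x => TA Φ Q x - TA Φ B x with hD
  have hD0 : ∀ {x}, x ∈ Q → x ≠ p → 0 ≤ D x := by
    intro x hx hxp
    have h1 := ((sB hx hxp).1 _).2 le_rfl
    have h2 := ((sQ hx hxp).1 _).1 (hrQ h1)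
    simp only [hD]; linarith
  have hDs : ∀ {x t}, x ∈ Q → x ≠ p → Φ x t ∈ Q → D (Φ x t) = D x := by
    intro x t hx hxp hxt
    simp only [hD]
    rw [shift sQ hx hxp hxt, shift sB hx hxp hxt]
    ring
  have hTQ0 : ∀ {x}, x ∈ Q → x ≠ p → 0 ≤ TA Φ Q x := by
    intro x hx hxp
    apply ((sQ hx hxp).1 0).1
    rw [neg_zero, hΦ.zero]; exact hx
  -- the map
  set H : F → F := fun x => if x = p then p else Φ x (D x) with hH
  have hHp : H p = p := by simp only [hH, if_true]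
  have hHx : ∀ {x}, x ≠ p → H x = Φ x (D x) := fun hx => by simp only [hH, if_neg hx]
  have hHB : ∀ x ∈ Q, H x ∈ B := by
    intro x hx
    by_cases hxp : x = p
    · rw [hxp, hHp]; exact mem_closedBall_self hr.le
    · rw [hHx hxp]
      have h1 := ((sB hx hxp).1 (-D x)).2 (by simp only [hD]; linarith [hTQ0 hx hxp])
      rwa [neg_neg] at h1
  have hinj : ∀ x ∈ Q, ∀ y ∈ Q, H x = H y → x = y := by
    intro x hx y hy hxy
    by_cases hxp : x = p
    · by_cases hyp : y = p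
      · rw [hxp, hyp]
      · rw [hxp, hHp, hHx hyp] at hxy
        exact absurd hxy.symm (hnp hyp)
    · by_cases hyp : y = p
      · rw [hyp, hHp, hHx hxp] at hxy
        exact absurd hxy (hnp hxp)
      · have hxq : Φ x (D x) ∈ Q := by
          have := hrQ (hHB x hx); rwa [hHx hxp] at this
        have hyq : Φ y (D y) ∈ Q := by
          have := hrQ (hHB y hy); rwa [hHx hyp] at this
        rw [hHx hxp, hHx hyp] at hxy
        have h1 := hDs hx hxp hxq
        have h2 := hDs hy hyp hyq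
        rw [hxy, h2] at h1
        have h3 : Φ (Φ x (D x)) (-D x) = x := by rw [hΦ.add, add_neg_cancel, hΦ.zero]
        have h4 : Φ (Φ y (D y)) (-D y) = y := by rw [hΦ.add, add_neg_cancel, hΦ.zero]
        rw [← h3, ← h4, hxy, h1]
  have hsurj : ∀ z ∈ B, ∃ x ∈ Q, H x = z := by
    intro z hz
    by_cases hzp : z = p
    · exact ⟨p, hp, by rw [hHp, hzp]⟩
    · have hzQ := hrQ hz
      have hzT : 0 ≤ TA Φ B z := by
        apply ((sB hzQ hzp).1 0).1
        rw [neg_zero, hΦ.zero]; exact hz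
      have hxQ : Φ z (-D z) ∈ Q := ((sQ hzQ hzp).1 (D z)).2 (by simp only [hD]; linarith)
      refine ⟨Φ z (-D z), hxQ, ?_⟩
      rw [hHx (hnp hzp), hDs hzQ hzp hxQ, hΦ.add, neg_add_cancel, hΦ.zero]
  -- continuity of the exit times
  have hTc : ∀ {A : Set F}, IsClosed A → (∀ {x}, x ∈ Q → x ≠ p →
      (∀ s, Φ x (-s) ∈ A ↔ s ≤ TA Φ A x) ∧ (∀ s, Φ x (-s) ∈ interior A ↔ s < TA Φ A x)) →
      Continuous (fun x : {x : F // x ∈ Q ∧ x ≠ p} => TA Φ A x) := by
    intro A hA hsp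
    rw [OrderTopology.continuous_iff]
    intro a
    have hc : Continuous fun x : {x : F // x ∈ Q ∧ x ≠ p} => Φ x (-a) :=
      hΦ.cont.comp (continuous_subtype_val.prodMk continuous_const)
    constructor
    · have : (fun x : {x : F // x ∈ Q ∧ x ≠ p} => TA Φ A x) ⁻¹' Ioi a =
          (fun x : {x : F // x ∈ Q ∧ x ≠ p} => Φ x (-a)) ⁻¹' interior A := by
        ext x
        exact ((hsp x.2.1 x.2.2).2 a).symm
      rw [this]
      exact isOpen_interior.preimage hc
    · have : (fun x : {x : F // x ∈ Q ∧ x ≠ p} => TA Φ A x) ⁻¹' Iio a =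
          (fun x : {x : F // x ∈ Q ∧ x ≠ p} => Φ x (-a)) ⁻¹' Aᶜ := by
        ext x
        rw [mem_preimage, mem_Iio, mem_preimage, mem_compl_iff, (hsp x.2.1 x.2.2).1 a, not_le]
      rw [this]
      exact hA.isOpen_compl.preimage hc
  have hDc : Continuous (fun x : {x : F // x ∈ Q ∧ x ≠ p} => D x) :=
    (hTc hQc.isClosed sQ).sub (hTc isClosed_closedBall sB)
  have hHc : ContinuousOn H Q := by
    intro x hx
    by_cases hxp : x = p
    · rw [hxp, ContinuousWithinAt, hHp, tendsto_iff_norm_sub_tendsto_zero]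
      have h1 : Tendsto (fun y : F => ‖y - p‖) (𝓝[Q] p) (𝓝 0) := by
        have : Tendsto (fun y : F => ‖y - p‖) (𝓝 p) (𝓝 ‖p - p‖) :=
          ((continuous_id.sub continuous_const).norm).tendsto p
        rw [sub_self, norm_zero] at this
        exact this.mono_left nhdsWithin_le_nhds
      apply squeeze_zero' (Eventually.of_forall fun _ => norm_nonneg _) _ h1
      filter_upwards [self_mem_nhdsWithin] with y hy
      by_cases hyp : y = p
      · rw [hyp, hHp]
      · rw [hHx hyp]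
        have h2 := hcontr y hy (D y) (hD0 hy hyp)
        have h3 : Real.exp (-κ * D y) ≤ 1 := by
          rw [Real.exp_le_one_iff]
          have := hD0 hy hyp
          nlinarith
        have h4 : 0 ≤ ‖y - p‖ := norm_nonneg _
        nlinarith
    · have h1 : ContinuousOn (fun x => Φ x (D x)) (Q ∩ {p}ᶜ) := by
        rw [continuousOn_iff_continuous_domRestrict]
        have h2 : Continuous (fun x : {x : F // x ∈ Q ∧ x ≠ p} => Φ x (D x)) :=
          hΦ.cont.comp (continuous_subtype_val.prodMk hDc)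
        exact h2
      have h2 : ContinuousWithinAt (fun x => Φ x (D x)) (Q ∩ {p}ᶜ) x := h1 x ⟨hx, hxp⟩
      have hopen : {p}ᶜ ∈ 𝓝 x := isOpen_compl_singleton.mem_nhds hxp
      have h3 : ContinuousWithinAt (fun x => Φ x (D x)) Q x :=
        (continuousWithinAt_inter hopen).1 h2
      apply h3.congr_of_eventuallyEq _ (hHx hxp)
      have : ∀ᶠ y in 𝓝[Q] x, y ∈ ({p}ᶜ : Set F) := nhdsWithin_le_nhds hopen
      filter_upwards [this] with y hy
      exact hHx hy
  let e : Q ≃ B := Equiv.ofBijective (fun x : Q => (⟨H x, hHB x x.2⟩ : B)) ⟨by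
    intro x y hxy
    exact Subtype.ext (hinj x x.2 y y.2 (congrArg Subtype.val hxy)), by
    intro z
    obtain ⟨x, hx, hxz⟩ := hsurj z z.2
    exact ⟨⟨x, hx⟩, Subtype.ext hxz⟩⟩
  have hce : Continuous e := by
    apply Continuous.subtype_mk
    exact continuousOn_iff_continuous_domRestrict.1 hHc
  have : CompactSpace Q := isCompact_iff_compactSpace.1 hQc
  exact ⟨hce.homeoOfEquivCompactToT2⟩

/-- closed balls of finite-dimensional inner product spaces -/
theorem ball_homeo [FiniteDimensional ℝ F] (p : F) {r : ℝ} (hr : 0 < r) :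
    Nonempty (closedBall p r ≃ₜ
      closedBall (0 : EuclideanSpace ℝ (Fin (Module.finrank ℝ F))) 1) := by
  let e1 : F ≃ₜ F := (Homeomorph.subRight p).trans (Homeomorph.smulOfNeZero r⁻¹ (inv_ne_zero hr.ne'))
  let e2 : F ≃ₜ EuclideanSpace ℝ (Fin (Module.finrank ℝ F)) :=
    (stdOrthonormalBasis ℝ F).repr.toHomeomorph
  refine ⟨(e1.trans e2).subtype (fun x => ?_)⟩
  rw [mem_closedBall, dist_eq_norm, mem_closedBall, dist_zero_right]
  have h1 : ‖(e1.trans e2) x‖ = r⁻¹ * ‖x - p‖ := by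
    show ‖(stdOrthonormalBasis ℝ F).repr (r⁻¹ • (x - p))‖ = _
    rw [LinearIsometryEquiv.norm_map, norm_smul, Real.norm_eq_abs, abs_of_pos (inv_pos.2 hr)]
  rw [h1, inv_mul_le_iff₀ hr, mul_one]

end ball

end Pool.Agent.P8H74.BL
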