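import Pool.Agent.P8H74.BL.Dyn
import Pool.Agent.P8H74.BL.Flow

/-! The model theorem: spaces of Lorentzian tensors are balls. -/

set_option autoImplicit false
set_option linter.unusedSectionVars false

namespace Pool.Agent.P8H74.BL

open Finset Function Metric
open scoped NNReal InnerProductSpace Topology

/-- the radial retraction -/
noncomputable def rad {F : Type*} [NormedAddCommGroup F] [NormedSpace ℝ F] (R : ℝ) (x : F) : F :=
  (R / max R ‖x‖) • x

section rad

variable {F : Type*} [NormedAddCommGroup F] [NormedSpace ℝ F] {R : ℝ}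

theorem rad_of_le (hR : 0 < R) {x : F} (hx : ‖x‖ ≤ R) : rad R x = x := by
  unfold rad
  rw [max_eq_left hx, div_self hR.ne', one_smul]

theorem norm_rad_le (hR : 0 < R) (x : F) : ‖rad R x‖ ≤ R := by
  unfold rad
  have h1 : 0 < max R ‖x‖ := lt_max_of_lt_left hR
  rw [norm_smul, Real.norm_eq_abs, abs_of_pos (by positivity), div_mul_eq_mul_div, div_le_iff₀ h1]
  exact mul_le_mul_of_nonneg_left (le_max_right _ _) hR.le

theorem rad_lip (hR : 0 < R) (x y : F) : ‖rad R x - rad R y‖ ≤ 2 * ‖x - y‖ := by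
  unfold rad
  set a := max R ‖x‖ with ha
  set b := max R ‖y‖ with hb
  have ha0 : 0 < a := lt_max_of_lt_left hR
  have hb0 : 0 < b := lt_max_of_lt_left hR
  have haR : R ≤ a := le_max_left _ _
  have hby : ‖y‖ ≤ b := le_max_right _ _
  have hab : |b - a| ≤ ‖x - y‖ := by
    have h1 := abs_max_sub_max_le_max R ‖y‖ R ‖x‖
    rw [sub_self, abs_zero, max_eq_right (abs_nonneg (‖y‖ - ‖x‖))] at h1
    refine h1.trans ?_
    rw [norm_sub_rev]
    exact abs_norm_sub_norm_le y x
  have e : (R / a) • x - (R / b) • y = (R / a) • (x - y) + (R * (b - a) / (a * b)) • y := by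
    have : R * (b - a) / (a * b) = R / a - R / b := by field_simp
    rw [this, smul_sub, sub_smul]; abel
  rw [e]
  refine (norm_add_le _ _).trans ?_
  rw [norm_smul, norm_smul, Real.norm_eq_abs, Real.norm_eq_abs, abs_of_pos (by positivity)]
  have h1 : R / a ≤ 1 := by rw [div_le_one ha0]; exact haR
  have h2 : R / a * ‖x - y‖ ≤ 1 * ‖x - y‖ := mul_le_mul_of_nonneg_right h1 (norm_nonneg _)
  have h3 : |R * (b - a) / (a * b)| * ‖y‖ ≤ ‖x - y‖ := by
    rw [abs_div, abs_mul, abs_of_pos hR, abs_of_pos (by positivity : 0 < a * b), div_mul_eq_mul_div,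
      div_le_iff₀ (by positivity)]
    calc R * |b - a| * ‖y‖ ≤ a * ‖x - y‖ * b := by
          apply mul_le_mul _ hby (norm_nonneg _) (by positivity)
          exact mul_le_mul haR hab (abs_nonneg _) ha0.le
      _ = _ := by ring
  linarith

end rad

variable {J : Type} [Fintype J] [DecidableEq J] {d : ℕ} {o : J} {Sg : Set (J → ℝ)}

/-- the spaces -/
def PP (o : J) (Sg : Set (J → ℝ)) (W : Submodule ℝ (Tn J d)) : Set (Tn J d) :=
  {T | T ∈ W ∧ T (fun _ => o) = 1 ∧ NN Sg T ∧ HR o Sg T}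

/-- the tangent space -/
def F0 (o : J) (W : Submodule ℝ (Tn J d)) : Submodule ℝ (Tn J d) where
  carrier := {T | T ∈ W ∧ T (fun _ => o) = 0}
  add_mem' := fun {a b} ha hb => ⟨W.add_mem ha.1 hb.1, by rw [PiLp.add_apply, ha.2, hb.2, add_zero]⟩
  zero_mem' := ⟨W.zero_mem, rfl⟩
  smul_mem' := fun c x hx => ⟨W.smul_mem c hx.1, by rw [PiLp.smul_apply, hx.2, smul_zero]⟩

theorem mem_F0 {W : Submodule ℝ (Tn J d)} {T : Tn J d} :
    T ∈ F0 o W ↔ T ∈ W ∧ T (fun _ => o) = 0 := Iff.rfl

theorem wt_o : wt o (fun _ : Fin d => o) = 0 := by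
  unfold wt; simp

theorem wt_pos {i : Fin d → J} (h : i ≠ fun _ => o) : 1 ≤ wt o i := by
  unfold wt
  obtain ⟨j, hj⟩ := Function.ne_iff.1 h
  exact card_pos.2 ⟨j, mem_filter.2 ⟨mem_univ _, hj⟩⟩

/-- the point -/
noncomputable def pt (o : J) (d : ℕ) : Tn J d := pw d (e0 o)

theorem pt_o : pt o d (fun _ => o) = 1 := by
  unfold pt
  rw [pw_apply]
  simp [e0]

theorem pt_ne {i : Fin d → J} (h : i ≠ fun _ => o) : pt o d i = 0 := by
  unfold pt
  rw [pw_apply]
  obtain ⟨j, hj⟩ := Function.ne_iff.1 h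
  apply prod_eq_zero (mem_univ j)
  unfold e0
  rw [Pi.single_eq_of_ne hj]

theorem Lt_pt : Lt o (pt o d) = 0 := by
  ext i
  rw [Lt_apply, PiLp.zero_apply]
  by_cases h : i = fun _ => o
  · rw [h, wt_o]; simp
  · rw [pt_ne h, mul_zero]

theorem ev_pt (v : Fin d → J → ℝ) : ev (pt o d) v = ∏ j, v j o := by
  unfold pt
  rw [ev_pw]
  apply prod_congr rfl
  intro j _
  unfold e0
  rw [sum_eq_single o]
  · rw [Pi.single_eq_same, one_mul]
  · intro k _ hk
    rw [Pi.single_eq_of_ne hk, zero_mul]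
  · intro h; exact absurd (mem_univ o) h

/-- the vector field -/
noncomputable def Y (o : J) (Sg : Set (J → ℝ)) (c : ℝ) (G T : Tn J d) : Tn J d :=
  Lt o T - (c * max (mn Sg T) 0) • (G - G (fun _ => o) • T)

theorem Y_apply (c : ℝ) (G T : Tn J d) (i : Fin d → J) : Y o Sg c G T i =
    -(wt o i : ℝ) * T i - c * max (mn Sg T) 0 * (G i - G (fun _ => o) * T i) := by
  unfold Y
  rw [PiLp.sub_apply, PiLp.smul_apply, PiLp.sub_apply, PiLp.smul_apply, Lt_apply, smul_eq_mul,
    smul_eq_mul]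

theorem Lt_mem {W : Submodule ℝ (Tn J d)} (hAt : ∀ T ∈ W, ∀ s : ℝ, At o s T ∈ W) {T : Tn J d}
    (hT : T ∈ W) : Lt o T ∈ W := by
  obtain ⟨c, hc⟩ := exists_Lt o d
  rw [hc]
  exact W.sum_mem fun k _ => W.smul_mem _ (hAt T hT k)

theorem Y_mem {W : Submodule ℝ (Tn J d)} (hAt : ∀ T ∈ W, ∀ s : ℝ, At o s T ∈ W) {c : ℝ} {G T : Tn J d}
    (hG : G ∈ W) (hT : T ∈ W) (h1 : T (fun _ => o) = 1) : Y o Sg c G T ∈ F0 o W := by
  refine ⟨W.sub_mem (Lt_mem hAt hT) (W.smul_mem _ (W.sub_mem hG (W.smul_mem _ hT))), ?_⟩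
  rw [Y_apply, h1, wt_o]
  simp

/-- the derivation is dissipative -/
theorem inner_Lt {T : Tn J d} (h : T (fun _ => o) = 0) : ⟪T, Lt o T⟫_ℝ ≤ -‖T‖ ^ 2 := by
  rw [← real_inner_self_eq_norm_sq, PiLp.inner_apply, PiLp.inner_apply, ← sum_neg_distrib]
  apply sum_le_sum
  intro i _
  rw [Lt_apply]
  show (-(wt o i : ℝ) * T i) * T i ≤ -(T i * T i)
  by_cases hi : i = fun _ => o
  · rw [hi, h]; simp
  · have h1 : (1 : ℝ) ≤ wt o i := by exact_mod_cast wt_pos hi
    nlinarith [mul_self_nonneg (T i)]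

theorem norm_Lt_le (T : Tn J d) : ‖Lt o T‖ ≤ d * ‖T‖ := by
  rw [EuclideanSpace.norm_eq, EuclideanSpace.norm_eq, ← Real.sqrt_sq (Nat.cast_nonneg d (α := ℝ)),
    ← Real.sqrt_mul (sq_nonneg _)]
  apply Real.sqrt_le_sqrt
  rw [mul_sum]
  apply sum_le_sum
  intro i _
  rw [Lt_apply, norm_mul, mul_pow, norm_neg]
  apply mul_le_mul_of_nonneg_right _ (sq_nonneg _)
  rw [Real.norm_natCast]
  exact pow_le_pow_left₀ (Nat.cast_nonneg _) (by exact_mod_cast wt_le o i) 2

theorem Lt_sub (T S : Tn J d) : Lt o (T - S) = Lt o T - Lt o S := by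
  ext i
  rw [Lt_apply, PiLp.sub_apply, PiLp.sub_apply, Lt_apply, Lt_apply]; ring

/-- the nonlinear part -/
noncomputable def Nl (o : J) (Sg : Set (J → ℝ)) (G T : Tn J d) : Tn J d :=
  max (mn Sg T) 0 • (G - G (fun _ => o) • T)

theorem Y_eq (c : ℝ) (G T : Tn J d) : Y o Sg c G T = Lt o T - c • Nl o Sg G T := by
  unfold Y Nl; rw [smul_smul]

theorem Nl_lip (hB : Base o Sg) (G : Tn J d) {R : ℝ} (hR : 0 ≤ R) : ∃ C : ℝ, 0 < C ∧ ∀ T S : Tn J d,
    ‖T‖ ≤ R → ‖S‖ ≤ R → ‖Nl o Sg G T - Nl o Sg G S‖ ≤ C * ‖T - S‖ := by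
  obtain ⟨C1, hC1, hl⟩ := mn_lip (d := d) hB
  set γ := |G (fun _ => o)| with hγ
  refine ⟨C1 * (‖G‖ + γ * R) + (C1 * R) * γ + 1, by positivity, fun T S hT hS => ?_⟩
  have h0 : mn Sg (0 : Tn J d) = 0 := by
    obtain ⟨w, _, he⟩ := mn_att hB (0 : Tn J d)
    rw [he, ev_zero]
  have hm : |max (mn Sg T) 0 - max (mn Sg S) 0| ≤ C1 * ‖T - S‖ := by
    have h1 := abs_max_sub_max_le_max (mn Sg T) 0 (mn Sg S) 0
    rw [sub_self (0 : ℝ), abs_zero, max_eq_left (abs_nonneg (mn Sg T - mn Sg S))] at h1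
    exact h1.trans (hl T S)
  have hmS : |max (mn Sg S) 0| ≤ C1 * R := by
    have h1 := abs_max_sub_max_le_max (mn Sg S) 0 0 0
    rw [sub_self (0 : ℝ), abs_zero, max_self, sub_zero, sub_zero,
      max_eq_left (abs_nonneg (mn Sg S))] at h1
    have h2 := hl S 0
    rw [h0, sub_zero, sub_zero] at h2
    exact h1.trans (h2.trans (mul_le_mul_of_nonneg_left hS hC1.le))
  have hA : ‖G - G (fun _ => o) • T‖ ≤ ‖G‖ + γ * R := by
    refine (norm_sub_le _ _).trans ?_
    rw [norm_smul, Real.norm_eq_abs]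
    have := mul_le_mul_of_nonneg_left hT (abs_nonneg (G (fun _ => o)))
    linarith
  have e : Nl o Sg G T - Nl o Sg G S =
      (max (mn Sg T) 0 - max (mn Sg S) 0) • (G - G (fun _ => o) • T) -
      (max (mn Sg S) 0) • (G (fun _ => o) • (T - S)) := by
    unfold Nl
    rw [sub_smul, smul_sub (G (fun _ => o)) T S]
    have : G - G (fun _ => o) • S = (G - G (fun _ => o) • T) + (G (fun _ => o) • T -
      G (fun _ => o) • S) := by abel
    rw [this, smul_add]
    abel
  rw [e]
  refine (norm_sub_le _ _).trans ?_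
  rw [norm_smul, norm_smul, norm_smul, Real.norm_eq_abs, Real.norm_eq_abs, Real.norm_eq_abs]
  have h1 : |max (mn Sg T) 0 - max (mn Sg S) 0| * ‖G - G (fun _ => o) • T‖ ≤
      (C1 * ‖T - S‖) * (‖G‖ + γ * R) := mul_le_mul hm hA (norm_nonneg _) (by positivity)
  have h2 : |max (mn Sg S) 0| * (|G (fun _ => o)| * ‖T - S‖) ≤ (C1 * R) * (γ * ‖T - S‖) :=
    mul_le_mul hmS le_rfl (by positivity) (by positivity)
  have h3 := norm_nonneg (T - S)
  linarith

/-- the correction -/
theorem exists_G (hB : Base o Sg) {W : Submodule ℝ (Tn J d)} (hpw : ∀ l : J → ℝ, pw d l ∈ W) :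
    ∃ G ∈ W, 0 ≤ G (fun _ => o) ∧ PD Sg G := by
  obtain ⟨R, hR1, hR⟩ := hB.bdd
  set η : ℝ := 1 / (2 * R) with hη
  have hη0 : 0 < η := by positivity
  set lm : J → J → ℝ := fun l k => (if k = o then 1 else 0) + η * (if k = l then 1 else 0) with hlm
  have hval : ∀ l (x : J → ℝ), ∑ k, lm l k * x k = x o + η * x l := by
    intro l x
    simp only [hlm, add_mul, sum_add_distrib]
    congr 1
    · simp
    · simp [mul_comm]
  have hpos : ∀ l, ∀ x ∈ Sg, 0 < x o + η * x l := by
    intro l x hx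
    rw [hB.one x hx]
    have h1 := (abs_le.1 (hR x hx l)).1
    have h2 : η * x l ≥ -(1 / 2) := by
      have : η * (-R) = -(1 / 2) := by rw [hη]; field_simp
      have h3 := mul_le_mul_of_nonneg_left h1 hη0.le
      linarith
    linarith
  have hev : ∀ v : Fin d → J → ℝ, ev (∑ l, pw d (lm l)) v = ∑ l, ∏ j, (v j o + η * v j l) := by
    intro v
    have h1 : ∀ s : Finset J, ev (∑ l ∈ s, pw d (lm l)) v = ∑ l ∈ s, ev (pw d (lm l)) v := by
      intro s
      classical
      induction s using Finset.induction_on with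
      | empty => rw [sum_empty, sum_empty, ev_zero]
      | insert a s ha ih => rw [sum_insert ha, sum_insert ha, ev_add, ih]
    rw [h1]
    apply sum_congr rfl
    intro l _
    rw [ev_pw]
    apply prod_congr rfl
    intro j _
    exact hval l (v j)
  refine ⟨∑ l, pw d (lm l), W.sum_mem fun l _ => hpw _, ?_, ?_⟩
  · rw [← ev_e0, hev]
    apply sum_nonneg
    intro l _
    apply prod_nonneg
    intro j _
    exact (hpos l _ hB.mem_e0).le
  · intro w hw a b hab y hy
    unfold Bf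
    rw [hev]
    have hterm : ∀ l, ∏ j, (update (update w a y) b y j o + η * update (update w a y) b y j l) =
        (y o + η * y l) * ((y o + η * y l) *
          ∏ j ∈ (univ \ {b}) \ {a}, (w j o + η * w j l)) := by
      intro l
      have e1 : (fun j => update (update w a y) b y j o + η * update (update w a y) b y j l) =
          update (update (fun j => w j o + η * w j l) a (y o + η * y l)) b (y o + η * y l) := by
        funext j
        by_cases hj : j = b
        · subst hj; simp only [update_self]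
        · rw [update_of_ne hj, update_of_ne hj]
          by_cases hj' : j = a
          · subst hj'; simp only [update_self]
          · rw [update_of_ne hj', update_of_ne hj']
      rw [e1, prod_update_of_mem (mem_univ b), prod_update_of_mem (by simp [hab])]
    simp only [hterm]
    have hnn : ∀ l, 0 < ∏ j ∈ (univ \ {b}) \ {a}, (w j o + η * w j l) := fun l =>
      prod_pos fun j _ => hpos l _ (hw j)
    have hsq : ∀ l, (y o + η * y l) * ((y o + η * y l) *
          ∏ j ∈ (univ \ {b}) \ {a}, (w j o + η * w j l)) = (y o + η * y l) ^ 2 *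
          ∏ j ∈ (univ \ {b}) \ {a}, (w j o + η * w j l) := fun l => by ring
    simp only [hsq]
    obtain ⟨l, hl⟩ : ∃ l, y o + η * y l ≠ 0 := by
      by_contra hcon
      push Not at hcon
      have h1 : y o = 0 := by
        have h2 := hcon o
        have : (1 + η) * y o = 0 := by linarith
        rcases mul_eq_zero.1 this with h3 | h3
        · linarith
        · exact h3
      apply hy
      funext l
      have h2 := hcon l
      rw [h1, zero_add] at h2
      rcases mul_eq_zero.1 h2 with h3 | h3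
      · exact absurd h3 hη0.ne'
      · exact h3
    apply sum_pos' (fun l _ => mul_nonneg (sq_nonneg _) (hnn l).le)
    exact ⟨l, mem_univ _, mul_pos (by positivity) (hnn l)⟩

theorem Bf_cont (a b : Fin d) : Continuous fun q : Tn J d × ((Fin d → J → ℝ) × (J → ℝ) × (J → ℝ)) =>
    Bf q.1 q.2.1 a b q.2.2.1 q.2.2.2 := by
  unfold Bf
  have h1 : Continuous fun q : Tn J d × ((Fin d → J → ℝ) × (J → ℝ) × (J → ℝ)) =>
      update (update q.2.1 a q.2.2.1) b q.2.2.2 := by
    apply Continuous.update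
    · apply Continuous.update
      · exact continuous_fst.comp continuous_snd
      · exact (continuous_fst.comp continuous_snd).comp continuous_snd
    · exact (continuous_snd.comp continuous_snd).comp continuous_snd
  have h2 : Continuous fun q : Tn J d × ((Fin d → J → ℝ) × (J → ℝ) × (J → ℝ)) =>
      (q.1, update (update q.2.1 a q.2.2.1) b q.2.2.2) := continuous_fst.prodMk h1
  exact ev_cont.comp h2

theorem disc_cont (a b : Fin d) : Continuous fun q : Tn J d × ((Fin d → J → ℝ) × (J → ℝ)) =>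
    disc o q.1 q.2.1 a b q.2.2 := by
  unfold disc
  have h : ∀ (g h : (Tn J d × ((Fin d → J → ℝ) × (J → ℝ))) → J → ℝ), Continuous g → Continuous h →
      Continuous fun q : Tn J d × ((Fin d → J → ℝ) × (J → ℝ)) => Bf q.1 q.2.1 a b (g q) (h q) := by
    intro g h hg hh
    exact (Bf_cont a b).comp (continuous_fst.prodMk
      ((continuous_fst.comp continuous_snd).prodMk (hg.prodMk hh)))
  have hx : Continuous fun q : Tn J d × ((Fin d → J → ℝ) × (J → ℝ)) => q.2.2 :=
    continuous_snd.comp continuous_snd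
  have he : Continuous fun _ : Tn J d × ((Fin d → J → ℝ) × (J → ℝ)) => e0 o := continuous_const
  exact ((h _ _ hx he).pow 2).sub ((h _ _ hx hx).mul (h _ _ he he))

theorem isClosed_NN : IsClosed {T : Tn J d | NN Sg T} := by
  have e1 : {T : Tn J d | NN Sg T} =
      ⋂ (w : Fin d → J → ℝ) (_ : ∀ j, w j ∈ Sg), {T : Tn J d | 0 ≤ ev T w} := by
    ext h
    simp only [Set.mem_iInter, Set.mem_ofPred_eq]
    rfl
  rw [e1]
  apply isClosed_iInter; intro w
  apply isClosed_iInter; intro _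
  have h1 : Continuous fun T : Tn J d => ev T w :=
    ev_cont.comp (continuous_id.prodMk continuous_const)
  exact isClosed_le continuous_const h1

theorem disc_cont' (w : Fin d → J → ℝ) (a b : Fin d) (x : J → ℝ) : Continuous fun T : Tn J d =>
    disc o T w a b x := by
  unfold disc Bf
  have h : ∀ v : Fin d → J → ℝ, Continuous fun T : Tn J d => ev T v := fun v =>
    ev_cont.comp (continuous_id.prodMk continuous_const)
  exact ((h _).pow 2).sub ((h _).mul (h _))

theorem isClosed_HR : IsClosed {T : Tn J d | HR o Sg T} := by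
  have e1 : {T : Tn J d | HR o Sg T} =
      ⋂ (q : {q : (Fin d → J → ℝ) × (Fin d) × (Fin d) × (J → ℝ) // (∀ j, q.1 j ∈ Sg) ∧
        q.2.1 ≠ q.2.2.1 ∧ q.2.2.2 o = 0}),
        {T : Tn J d | 0 ≤ disc o T q.1.1 q.1.2.1 q.1.2.2.1 q.1.2.2.2} := by
    ext T
    rw [Set.mem_iInter]
    exact ⟨fun H q => H q.1.1 q.2.1 q.1.2.1 q.1.2.2.1 q.2.2.1 q.1.2.2.2 q.2.2.2,
      fun H w hw a b hab x hx => H ⟨(w, a, b, x), hw, hab, hx⟩⟩
  rw [e1]
  exact isClosed_iInter fun q => isClosed_le continuous_const (disc_cont' _ _ _ _)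

/-- an open condition -/
theorem open_cond (hB : Base o Sg) {T : Tn J d} (hm : 0 < mn Sg T)
    (hd : ∀ w : Fin d → J → ℝ, (∀ j, w j ∈ Sg) → ∀ a b : Fin d, a ≠ b → ∀ x : J → ℝ, x o = 0 → x ≠ 0 →
      0 < disc o T w a b x) : ∀ᶠ S in 𝓝 T, NN Sg S ∧ HR o Sg S := by
  have h1 : ∀ᶠ S in 𝓝 T, 0 < mn Sg S :=
    (mn_cont hB).continuousAt.eventually (isOpen_Ioi.mem_nhds hm)
  set C : Set ((Fin d → J → ℝ) × (J → ℝ)) := SS Sg d ×ˢ {x : J → ℝ | ‖x‖ = 1 ∧ x o = 0} with hC
  have hCc : IsCompact C := by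
    apply (SS_cpt hB).prod
    have e : {x : J → ℝ | ‖x‖ = 1 ∧ x o = 0} = sphere (0 : J → ℝ) 1 ∩ {x | x o = 0} := by
      ext x; simp
    rw [e]
    exact (isCompact_sphere _ _).inter_right (isClosed_eq (continuous_apply o) continuous_const)
  have h2 : ∀ a b : Fin d, a ≠ b → ∀ᶠ S in 𝓝 T, ∀ q ∈ C, 0 < disc o S q.1 a b q.2 := by
    intro a b hab
    apply hCc.eventually_forall_of_forall_eventually
    rintro ⟨w, x⟩ ⟨hw, hx1, hxo⟩
    have hx0 : x ≠ 0 := by
      rintro rfl; simp at hx1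
    have hpos : 0 < disc o T w a b x := hd w hw a b hab x hxo hx0
    exact (disc_cont (o := o) a b).continuousAt.eventually (isOpen_Ioi.mem_nhds hpos)
  have h3 : ∀ᶠ S in 𝓝 T, ∀ a b : Fin d, a ≠ b → ∀ q ∈ C, 0 < disc o S q.1 a b q.2 := by
    rw [Filter.eventually_all]
    intro a
    rw [Filter.eventually_all]
    intro b
    by_cases hab : a = b
    · exact Filter.Eventually.of_forall fun S h => absurd hab h
    · filter_upwards [h2 a b hab] with S hS _
      exact hS
  filter_upwards [h1, h3] with S hS1 hS3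
  refine ⟨fun w hw => hS1.le.trans (mn_le hB S hw), fun w hw a b hab x hxo => ?_⟩
  by_cases hx : x = 0
  · rw [hx]
    have := disc_smul (o := o) (T := S) w hab (0 : J → ℝ) 0
    rw [zero_smul] at this
    rw [this]; simp
  · have hn : 0 < ‖x‖ := norm_pos_iff.2 hx
    have e : x = ‖x‖ • (‖x‖⁻¹ • x) := by
      rw [smul_smul, mul_inv_cancel₀ hn.ne', one_smul]
    rw [e, disc_smul w hab]
    apply mul_nonneg (sq_nonneg _)
    apply (hS3 a b hab (w, ‖x‖⁻¹ • x) ⟨hw, ?_, ?_⟩).le
    · rw [norm_smul, norm_inv, norm_norm, inv_mul_cancel₀ hn.ne']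
    · show ‖x‖⁻¹ * x o = 0
      rw [hxo, mul_zero]

set_option maxHeartbeats 1000000 in
/-- **The model theorem.** -/
theorem model (hB : Base o Sg) (W : Submodule ℝ (Tn J d)) (hsym : ∀ T ∈ W, Sym T)
    (hAt : ∀ T ∈ W, ∀ s : ℝ, At o s T ∈ W) (hpw : ∀ l : J → ℝ, pw d l ∈ W) :
    ∃ N : ℕ, Nonempty (PP o Sg W ≃ₜ closedBall (0 : EuclideanSpace ℝ (Fin N)) 1) := by
  classical
  obtain ⟨G, hGW, hG0, hPD⟩ := exists_G hB hpw
  have hptW : pt o d ∈ W := hpw _
  obtain ⟨C0, hC0, hbd⟩ := bound_NN (d := d) hB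
  set R0 : ℝ := C0 + ‖pt o d‖ with hR0
  have hR00 : 0 < R0 := by positivity
  set R : ℝ := R0 + 1 with hR
  have hRpos : 0 < R := by positivity
  obtain ⟨CN, hCN, hNl⟩ := Nl_lip hB G (R := R + ‖pt o d‖) (by positivity)
  set c : ℝ := 1 / (2 * CN) with hc
  have hc0 : 0 < c := by positivity
  -- the vector field on the tangent space
  let F := F0 o W
  have hmem : ∀ h : F, pt o d + (h : Tn J d) ∈ W := fun h => W.add_mem hptW h.2.1
  have hone : ∀ h : F, (pt o d + (h : Tn J d)) (fun _ => o) = 1 := by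
    intro h
    rw [PiLp.add_apply, pt_o, h.2.2, add_zero]
  let X : F → F := fun h => ⟨Y o Sg c G (pt o d + h), Y_mem hAt hGW (hmem h) (hone h)⟩
  have hXsub : ∀ h h' : F, ((X h - X h' : F) : Tn J d) = Lt o ((h : Tn J d) - (h' : Tn J d)) -
      c • (Nl o Sg G (pt o d + h) - Nl o Sg G (pt o d + h')) := by
    intro h h'
    show Y o Sg c G (pt o d + h) - Y o Sg c G (pt o d + h') = _
    rw [Y_eq, Y_eq]
    have e : (h : Tn J d) - h' = (pt o d + h) - (pt o d + h') := by abel
    rw [e, Lt_sub, smul_sub]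
    abel
  have hNb : ∀ h h' : F, ‖h‖ ≤ R → ‖h'‖ ≤ R →
      ‖Nl o Sg G (pt o d + h) - Nl o Sg G (pt o d + h')‖ ≤ CN * ‖h - h'‖ := by
    intro h h' hh hh'
    have h1 : ∀ k : F, ‖k‖ ≤ R → ‖pt o d + (k : Tn J d)‖ ≤ R + ‖pt o d‖ := by
      intro k hk
      refine (norm_add_le _ _).trans ?_
      have : ‖(k : Tn J d)‖ = ‖k‖ := rfl
      linarith
    have h2 := hNl _ _ (h1 h hh) (h1 h' hh')
    have e : (pt o d + (h : Tn J d)) - (pt o d + h') = ((h - h' : F) : Tn J d) := by
      show _ = (h : Tn J d) - h'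
      abel
    rw [e] at h2
    exact h2
  have hXlip : ∀ h h' : F, ‖h‖ ≤ R → ‖h'‖ ≤ R → ‖X h - X h'‖ ≤ (d + 1) * ‖h - h'‖ := by
    intro h h' hh hh'
    have h1 : ‖X h - X h'‖ = ‖((X h - X h' : F) : Tn J d)‖ := rfl
    rw [h1, hXsub]
    refine (norm_sub_le _ _).trans ?_
    rw [norm_smul, Real.norm_eq_abs, abs_of_pos hc0]
    have h2 : ‖Lt o ((h : Tn J d) - (h' : Tn J d))‖ ≤ d * ‖h - h'‖ := norm_Lt_le _
    have h3 := mul_le_mul_of_nonneg_left (hNb h h' hh hh') hc0.le
    have h4 : c * (CN * ‖h - h'‖) = ‖h - h'‖ / 2 := by rw [hc]; field_simp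
    have h5 := norm_nonneg (h - h')
    linarith
  have hdiss : ∀ h h' : F, ‖h‖ ≤ R → ‖h'‖ ≤ R →
      ⟪h - h', X h - X h'⟫_ℝ ≤ -(1 / 2) * ‖h - h'‖ ^ 2 := by
    intro h h' hh hh'
    have h1 : ⟪h - h', X h - X h'⟫_ℝ = ⟪(h : Tn J d) - (h' : Tn J d), ((X h - X h' : F) : Tn J d)⟫_ℝ := rfl
    rw [h1, hXsub, inner_sub_right]
    have h2 : ⟪(h : Tn J d) - (h' : Tn J d), Lt o ((h : Tn J d) - (h' : Tn J d))⟫_ℝ ≤ -‖h - h'‖ ^ 2 := by
      have h3 : ((h : Tn J d) - (h' : Tn J d)) (fun _ => o) = 0 := by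
        rw [PiLp.sub_apply, h.2.2, h'.2.2, sub_zero]
      exact inner_Lt h3
    have h3 : -⟪(h : Tn J d) - (h' : Tn J d), c • (Nl o Sg G (pt o d + h) - Nl o Sg G (pt o d + h'))⟫_ℝ ≤
        ‖h - h'‖ ^ 2 / 2 := by
      have h4 := neg_le_of_abs_le (abs_real_inner_le_norm ((h : Tn J d) - (h' : Tn J d))
        (c • (Nl o Sg G (pt o d + h) - Nl o Sg G (pt o d + h'))))
      have h5 : ‖(h : Tn J d) - (h' : Tn J d)‖ * ‖c • (Nl o Sg G (pt o d + h) - Nl o Sg G (pt o d + h'))‖ ≤
          ‖h - h'‖ ^ 2 / 2 := by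
        rw [norm_smul, Real.norm_eq_abs, abs_of_pos hc0]
        have h6 := mul_le_mul_of_nonneg_left (hNb h h' hh hh') hc0.le
        have h7 : c * (CN * ‖h - h'‖) = ‖h - h'‖ / 2 := by rw [hc]; field_simp
        have h8 : ‖(h : Tn J d) - (h' : Tn J d)‖ = ‖h - h'‖ := rfl
        rw [h8]
        calc ‖h - h'‖ * (c * ‖Nl o Sg G (pt o d + h) - Nl o Sg G (pt o d + h')‖)
            ≤ ‖h - h'‖ * (‖h - h'‖ / 2) := by
              apply mul_le_mul_of_nonneg_left _ (norm_nonneg _)
              linarith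
          _ = _ := by ring
      linarith
    linarith
  -- the cut off field
  let X' : F → F := fun h => X (rad R h)
  have hX'lip : LipschitzWith (Real.toNNReal (2 * (d + 1))) X' := by
    apply LipschitzWith.of_dist_le_mul
    intro h h'
    rw [dist_eq_norm, dist_eq_norm, Real.coe_toNNReal _ (by positivity)]
    refine (hXlip _ _ (norm_rad_le hRpos h) (norm_rad_le hRpos h')).trans ?_
    have := rad_lip hRpos h h'
    calc ((d : ℝ) + 1) * ‖rad R h - rad R h'‖ ≤ (d + 1) * (2 * ‖h - h'‖) :=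
          mul_le_mul_of_nonneg_left this (by positivity)
      _ = _ := by ring
  set Lb : ℝ := ‖X 0‖ + (d + 1) * R with hLb
  have hLb0 : 0 < Lb := by positivity
  have hX'b : ∀ h, ‖X' h‖ ≤ Real.toNNReal Lb := by
    intro h
    rw [Real.coe_toNNReal _ hLb0.le]
    have h1 := hXlip (rad R h) 0 (norm_rad_le hRpos h) (by rw [norm_zero]; exact hRpos.le)
    rw [sub_zero] at h1
    have h2 : ‖X (rad R h)‖ ≤ ‖X (rad R h) - X 0‖ + ‖X 0‖ := by
      have := norm_add_le (X (rad R h) - X 0) (X 0)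
      rwa [sub_add_cancel] at this
    have h3 : ((d : ℝ) + 1) * ‖rad R h‖ ≤ (d + 1) * R :=
      mul_le_mul_of_nonneg_left (norm_rad_le hRpos h) (by positivity)
    show ‖X (rad R h)‖ ≤ Lb
    linarith
  obtain ⟨Φ, hΦ⟩ := exists_isFlow X' _ _ hX'lip hX'b
  -- the set
  set Q : Set F := {h | pt o d + (h : Tn J d) ∈ PP o Sg W} with hQ
  have hQR : ∀ h ∈ Q, ‖h‖ ≤ R0 := by
    intro h hh
    have h1 := hbd _ hh.2.2.1 hh.2.1
    have h2 : ‖(h : Tn J d)‖ ≤ ‖pt o d + (h : Tn J d)‖ + ‖pt o d‖ := by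
      have := norm_sub_le (pt o d + (h : Tn J d)) (pt o d)
      rwa [add_sub_cancel_left] at this
    have h3 : ‖(h : Tn J d)‖ = ‖h‖ := rfl
    linarith
  have hQcl : IsClosed Q := by
    have hcp : Continuous fun h : F => pt o d + (h : Tn J d) :=
      continuous_const.add continuous_subtype_val
    have e : Q = {h : F | NN Sg (pt o d + (h : Tn J d))} ∩
        {h : F | HR o Sg (pt o d + (h : Tn J d))} := by
      ext h
      constructor
      · intro hh; exact ⟨hh.2.2.1, hh.2.2.2⟩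
      · intro hh; exact ⟨hmem h, hone h, hh.1, hh.2⟩
    rw [e]
    exact (isClosed_NN.preimage hcp).inter (isClosed_HR.preimage hcp)
  have hQc : IsCompact Q := by
    apply Metric.isCompact_of_isClosed_isBounded hQcl
    rw [isBounded_iff_forall_norm_le]
    exact ⟨R0, hQR⟩
  have hQne : Q.Nonempty := by
    refine ⟨0, hmem 0, hone 0, ?_, ?_⟩
    · intro w hw
      have : pt o d + ((0 : F) : Tn J d) = pt o d := by
        rw [Submodule.coe_zero, add_zero]
      rw [this, ev_pt]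
      apply prod_nonneg
      intro j _
      rw [hB.one _ (hw j)]; exact zero_le_one
    · intro w hw a b hab x hxo
      have : pt o d + ((0 : F) : Tn J d) = pt o d := by
        rw [Submodule.coe_zero, add_zero]
      rw [this]
      unfold disc Bf
      have h1 : ev (pt o d) (update (update w a x) b x) = 0 := by
        rw [ev_pt]
        apply prod_eq_zero (mem_univ b)
        rw [update_self]; exact hxo
      rw [h1, zero_mul, sub_zero]
      exact sq_nonneg _
  -- local invariance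
  set t1 : ℝ := 1 / (Lb + 1) with ht1
  have ht10 : 0 < t1 := by positivity
  have hloc : ∀ h ∈ Q, ∀ t, 0 < t → t ≤ t1 → Φ h t ∈ interior Q := by
    intro h hh t ht htt
    have hin : ∀ τ ∈ Set.Icc 0 t1, ‖Φ h τ‖ ≤ R := by
      intro τ hτ
      have h2 := Convex.norm_image_sub_le_of_norm_hasDerivWithin_le (f := Φ h)
        (f' := fun u => X' (Φ h u)) (s := Set.univ) (C := Lb) (x := 0) (y := τ)
        (fun u _ => (hΦ.der h u).hasDerivWithinAt) (fun u _ => by
          have := hX'b (Φ h u)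
          rwa [Real.coe_toNNReal _ hLb0.le] at this) convex_univ trivial trivial
      rw [hΦ.zero, sub_zero, Real.norm_eq_abs, abs_of_nonneg hτ.1] at h2
      have h3 : Lb * τ ≤ 1 := by
        calc Lb * τ ≤ Lb * t1 := mul_le_mul_of_nonneg_left hτ.2 hLb0.le
          _ ≤ 1 := by rw [ht1, mul_one_div, div_le_one (by positivity)]; linarith
      have h4 := norm_add_le (Φ h τ - h) h
      rw [sub_add_cancel] at h4
      have h5 := hQR h hh
      linarith
    set f : ℝ → Tn J d := fun τ => pt o d + (Φ h τ : Tn J d) with hf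
    have hfc : Continuous f :=
      continuous_const.add (continuous_subtype_val.comp (hΦ.cont.comp
        (continuous_const.prodMk continuous_id)))
    have hsol : Sol o Sg c G t1 f := by
      refine ⟨hfc, fun τ hτ i => ?_⟩
      have h1 := hΦ.der h τ
      have h2 : X' (Φ h τ) = X (Φ h τ) := by
        show X (rad R (Φ h τ)) = _
        rw [rad_of_le hRpos (hin τ hτ)]
      rw [h2] at h1
      have h3 := ((EuclideanSpace.proj i : Tn J d →L[ℝ] ℝ) ∘L
        F.subtypeL).hasFDerivAt.comp_hasDerivAt τ h1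
      have h4 : HasDerivAt (fun τ => ((Φ h τ : F) : Tn J d) i)
          (Y o Sg c G (pt o d + (Φ h τ : Tn J d)) i) τ := h3
      have h5 : HasDerivAt (fun τ => pt o d i + ((Φ h τ : F) : Tn J d) i)
          (Y o Sg c G (pt o d + (Φ h τ : Tn J d)) i) τ := h4.const_add _
      rw [Y_apply] at h5
      exact h5
    have h00 : f 0 = pt o d + (h : Tn J d) := by
      simp only [hf, hΦ.zero]
    have hP0 : f 0 ∈ PP o Sg W := by rw [h00]; exact hh
    have hmt : 0 < mn Sg (f t) := pos_all hB hsol hc0.le hG0 hP0.2.2.1 hP0.2.1 ht htt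
    have hdt : ∀ w : Fin d → J → ℝ, (∀ j, w j ∈ Sg) → ∀ a b : Fin d, a ≠ b → ∀ x : J → ℝ,
        x o = 0 → x ≠ 0 → 0 < disc o (f t) w a b x := by
      intro w hw a b hab x hxo hx
      exact disc_pos hB hsol hc0 hG0 hPD hP0.2.2.1 hP0.2.1 (hsym _ hP0.1) hP0.2.2.2 ht htt
        (hsym _ (hmem _)) hw hab hxo hx
    rw [mem_interior_iff_mem_nhds]
    have h1 := open_cond hB hmt hdt
    have hcp : Continuous fun h : F => pt o d + (h : Tn J d) :=
      continuous_const.add continuous_subtype_val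
    have h2 := (hcp.continuousAt (x := Φ h t)).eventually h1
    filter_upwards [h2] with k hk
    exact ⟨hmem k, hone k, hk.1, hk.2⟩
  have hint : ∀ h ∈ Q, ∀ t, 0 < t → Φ h t ∈ interior Q := by
    intro h hh t ht
    obtain ⟨n, hn⟩ := exists_nat_gt (t / t1)
    have hn0 : (0 : ℝ) < n := lt_of_le_of_lt (by positivity) hn
    set t' := t / n with ht'
    have ht'0 : 0 < t' := by positivity
    have ht'1 : t' ≤ t1 := by
      rw [ht', div_le_iff₀ hn0]
      rw [div_lt_iff₀ ht10] at hn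
      linarith
    have hk : ∀ k : ℕ, Φ h ((k + 1 : ℕ) * t') ∈ interior Q := by
      intro k
      induction k with
      | zero =>
        rw [zero_add, Nat.cast_one, one_mul]
        exact hloc h hh t' ht'0 ht'1
      | succ k ih =>
        have e : ((k + 1 + 1 : ℕ) : ℝ) * t' = (k + 1 : ℕ) * t' + t' := by push_cast; ring
        rw [e, ← hΦ.add]
        exact hloc _ (interior_subset ih) t' ht'0 ht'1
    have h1 : 1 ≤ n := by
      have : 0 < n := by exact_mod_cast hn0
      omega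
    have h2 := hk (n - 1)
    rw [Nat.sub_add_cancel h1] at h2
    have e : (n : ℝ) * t' = t := by rw [ht']; field_simp
    rwa [e] at h2
  have hcon : ∀ x ∈ Q, ∀ y ∈ Q, ⟪x - y, X' x - X' y⟫_ℝ ≤ -(1 / 2) * ‖x - y‖ ^ 2 := by
    intro x hx y hy
    have hx' : ‖x‖ ≤ R := (hQR x hx).trans (by rw [hR]; linarith)
    have hy' : ‖y‖ ≤ R := (hQR y hy).trans (by rw [hR]; linarith)
    show ⟪x - y, X (rad R x) - X (rad R y)⟫_ℝ ≤ _
    rw [rad_of_le hRpos hx', rad_of_le hRpos hy']
    exact hdiss x y hx' hy'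
  obtain ⟨p, r, hr, ⟨e1⟩⟩ := ball_of_flow hΦ hQc hQne (by norm_num : (0 : ℝ) < 1 / 2) hint hcon
  obtain ⟨e2⟩ := ball_homeo p hr
  -- translation
  let e0' : PP o Sg W ≃ₜ Q :=
    { toFun := fun T => ⟨⟨(T : Tn J d) - pt o d, W.sub_mem T.2.1 hptW, by
        rw [PiLp.sub_apply, pt_o, T.2.2.1, sub_self]⟩, by
        show pt o d + ((T : Tn J d) - pt o d) ∈ PP o Sg W
        rw [add_sub_cancel]; exact T.2⟩
      invFun := fun h => ⟨pt o d + ((h : F) : Tn J d), h.2⟩
      left_inv := fun T => Subtype.ext (add_sub_cancel _ _)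
      right_inv := fun h => Subtype.ext (Subtype.ext (add_sub_cancel_left _ _))
      continuous_toFun := by
        apply Continuous.subtype_mk
        apply Continuous.subtype_mk
        exact continuous_subtype_val.sub continuous_const
      continuous_invFun := by
        apply Continuous.subtype_mk
        exact continuous_const.add (continuous_subtype_val.comp continuous_subtype_val) }
  exact ⟨_, ⟨(e0'.trans e1).trans e2⟩⟩

end Pool.Agent.P8H74.BL
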