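import Pool.Agent.P8H74.BL.Psi
import Pool.Agent.P8H74.BL.Model
import Pool.Agent.P8H74.BL.Eig

/-! `K`-Lorentzian polynomials. -/

set_option autoImplicit false
set_option linter.unusedSectionVars false

namespace Pool.Agent.P8H74.BL

open Finset Function MvPolynomial Matrix
open scoped Topology

variable {n : ℕ}

/-- The bilinear form `(x, y) ↦ D_x D_y D_{v_3} ⋯ D_{v_d} f`, `l` the list of the `v_j`. -/
noncomputable def Bm (l : List (Fin n → ℝ)) (f : MvPolynomial (Fin n) ℝ) (x y : Fin n → ℝ) : ℝ :=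
  constantCoeff (D x (D y (DL l f)))

/-- Its matrix. -/
noncomputable def Hm (l : List (Fin n → ℝ)) (f : MvPolynomial (Fin n) ℝ) :
    Matrix (Fin n) (Fin n) ℝ :=
  Matrix.of fun i j => Bm l f (Pi.single i 1) (Pi.single j 1)

/-- `f` is `K`-Lorentzian of degree `d`. -/
def IsKL (K : Set (Fin n → ℝ)) (d : ℕ) (f : MvPolynomial (Fin n) ℝ) : Prop :=
  (d = 0 ∧ ∃ c : ℝ, 0 ≤ c ∧ f = C c) ∨
  (1 ≤ d ∧ f.IsHomogeneous d ∧
    (∀ v : Fin d → Fin n → ℝ, (∀ j, v j ∈ K) → 0 < constantCoeff (DL (List.ofFn v) f)) ∧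
    (∀ m : ℕ, m + 2 = d → ∀ v : Fin m → Fin n → ℝ, (∀ j, v j ∈ K) →
      ∃ h : (Hm (List.ofFn v) f).IsHermitian, (univ.filter fun i => 0 < h.eigenvalues i).card = 1))

/-- The space of normalised `K`-Lorentzian polynomials, as coefficient functions. -/
def PL (K : Set (Fin n → ℝ)) (d : ℕ) (v : Fin n → ℝ) : Set ((Fin n →₀ ℕ) → ℝ) :=
  {c | ∃ f : MvPolynomial (Fin n) ℝ, IsKL K d f ∧ MvPolynomial.eval v f = 1 ∧ ∀ m, c m = coeff m f}

theorem Hm_bil (l : List (Fin n → ℝ)) (f : MvPolynomial (Fin n) ℝ) (x y : Fin n → ℝ) :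
    x ⬝ᵥ (Hm l f *ᵥ y) = Bm l f x y := by
  have h1 : ∀ (x : Fin n → ℝ) (g : MvPolynomial (Fin n) ℝ), constantCoeff (D x g) =
      ∑ i, x i * constantCoeff (pderiv i g) := by
    intro x g
    unfold D
    rw [map_sum]
    apply sum_congr rfl
    intro i _
    rw [smul_eq_C_mul, map_mul, constantCoeff_C]
  unfold Bm
  rw [h1]
  unfold dotProduct
  apply sum_congr rfl
  intro i _
  congr 1
  have h2 : pderiv i (D y (DL l f)) = ∑ j, y j • pderiv i (pderiv j (DL l f)) := by
    unfold D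
    rw [map_sum]
    apply sum_congr rfl
    intro j _
    rw [Derivation.map_smul]
  rw [h2, map_sum]
  unfold mulVec dotProduct
  apply sum_congr rfl
  intro j _
  have h3 : Hm l f i j = constantCoeff (pderiv i (pderiv j (DL l f))) := by
    show constantCoeff (D (Pi.single i 1) (D (Pi.single j 1) (DL l f))) = _
    rw [D_single, D_single]
  show Hm l f i j * y j = _
  rw [h3, smul_eq_C_mul, map_mul, constantCoeff_C, mul_comm]

theorem Hm_herm (l : List (Fin n → ℝ)) (f : MvPolynomial (Fin n) ℝ) : (Hm l f).IsHermitian := by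
  ext i j
  rw [conjTranspose_apply, star_trivial]
  unfold Hm Bm
  rw [Matrix.of_apply, Matrix.of_apply, D_comm]

theorem Bm_eq {m : ℕ} (v : Fin m → Fin n → ℝ) (f : MvPolynomial (Fin n) ℝ) (x y : Fin n → ℝ) :
    Bm (List.ofFn v) f x y =
      PM (m + 2) f (Fin.cons x (Fin.cons y v : Fin (m + 1) → Fin n → ℝ) : Fin (m + 2) → Fin n → ℝ) := by
  rw [PM_apply, DL_ofFn_succ, DL_ofFn_succ]
  rfl

variable {J : Type} [Fintype J] [DecidableEq J] {d : ℕ}

/-- bring two slots to the front -/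
theorem exists_perm {m : ℕ} {a b : Fin (m + 2)} (hab : a ≠ b) :
    ∃ σ : Equiv.Perm (Fin (m + 2)), σ 0 = a ∧ σ 1 = b := by
  set b' := Equiv.swap 0 a b with hb'
  have hb0 : b' ≠ 0 := by
    intro h
    apply hab
    have h1 : Equiv.swap 0 a a = 0 := Equiv.swap_apply_right _ _
    exact (Equiv.swap 0 a).injective (h1.trans (h.symm.trans hb'))
  refine ⟨(Equiv.swap 1 b').trans (Equiv.swap 0 a), ?_, ?_⟩
  · rw [Equiv.trans_apply, Equiv.swap_apply_of_ne_of_ne (by simp) hb0.symm, Equiv.swap_apply_left]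
  · rw [Equiv.trans_apply, Equiv.swap_apply_left, hb', Equiv.swap_apply_self]

theorem Bf_front {m : ℕ} {T : Tn J (m + 2)} (hT : Sym T) (w : Fin (m + 2) → J → ℝ) {a b : Fin (m + 2)}
    (hab : a ≠ b) {σ : Equiv.Perm (Fin (m + 2))} (h0 : σ 0 = a) (h1 : σ 1 = b) (x y : J → ℝ) :
    Bf T w a b x y = ev T (Fin.cons x (Fin.cons y (fun j => w (σ j.succ.succ)) :
      Fin (m + 1) → J → ℝ) : Fin (m + 2) → J → ℝ) := by
  unfold Bf
  rw [← ev_swap hT σ]
  congr 1
  funext j
  rw [Function.comp_apply]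
  refine Fin.cases ?_ (fun j => ?_) j
  · rw [h0, update_of_ne hab, update_self, Fin.cons_zero]
  · rw [Fin.cons_succ]
    refine Fin.cases ?_ (fun j => ?_) j
    · have e : (Fin.succ 0 : Fin (m + 2)) = 1 := rfl
      rw [e, h1, update_self, Fin.cons_zero]
    · rw [Fin.cons_succ]
      have hne0 : σ j.succ.succ ≠ a := by
        rw [← h0]
        intro h
        exact Fin.succ_ne_zero _ (σ.injective h)
      have hne1 : σ j.succ.succ ≠ b := by
        rw [← h1]
        intro h
        have h2 : j.succ.succ = (Fin.succ 0 : Fin (m + 2)) := σ.injective h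
        exact Fin.succ_ne_zero _ (Fin.succ_injective _ h2)
      rw [update_of_ne hne1, update_of_ne hne0]

/-- symmetric tensors -/
def symS (J : Type) [Fintype J] (d : ℕ) : Submodule ℝ (Tn J d) where
  carrier := {T | Sym T}
  add_mem' := by
    intro a b ha hb σ i
    rw [PiLp.add_apply, PiLp.add_apply, ha, hb]
  zero_mem' := by
    intro σ i
    rw [PiLp.zero_apply, PiLp.zero_apply]
  smul_mem' := by
    intro c x hx σ i
    rw [PiLp.smul_apply, PiLp.smul_apply, hx]

theorem mem_symS {T : Tn J d} : T ∈ symS J d ↔ Sym T := Iff.rfl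

theorem wt_perm (o : J) (σ : Equiv.Perm (Fin d)) (i : Fin d → J) : wt o (i ∘ σ) = wt o i := by
  unfold wt
  apply card_bij (fun j _ => σ j)
  · intro j hj
    rw [mem_filter] at hj ⊢
    exact ⟨mem_univ _, hj.2⟩
  · intro j _ k _ h
    exact σ.injective h
  · intro j hj
    rw [mem_filter] at hj
    refine ⟨σ.symm j, mem_filter.2 ⟨mem_univ _, ?_⟩, by simp⟩
    rw [Function.comp_apply, Equiv.apply_symm_apply]
    exact hj.2

variable {K : ConvexCone ℝ (Fin n → ℝ)} {v0 : Fin n → ℝ} {o : J} {π : (Fin n → ℝ) →ₗ[ℝ] (J → ℝ)}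
  {b : (J → ℝ) →ₗ[ℝ] (Fin n → ℝ)}

/-- the slice -/
def Sl (K : ConvexCone ℝ (Fin n → ℝ)) (π : (Fin n → ℝ) →ₗ[ℝ] (J → ℝ)) (o : J) : Set (J → ℝ) :=
  {x | x ∈ closure (π '' (K : Set (Fin n → ℝ))) ∧ x o = 1}

theorem Coord.base' (hc : Coord K v0 o π b) : Base o (Sl K π o) := hc.base

theorem Coord.slice (hc : Coord K v0 o π b) {v : Fin n → ℝ} (hv : v ∈ K) :
    (π v o)⁻¹ • π v ∈ Sl K π o := by
  have h := hc.pos v hv
  refine ⟨subset_closure ⟨(π v o)⁻¹ • v, K.smul_mem (inv_pos.2 h) hv, map_smul _ _ _⟩, ?_⟩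
  show (π v o)⁻¹ * π v o = 1
  exact inv_mul_cancel₀ h.ne'

/-- positivity of the forms of normalised nonnegative tensors on the cone -/
theorem ev_pos (hc : Coord K v0 o π b) (hK : IsOpen (K : Set (Fin n → ℝ))) {T : Tn J d}
    (hT : NN (Sl K π o) T) (h1 : T (fun _ => o) = 1) {v : Fin d → Fin n → ℝ} (hv : ∀ j, v j ∈ K) :
    0 < ev T (fun j => π (v j)) := by
  -- a common `ε`
  have h2 : ∀ j, ∀ᶠ t in 𝓝 (0 : ℝ), v j + t • (v j - π (v j) o • v0) ∈ (K : Set (Fin n → ℝ)) := by
    intro j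
    have hcc : Continuous fun t : ℝ => v j + t • (v j - π (v j) o • v0) := by fun_prop
    apply hcc.continuousAt.eventually
    apply hK.mem_nhds
    show v j + (0 : ℝ) • (v j - π (v j) o • v0) ∈ K
    rw [zero_smul, add_zero]; exact hv j
  have h3 : ∀ᶠ t in 𝓝 (0 : ℝ), ∀ j, v j + t • (v j - π (v j) o • v0) ∈ (K : Set (Fin n → ℝ)) :=
    Filter.eventually_all.2 h2
  obtain ⟨ε, hε, hball⟩ := Metric.eventually_nhds_iff.1 h3
  set t := ε / 2 with ht
  have ht0 : 0 < t := by positivity
  have h4 : ∀ j, v j + t • (v j - π (v j) o • v0) ∈ K := hball (y := t) (by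
    rw [Real.dist_eq, sub_zero, abs_of_pos ht0]; linarith)
  set ρ : Fin d → ℝ := fun j => π (v j) o with hρ
  have hρ0 : ∀ j, 0 < ρ j := fun j => hc.pos _ (hv j)
  set x : Fin d → J → ℝ := fun j => (ρ j)⁻¹ • π (v j) with hx
  set w : Fin d → J → ℝ := fun j => (ρ j)⁻¹ • π (v j + t • (v j - π (v j) o • v0)) with hw
  have hwx : ∀ j, w j = x j + t • (x j - e0 o) := by
    intro j
    simp only [hw, hx, map_add, map_smul, map_sub, hc.pt]
    have h5 : (ρ j)⁻¹ * π (v j) o = 1 := inv_mul_cancel₀ (hρ0 j).ne'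
    funext l
    simp only [Pi.smul_apply, Pi.add_apply, Pi.sub_apply, smul_eq_mul]
    have h6 : (ρ j)⁻¹ * (t * (π (v j) o * e0 o l)) = t * e0 o l := by
      calc (ρ j)⁻¹ * (t * (π (v j) o * e0 o l)) = ((ρ j)⁻¹ * π (v j) o) * (t * e0 o l) := by ring
        _ = _ := by rw [h5, one_mul]
    linarith
  have hxo : ∀ j, x j o = 1 := by
    intro j
    show (ρ j)⁻¹ * π (v j) o = 1
    exact inv_mul_cancel₀ (hρ0 j).ne'
  have hwS : ∀ j, w j ∈ Sl K π o := by
    intro j
    refine ⟨subset_closure ⟨(ρ j)⁻¹ • (v j + t • (v j - π (v j) o • v0)),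
      K.smul_mem (inv_pos.2 (hρ0 j)) (h4 j), map_smul _ _ _⟩, ?_⟩
    rw [hwx]
    show x j o + t * (x j o - e0 o o) = 1
    rw [hxo]
    unfold e0
    rw [Pi.single_eq_same, sub_self, mul_zero, add_zero]
  have hxe : ∀ j, e0 o + (1 + t)⁻¹ • (w j - e0 o) = x j := by
    intro j
    have e1 : w j - e0 o = (1 + t) • (x j - e0 o) := by
      rw [hwx, add_smul, one_smul]; abel
    rw [e1, smul_smul, inv_mul_cancel₀ (by positivity), one_smul]
    abel
  have h5 := pos_inside hc.base' hT h1 (c := (1 + t)⁻¹) (by positivity)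
    (inv_lt_one_of_one_lt₀ (by linarith)) hwS
  simp only [hxe] at h5
  have h6 : ev T (fun j => π (v j)) = (∏ j, ρ j) * ev T x := by
    have h7 := (evM T).map_smul_univ ρ x
    have h8 : (fun j => ρ j • x j) = fun j => π (v j) := by
      funext j
      simp only [hx]
      rw [smul_smul, mul_inv_cancel₀ (hρ0 j).ne', one_smul]
    rw [h8] at h7
    exact h7
  rw [h6]
  exact mul_pos (prod_pos fun j _ => hρ0 j) h5

/-- from tensors to polynomials -/
theorem to_poly (hc : Coord K v0 o π b) (hK : IsOpen (K : Set (Fin n → ℝ))) (hv : v0 ∈ K)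
    (hd : 1 ≤ d) {T : Tn J d} (hT : T ∈ PP o (Sl K π o) (symS J d)) :
    IsKL (K : Set (Fin n → ℝ)) d (Psi π T) ∧ MvPolynomial.eval v0 (Psi π T) = 1 := by
  obtain ⟨hsym, h1, hNN, hHR⟩ := hT
  have hpos : ∀ v : Fin d → Fin n → ℝ, (∀ j, v j ∈ K) → 0 < PM d (Psi π T) v := by
    intro v hvK
    rw [PM_Psi hsym]
    have h2 := ev_pos hc hK hNN h1 hvK
    have h3 : (0 : ℝ) < d.factorial := by exact_mod_cast d.factorial_pos
    exact mul_pos h3 h2
  refine ⟨Or.inr ⟨hd, Psi_hom T, hpos, ?_⟩, ?_⟩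
  · intro m hm v hvK
    subst hm
    refine ⟨Hm_herm _ _, ?_⟩
    set f := Psi π T with hf
    have hBpos : 0 < Bm (List.ofFn v) f v0 v0 := by
      rw [Bm_eq]
      apply hpos
      intro j
      refine Fin.cases ?_ (fun j => ?_) j
      · exact hv
      · rw [Fin.cons_succ]
        refine Fin.cases ?_ (fun j => ?_) j
        · exact hv
        · exact hvK j
    rw [eig_iff (Hm_herm _ _) (v := v0) (by rw [Hm_bil]; exact hBpos)]
    intro x
    rw [Hm_bil, Hm_bil, Hm_bil]
    set ρ : Fin m → ℝ := fun j => π (v j) o with hρ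
    have hρ0 : ∀ j, 0 < ρ j := fun j => hc.pos _ (hvK j)
    set w : Fin (m + 2) → J → ℝ := (Fin.cons (e0 o) (Fin.cons (e0 o)
      (fun j => (ρ j)⁻¹ • π (v j)) : Fin (m + 1) → J → ℝ) : Fin (m + 2) → J → ℝ) with hw
    have hwS : ∀ j, w j ∈ Sl K π o := by
      intro j
      refine Fin.cases ?_ (fun j => ?_) j
      · exact hc.base'.mem_e0
      · rw [hw, Fin.cons_succ]
        refine Fin.cases ?_ (fun j => ?_) j
        · exact hc.base'.mem_e0
        · exact hc.slice (hvK j)
    have h01 : (0 : Fin (m + 2)) ≠ 1 := by simp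
    set κ : ℝ := ((m + 2).factorial : ℝ) * ∏ j, ρ j with hκ
    have hB : ∀ x y, Bm (List.ofFn v) f x y = κ * Bf T w 0 1 (π x) (π y) := by
      intro x y
      rw [Bm_eq, hf, PM_Psi hsym, Bf_front hsym w h01 (σ := Equiv.refl _) rfl rfl, hκ, mul_assoc]
      congr 1
      set c : Fin (m + 2) → ℝ := (Fin.cons 1 (Fin.cons 1 ρ : Fin (m + 1) → ℝ) : Fin (m + 2) → ℝ) with hcdef
      have h7 := (evM T).map_smul_univ c (Fin.cons (π x) (Fin.cons (π y)
        (fun j => w (Equiv.refl (Fin (m + 2)) j.succ.succ)) : Fin (m + 1) → J → ℝ) : Fin (m + 2) → J → ℝ)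
      have h8 : ∏ j, c j = ∏ j, ρ j := by
        rw [Fin.prod_univ_succ, Fin.prod_univ_succ]
        simp only [hcdef, Fin.cons_zero, Fin.cons_succ, one_mul]
      rw [h8] at h7
      refine Eq.trans ?_ h7
      show evM T _ = evM T _
      congr 1
      funext j
      refine Fin.cases ?_ (fun j => ?_) j
      · simp only [hcdef, Fin.cons_zero, one_smul]
      · refine Fin.cases ?_ (fun j => ?_) j
        · simp only [hcdef, Fin.cons_zero, Fin.cons_succ, one_smul]
        · simp only [hcdef, hw, Fin.cons_succ, Equiv.refl_apply]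
          rw [smul_smul, mul_inv_cancel₀ (hρ0 j).ne', one_smul]
    have hdisc := HR_all (mem_symS.1 hsym) hHR hwS h01 (π x)
    unfold disc at hdisc
    rw [hB, hB, hB, hc.pt]
    have h9 := mul_nonneg (sq_nonneg κ) hdisc
    linarith
  · rw [eval_Psi, hc.pt, ev_e0, h1]

/-- from polynomials to tensors -/
theorem to_ten (hc : Coord K v0 o π b) (hK : IsOpen (K : Set (Fin n → ℝ))) (hv : v0 ∈ K)
    (hd : 1 ≤ d) {f : MvPolynomial (Fin n) ℝ} (hf : IsKL (K : Set (Fin n → ℝ)) d f)
    (hf1 : MvPolynomial.eval v0 f = 1) :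
    Th d b f ∈ PP o (Sl K π o) (symS J d) ∧ Psi π (Th d b f) = f := by
  rcases hf with ⟨h0, -⟩ | ⟨-, hhom, hpos', hHR⟩
  · omega
  have hpos : ∀ v : Fin d → Fin n → ℝ, (∀ j, v j ∈ K) → 0 < PM d f v := hpos'
  have hΨ : Psi π (Th d b f) = f := Psi_Th hK hv hc.ker hc.right hhom hpos
  have hsym : Sym (Th d b f : Tn J d) := Sym_Th f
  have hval : ∀ v : Fin d → Fin n → ℝ, PM d f v = d.factorial * ev (Th d b f) (fun j => π (v j)) := by
    intro v
    conv_lhs => rw [← hΨ]
    rw [PM_Psi hsym]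
  have hfac : (0 : ℝ) < d.factorial := by exact_mod_cast d.factorial_pos
  have hcl : closure (Set.pi Set.univ fun _ : Fin d => π '' (K : Set (Fin n → ℝ))) =
      Set.pi Set.univ fun _ : Fin d => closure (π '' (K : Set (Fin n → ℝ))) := closure_pi_set _ _
  refine ⟨⟨hsym, ?_, ?_, ?_⟩, hΨ⟩
  · rw [← ev_e0, ← hc.pt, ← eval_Psi, hΨ, hf1]
  · intro w hw
    have hsub : closure (Set.pi Set.univ fun _ : Fin d => π '' (K : Set (Fin n → ℝ))) ⊆
        {w | 0 ≤ ev (Th d b f) w} := by
      apply closure_minimal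
      · intro w hw
        choose v hvK hvw using fun j => hw j trivial
        have e : w = fun j => π (v j) := funext fun j => (hvw j).symm
        show 0 ≤ ev (Th d b f) w
        have h1 := hpos v hvK
        rw [hval, ← e] at h1
        exact ((mul_pos_iff_of_pos_left hfac).1 h1).le
      · exact isClosed_le continuous_const (ev_cont_right _)
    apply hsub
    rw [hcl]
    intro j _
    exact (hw j).1
  · intro w hw a c hac x hxo
    have hsub : closure (Set.pi Set.univ fun _ : Fin d => π '' (K : Set (Fin n → ℝ))) ⊆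
        {w | 0 ≤ disc o (Th d b f) w a c x} := by
      apply closure_minimal
      · intro w hw
        choose v hvK hvw using fun j => hw j trivial
        have e : w = fun j => π (v j) := funext fun j => (hvw j).symm
        show 0 ≤ disc o (Th d b f) w a c x
        -- the degree is at least two
        obtain ⟨m, rfl⟩ : ∃ m, d = m + 2 := by
          have h1 := a.isLt
          have h2 := c.isLt
          have h3 : (a : ℕ) ≠ c := fun h => hac (Fin.ext h)
          exact ⟨d - 2, by omega⟩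
        obtain ⟨σ, hσ0, hσ1⟩ := exists_perm hac
        set v' : Fin m → Fin n → ℝ := fun j => v (σ j.succ.succ) with hv'
        have hB : ∀ x y, Bm (List.ofFn v') f x y =
            ((m + 2).factorial : ℝ) * Bf (Th (m + 2) b f) w a c (π x) (π y) := by
          intro x y
          rw [Bm_eq, hval, Bf_front hsym w hac hσ0 hσ1]
          congr 2
          funext j
          refine Fin.cases ?_ (fun j => ?_) j
          · rw [Fin.cons_zero, Fin.cons_zero]
          · rw [Fin.cons_succ, Fin.cons_succ]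
            refine Fin.cases ?_ (fun j => ?_) j
            · rw [Fin.cons_zero, Fin.cons_zero]
            · rw [Fin.cons_succ, Fin.cons_succ, e]
        obtain ⟨hH, hcard⟩ := hHR m rfl v' (fun j => hvK _)
        have hBpos : 0 < Bm (List.ofFn v') f v0 v0 := by
          rw [Bm_eq]
          apply hpos
          intro j
          refine Fin.cases ?_ (fun j => ?_) j
          · exact hv
          · rw [Fin.cons_succ]
            refine Fin.cases ?_ (fun j => ?_) j
            · exact hv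
            · exact hvK _
        rw [eig_iff hH (v := v0) (by rw [Hm_bil]; exact hBpos)] at hcard
        have h1 := hcard (b x)
        rw [Hm_bil, Hm_bil, Hm_bil, hB, hB, hB, hc.right, hc.pt] at h1
        unfold disc
        have h2 : 0 ≤ ((m + 2).factorial : ℝ) ^ 2 *
            (Bf (Th (m + 2) b f) w a c x (e0 o) ^ 2 - Bf (Th (m + 2) b f) w a c x x *
            Bf (Th (m + 2) b f) w a c (e0 o) (e0 o)) := by linarith
        exact nonneg_of_mul_nonneg_right h2 (pow_pos hfac 2)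
      · have hcont : Continuous fun w : Fin d → J → ℝ => disc o (Th d b f) w a c x := by
          have h2 : Continuous fun w : Fin d → J → ℝ => ((Th d b f : Tn J d), (w, x)) :=
            continuous_const.prodMk (continuous_id.prodMk continuous_const)
          have h1 := (disc_cont (o := o) (J := J) (d := d) a c).comp h2
          exact h1
        exact isClosed_le continuous_const hcont
    apply hsub
    rw [hcl]
    intro j _
    exact (hw j).1

/-- **Main theorem**, positive degree -/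
theorem ball_pos (hK : IsOpen (K : Set (Fin n → ℝ))) (hv : v0 ∈ K)
    (hne : (K : Set (Fin n → ℝ)) ≠ Set.univ) (hd : 1 ≤ d) :
    ∃ N : ℕ, Nonempty (PL (K : Set (Fin n → ℝ)) d v0 ≃ₜ
      Metric.closedBall (0 : EuclideanSpace ℝ (Fin N)) 1) := by
  obtain ⟨J, _, _, o, π, b, hc⟩ := exists_coord hK hv hne
  obtain ⟨N, ⟨e⟩⟩ := model (d := d) hc.base' (symS J d) (fun T hT => hT)
    (fun T hT s => by
      intro σ i
      rw [At_apply, At_apply, wt_perm, hT])
    (fun l => by
      intro σ i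
      rw [pw_apply, pw_apply]
      exact Equiv.prod_comp σ fun j => l (i j))
  refine ⟨N, ?_⟩
  have : CompactSpace (PP o (Sl K π o) (symS J d)) := e.symm.compactSpace
  let g : PP o (Sl K π o) (symS J d) → PL (K : Set (Fin n → ℝ)) d v0 := fun T =>
    ⟨fun m => coeff m (Psi π T.1), Psi π T.1, (to_poly hc hK hv hd T.2).1,
      (to_poly hc hK hv hd T.2).2, fun _ => rfl⟩
  have hginj : Function.Injective g := by
    intro T S h
    have h1 : (fun m => coeff m (Psi π T.1)) = fun m => coeff m (Psi π S.1) :=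
      congrArg Subtype.val h
    have h2 : Psi π T.1 = Psi π S.1 := MvPolynomial.ext _ _ fun m => congrFun h1 m
    apply Subtype.ext
    rw [← Th_Psi (mem_symS.1 T.2.1) hc.right, h2, Th_Psi (mem_symS.1 S.2.1) hc.right]
  have hgsurj : Function.Surjective g := by
    rintro ⟨c, f, hf, hf1, hcf⟩
    obtain ⟨h1, h2⟩ := to_ten hc hK hv hd hf hf1
    refine ⟨⟨Th d b f, h1⟩, ?_⟩
    apply Subtype.ext
    funext m
    show coeff m (Psi π (Th d b f)) = c m
    rw [h2, hcf]
  have hgc : Continuous g := by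
    apply Continuous.subtype_mk
    apply continuous_pi
    intro m
    have h1 : ∀ T : Tn J d, coeff m (Psi π T) =
        ∑ i : Fin d → J, T i * coeff m (∏ j, Lam π (i j)) := by
      intro T
      unfold Psi
      rw [coeff_sum]
      apply sum_congr rfl
      intro i _
      rw [coeff_smul, smul_eq_mul]
    simp only [h1]
    have h2 : Continuous fun T : Tn J d => ∑ i : Fin d → J, T i * coeff m (∏ j, Lam π (i j)) := by
      fun_prop
    exact h2.comp continuous_subtype_val
  let g' : PP o (Sl K π o) (symS J d) ≃ PL (K : Set (Fin n → ℝ)) d v0 :=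
    Equiv.ofBijective g ⟨hginj, hgsurj⟩
  have hg' : Continuous g' := hgc
  exact ⟨(hg'.homeoOfEquivCompactToT2).symm.trans e⟩

/-- degree zero -/
theorem ball_zero (K : Set (Fin n → ℝ)) (v : Fin n → ℝ) :
    ∃ N : ℕ, Nonempty (PL K 0 v ≃ₜ Metric.closedBall (0 : EuclideanSpace ℝ (Fin N)) 1) := by
  refine ⟨0, ?_⟩
  have h1 : PL K 0 v = {fun m => coeff m (C 1 : MvPolynomial (Fin n) ℝ)} := by
    ext c
    rw [Set.mem_singleton_iff]
    constructor
    · rintro ⟨f, hf, hf1, hcf⟩
      rcases hf with ⟨-, a, -, rfl⟩ | ⟨h, -⟩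
      · rw [eval_C] at hf1
        subst hf1
        funext m
        exact hcf m
      · omega
    · rintro rfl
      exact ⟨C 1, Or.inl ⟨rfl, 1, zero_le_one, rfl⟩, eval_C _ , fun _ => rfl⟩
  rw [h1]
  have h2 : Unique ↥(Metric.closedBall (0 : EuclideanSpace ℝ (Fin 0)) 1) :=
    { default := ⟨0, by simp⟩
      uniq := fun x => Subtype.ext (Subsingleton.elim _ _) }
  exact ⟨Homeomorph.homeomorphOfUnique _ _⟩

/-- the degenerate cone -/
theorem empty_univ (hd : 1 ≤ d) (v : Fin n → ℝ) : PL (Set.univ : Set (Fin n → ℝ)) d v = ∅ := by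
  rw [Set.eq_empty_iff_forall_notMem]
  rintro c ⟨f, hf, -, -⟩
  rcases hf with ⟨h0, -⟩ | ⟨-, -, hpos, -⟩
  · omega
  · have h1 := hpos (fun _ => 0) (fun _ => trivial)
    have h2 : PM d f (fun _ => (0 : Fin n → ℝ)) = 0 :=
      (PM d f).map_coord_zero ⟨0, by omega⟩ rfl
    rw [PM_apply] at h2
    rw [h2] at h1
    exact lt_irrefl _ h1

end Pool.Agent.P8H74.BL
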