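import Pool.Agent.P8H74.BL.Dyn

/-! Directional derivatives of polynomials and polarisation. -/

set_option autoImplicit false
set_option linter.unusedSectionVars false

namespace Pool.Agent.P8H74.BL

open Finset Function MvPolynomial

section ten

variable {J : Type} [Fintype J] [DecidableEq J] {d : ℕ}

/-- two tensors with the same form agree -/
theorem ten_ext {T S : Tn J d} (h : ∀ v, ev T v = ev S v) : T = S := by
  ext i
  rw [← ev_single T i, ← ev_single S i, h]

/-- a multilinear form is the form of the tensor of its values -/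
theorem ev_of_multilinear (m : MultilinearMap ℝ (fun _ : Fin d => J → ℝ) ℝ) (v : Fin d → J → ℝ) :
    ev (WithLp.toLp 2 fun i => m (fun j => Pi.single (i j) 1) : Tn J d) v = m v := by
  have h : evM (WithLp.toLp 2 fun i => m (fun j => Pi.single (i j) 1) : Tn J d) = m := by
    apply Module.Basis.ext_multilinear (fun _ => Pi.basisFun ℝ J)
    intro i
    have h1 := ev_single (WithLp.toLp 2 fun i => m (fun j => Pi.single (i j) 1) : Tn J d) i
    simp only [Pi.basisFun_apply]
    exact h1
  unfold ev
  rw [h]

/-- contraction with a vector in the first slot -/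
noncomputable def ct (T : Tn J (d + 1)) (x : J → ℝ) : Tn J d :=
  WithLp.toLp 2 fun i => ∑ l, x l * T (Fin.cons l i : Fin (d + 1) → J)

theorem ct_apply (T : Tn J (d + 1)) (x : J → ℝ) (i : Fin d → J) :
    ct T x i = ∑ l, x l * T (Fin.cons l i : Fin (d + 1) → J) := rfl

theorem ev_ct (T : Tn J (d + 1)) (x : J → ℝ) (w : Fin d → J → ℝ) :
    ev (ct T x) w = ev T (Fin.cons x w : Fin (d + 1) → J → ℝ) := by
  rw [ev_eq, ev_eq, ← (Fin.consEquiv fun _ : Fin (d + 1) => J).sum_comp, Fintype.sum_prod_type,
    sum_comm]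
  apply sum_congr rfl
  intro i _
  rw [ct_apply, sum_mul]
  apply sum_congr rfl
  intro l _
  have e : (Fin.consEquiv fun _ : Fin (d + 1) => J) (l, i) = (Fin.cons l i : Fin (d + 1) → J) := rfl
  rw [e, Fin.prod_univ_succ]
  simp only [Fin.cons_zero, Fin.cons_succ]
  ring

theorem Sym_ct {T : Tn J (d + 1)} (hT : Sym T) (x : J → ℝ) : Sym (ct T x) := by
  intro σ i
  rw [ct_apply, ct_apply]
  apply sum_congr rfl
  intro l _
  have e : (Fin.cons l (i ∘ σ) : Fin (d + 1) → J) =
      (Fin.cons l i : Fin (d + 1) → J) ∘ (Equiv.Perm.decomposeFin.symm (0, σ)) := by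
    funext j
    refine Fin.cases ?_ (fun j => ?_) j
    · rw [Function.comp_apply, Equiv.Perm.decomposeFin_symm_apply_zero, Fin.cons_zero, Fin.cons_zero]
    · rw [Function.comp_apply, Equiv.Perm.decomposeFin_symm_apply_succ, Equiv.swap_self,
        Equiv.refl_apply, Fin.cons_succ, Fin.cons_succ, Function.comp_apply]
  rw [e, hT]

theorem diag_der (T : Tn J d) (x y : J → ℝ) : HasDerivAt (fun t : ℝ => ev T (fun _ => x + t • y))
    (∑ k, ev T (update (fun _ => x) k y)) 0 := by
  simp only [ev_eq]
  rw [sum_comm]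
  apply HasDerivAt.fun_sum
  intro i _
  rw [← mul_sum]
  apply HasDerivAt.const_mul
  have h1 : ∀ j ∈ (univ : Finset (Fin d)), HasDerivAt (fun t : ℝ => (x + t • y) (i j)) (y (i j)) 0 := by
    intro j _
    show HasDerivAt (fun t : ℝ => x (i j) + t * y (i j)) (y (i j)) 0
    have := ((hasDerivAt_id (0 : ℝ)).mul_const (y (i j))).const_add (x (i j))
    simpa using this
  have h2 := HasDerivAt.fun_finsetProd h1
  convert h2 using 1
  apply sum_congr rfl
  intro k _
  rw [← mul_prod_erase univ _ (mem_univ k), update_self, smul_eq_mul, mul_comm]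
  congr 1
  apply prod_congr rfl
  intro j hj
  rw [update_of_ne (ne_of_mem_erase hj)]
  simp

/-- polarisation: a symmetric tensor vanishing on the diagonal vanishes -/
theorem pol_zero : ∀ {d : ℕ} {T : Tn J d}, Sym T → (∀ x, ev T (fun _ => x) = 0) → T = 0 := by
  intro d
  induction d with
  | zero =>
    intro T _ h
    apply ten_ext
    intro v
    rw [ev_zero]
    have e : v = fun _ => (0 : J → ℝ) := by
      funext j
      exact j.elim0
    rw [e, h]
  | succ d ih =>
    intro T hT h
    have h1 : ∀ x y : J → ℝ, ev T (Fin.cons y (fun _ => x) : Fin (d + 1) → J → ℝ) = 0 := by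
      intro x y
      have h2 := diag_der T x y
      have h3 : (fun t : ℝ => ev T (fun _ => x + t • y)) = fun _ => 0 := by
        funext t
        exact h _
      rw [h3] at h2
      have h4 := h2.unique (hasDerivAt_const (0 : ℝ) (0 : ℝ))
      have h5 : ∀ k : Fin (d + 1), ev T (update (fun _ => x) k y) =
          ev T (Fin.cons y (fun _ => x) : Fin (d + 1) → J → ℝ) := by
        intro k
        rw [← ev_swap hT (Equiv.swap 0 k) (Fin.cons y (fun _ => x) : Fin (d + 1) → J → ℝ)]
        congr 1
        funext j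
        rw [Function.comp_apply]
        by_cases hj : j = k
        · subst hj
          rw [update_self, Equiv.swap_apply_right, Fin.cons_zero]
        · rw [update_of_ne hj]
          have h6 : Equiv.swap 0 k j ≠ 0 := by
            intro h7
            apply hj
            have h8 : Equiv.swap 0 k k = 0 := Equiv.swap_apply_right _ _
            exact (Equiv.swap 0 k).injective (h7.trans h8.symm)
          obtain ⟨l, hl⟩ := Fin.exists_succ_eq.2 h6
          rw [← hl, Fin.cons_succ]
      rw [sum_congr rfl (fun k _ => h5 k), sum_const, card_univ, Fintype.card_fin, nsmul_eq_mul] at h4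
      rcases mul_eq_zero.1 h4 with h6 | h6
      · exact absurd h6 (by positivity)
      · exact h6
    have h2 : ∀ y, ct T y = 0 := by
      intro y
      apply ih (Sym_ct hT y)
      intro x
      rw [ev_ct, h1]
    apply ten_ext
    intro v
    rw [ev_zero, ← Fin.cons_self_tail v]
    have h3 := ev_ct T (v 0) (Fin.tail v)
    rw [h2, ev_zero] at h3
    exact h3.symm

end ten

variable {n : ℕ}

/-- The directional derivative. -/
noncomputable def D (u : Fin n → ℝ) (f : MvPolynomial (Fin n) ℝ) : MvPolynomial (Fin n) ℝ :=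
  ∑ i, u i • pderiv i f

/-- Iterated directional derivatives. -/
noncomputable def DL (l : List (Fin n → ℝ)) (f : MvPolynomial (Fin n) ℝ) : MvPolynomial (Fin n) ℝ :=
  l.foldr D f

theorem pderiv_comm (i j : Fin n) (f : MvPolynomial (Fin n) ℝ) :
    pderiv i (pderiv j f) = pderiv j (pderiv i f) := by
  have h : ⁅(pderiv i : Derivation ℝ (MvPolynomial (Fin n) ℝ) (MvPolynomial (Fin n) ℝ)),
      (pderiv j : Derivation ℝ (MvPolynomial (Fin n) ℝ) (MvPolynomial (Fin n) ℝ))⁆ = 0 := by
    apply MvPolynomial.derivation_ext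
    intro k
    rw [Derivation.commutator_apply, pderiv_X, pderiv_X]
    by_cases h1 : i = k <;> by_cases h2 : j = k <;> simp [h1, h2]
  have h1 := congrArg (fun E : Derivation ℝ (MvPolynomial (Fin n) ℝ) (MvPolynomial (Fin n) ℝ) => E f) h
  simp only [Derivation.commutator_apply, Derivation.coe_zero, Pi.zero_apply] at h1
  exact sub_eq_zero.1 h1

theorem D_add (u : Fin n → ℝ) (f g : MvPolynomial (Fin n) ℝ) : D u (f + g) = D u f + D u g := by
  unfold D
  rw [← sum_add_distrib]
  apply sum_congr rfl
  intro i _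
  rw [map_add, smul_add]

theorem D_smul (u : Fin n → ℝ) (c : ℝ) (f : MvPolynomial (Fin n) ℝ) : D u (c • f) = c • D u f := by
  unfold D
  rw [smul_sum]
  apply sum_congr rfl
  intro i _
  rw [Derivation.map_smul, smul_comm]

theorem D_sum {ι : Type*} (s : Finset ι) (u : Fin n → ℝ) (g : ι → MvPolynomial (Fin n) ℝ) :
    D u (∑ i ∈ s, g i) = ∑ i ∈ s, D u (g i) := by
  unfold D
  rw [sum_comm]
  apply sum_congr rfl
  intro i _
  rw [map_sum, smul_sum]

theorem D_add_left (u v : Fin n → ℝ) (f : MvPolynomial (Fin n) ℝ) : D (u + v) f = D u f + D v f := by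
  unfold D
  rw [← sum_add_distrib]
  apply sum_congr rfl
  intro i _
  rw [Pi.add_apply, add_smul]

theorem D_smul_left (c : ℝ) (u : Fin n → ℝ) (f : MvPolynomial (Fin n) ℝ) : D (c • u) f = c • D u f := by
  unfold D
  rw [smul_sum]
  apply sum_congr rfl
  intro i _
  rw [Pi.smul_apply, smul_eq_mul, mul_smul]

theorem D_comm (u v : Fin n → ℝ) (f : MvPolynomial (Fin n) ℝ) : D u (D v f) = D v (D u f) := by
  have h1 : ∀ u v : Fin n → ℝ, D u (D v f) = ∑ i, ∑ j, (u i * v j) • pderiv i (pderiv j f) := by
    intro u v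
    unfold D
    apply sum_congr rfl
    intro i _
    rw [map_sum, smul_sum]
    apply sum_congr rfl
    intro j _
    rw [Derivation.map_smul, smul_smul]
  rw [h1, h1, sum_comm]
  apply sum_congr rfl
  intro i _
  apply sum_congr rfl
  intro j _
  rw [pderiv_comm, mul_comm]

theorem D_single (i : Fin n) (f : MvPolynomial (Fin n) ℝ) : D (Pi.single i 1) f = pderiv i f := by
  unfold D
  rw [sum_eq_single i]
  · rw [Pi.single_eq_same, one_smul]
  · intro j _ hj
    rw [Pi.single_eq_of_ne hj, zero_smul]
  · intro h; exact absurd (mem_univ i) h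

theorem D_hom {d : ℕ} (u : Fin n → ℝ) {f : MvPolynomial (Fin n) ℝ} (hf : f.IsHomogeneous (d + 1)) :
    (D u f).IsHomogeneous d := by
  unfold D
  rw [← mem_homogeneousSubmodule]
  apply Submodule.sum_mem
  intro i _
  apply Submodule.smul_mem
  rw [mem_homogeneousSubmodule]
  exact hf.pderiv

theorem D_eval {d : ℕ} (x : Fin n → ℝ) {f : MvPolynomial (Fin n) ℝ} (hf : f.IsHomogeneous d) :
    eval x (D x f) = d * eval x f := by
  have h := congrArg (MvPolynomial.eval x) hf.sum_X_mul_pderiv
  rw [map_sum, map_nsmul, nsmul_eq_mul] at h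
  rw [← h]
  unfold D
  rw [map_sum]
  apply sum_congr rfl
  intro i _
  rw [smul_eval, map_mul, eval_X]

theorem DL_cons (u : Fin n → ℝ) (l : List (Fin n → ℝ)) (f : MvPolynomial (Fin n) ℝ) :
    DL (u :: l) f = D u (DL l f) := rfl

theorem DL_ofFn_succ {d : ℕ} (v : Fin (d + 1) → Fin n → ℝ) (f : MvPolynomial (Fin n) ℝ) :
    DL (List.ofFn v) f = D (v 0) (DL (List.ofFn fun j => v j.succ) f) := by
  rw [List.ofFn_succ]; rfl

theorem update_zero_succ {d : ℕ} (v : Fin (d + 1) → Fin n → ℝ) (x : Fin n → ℝ) :
    (fun j : Fin d => update v 0 x j.succ) = fun j => v j.succ := by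
  funext j
  rw [update_of_ne (Fin.succ_ne_zero j)]

theorem update_succ_succ {d : ℕ} (v : Fin (d + 1) → Fin n → ℝ) (a : Fin d) (x : Fin n → ℝ) :
    (fun j : Fin d => update v a.succ x j.succ) = update (fun j => v j.succ) a x := by
  funext j
  by_cases h : j = a
  · subst h; rw [update_self, update_self]
  · rw [update_of_ne h, update_of_ne (fun h' => h (Fin.succ_injective _ h'))]

theorem DL_update_add {d : ℕ} (f : MvPolynomial (Fin n) ℝ) (v : Fin d → Fin n → ℝ) (a : Fin d)
    (x y : Fin n → ℝ) : DL (List.ofFn (update v a (x + y))) f =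
      DL (List.ofFn (update v a x)) f + DL (List.ofFn (update v a y)) f := by
  induction d with
  | zero => exact a.elim0
  | succ d ih =>
    rw [DL_ofFn_succ, DL_ofFn_succ, DL_ofFn_succ]
    refine Fin.cases ?_ (fun a => ?_) a
    · rw [update_zero_succ, update_zero_succ, update_zero_succ, update_self, update_self,
        update_self, D_add_left]
    · rw [update_succ_succ, update_succ_succ, update_succ_succ,
        update_of_ne (Fin.succ_ne_zero a).symm, update_of_ne (Fin.succ_ne_zero a).symm,
        update_of_ne (Fin.succ_ne_zero a).symm, ih, D_add]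

theorem DL_update_smul {d : ℕ} (f : MvPolynomial (Fin n) ℝ) (v : Fin d → Fin n → ℝ) (a : Fin d)
    (c : ℝ) (x : Fin n → ℝ) : DL (List.ofFn (update v a (c • x))) f =
      c • DL (List.ofFn (update v a x)) f := by
  induction d with
  | zero => exact a.elim0
  | succ d ih =>
    rw [DL_ofFn_succ, DL_ofFn_succ]
    refine Fin.cases ?_ (fun a => ?_) a
    · rw [update_zero_succ, update_zero_succ, update_self, update_self, D_smul_left]
    · rw [update_succ_succ, update_succ_succ,
        update_of_ne (Fin.succ_ne_zero a).symm, update_of_ne (Fin.succ_ne_zero a).symm, ih, D_smul]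

/-- the polar form as a multilinear map -/
noncomputable def PM (d : ℕ) (f : MvPolynomial (Fin n) ℝ) :
    MultilinearMap ℝ (fun _ : Fin d => Fin n → ℝ) ℝ where
  toFun := fun v => constantCoeff (DL (List.ofFn v) f)
  map_update_add' := by
    intro inst v a x y
    have : inst = instDecidableEqFin d := Subsingleton.elim _ _
    subst this
    rw [DL_update_add, map_add]
  map_update_smul' := by
    intro inst v a c x
    have : inst = instDecidableEqFin d := Subsingleton.elim _ _
    subst this
    rw [DL_update_smul, smul_eq_C_mul, map_mul, constantCoeff_C, smul_eq_mul]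

theorem PM_apply {d : ℕ} (f : MvPolynomial (Fin n) ℝ) (v : Fin d → Fin n → ℝ) :
    PM d f v = constantCoeff (DL (List.ofFn v) f) := rfl

theorem PM_perm {d : ℕ} (f : MvPolynomial (Fin n) ℝ) (v : Fin d → Fin n → ℝ)
    (σ : Equiv.Perm (Fin d)) : PM d f (v ∘ σ) = PM d f v := by
  rw [PM_apply, PM_apply]
  congr 1
  have : LeftCommutative (D : (Fin n → ℝ) → MvPolynomial (Fin n) ℝ → MvPolynomial (Fin n) ℝ) :=
    ⟨D_comm⟩
  exact (σ.ofFn_comp_perm v).foldr_eq (f := D) f

/-- the tensor of a polynomial -/
noncomputable def T0 (d : ℕ) (f : MvPolynomial (Fin n) ℝ) : Tn (Fin n) d :=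
  WithLp.toLp 2 fun i => PM d f (fun j => Pi.single (i j) 1)

theorem ev_T0 {d : ℕ} (f : MvPolynomial (Fin n) ℝ) (v : Fin d → Fin n → ℝ) :
    ev (T0 d f) v = PM d f v := ev_of_multilinear _ _

theorem Sym_T0 {d : ℕ} (f : MvPolynomial (Fin n) ℝ) : Sym (T0 d f) := by
  intro σ i
  show PM d f (fun j => Pi.single ((i ∘ σ) j) 1) = PM d f (fun j => Pi.single (i j) 1)
  rw [← PM_perm f (fun j => Pi.single (i j) 1) σ]
  rfl

theorem DL_replicate_succ (d : ℕ) (x : Fin n → ℝ) (f : MvPolynomial (Fin n) ℝ) :
    DL (List.replicate (d + 1) x) f = DL (List.replicate d x) (D x f) := by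
  rw [List.replicate_succ']
  unfold DL
  rw [List.foldr_append]
  rfl

theorem PM_diag : ∀ {d : ℕ} {f : MvPolynomial (Fin n) ℝ}, f.IsHomogeneous d → ∀ x : Fin n → ℝ,
    PM d f (fun _ => x) = d.factorial * eval x f := by
  have key : ∀ {d : ℕ} {f : MvPolynomial (Fin n) ℝ}, f.IsHomogeneous d → ∀ x : Fin n → ℝ,
      constantCoeff (DL (List.replicate d x) f) = d.factorial * eval x f := by
    intro d
    induction d with
    | zero =>
      intro f hf x
      have h1 := totalDegree_eq_zero_iff_eq_C.1 ((totalDegree_zero_iff_isHomogeneous _).2 hf)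
      have h2 : DL (List.replicate 0 x) f = f := rfl
      rw [h2, h1, constantCoeff_C, eval_C]; simp
    | succ d ih =>
      intro f hf x
      rw [DL_replicate_succ, ih (D_hom x hf), D_eval x hf, Nat.factorial_succ]
      push_cast; ring
  intro d f hf x
  rw [PM_apply, List.ofFn_const, key hf]

end Pool.Agent.P8H74.BL
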