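import Pool.Agent.P8H74.BL.Pol
import Pool.Agent.P8H74.BL.Cone

/-! Polynomials and tensors. -/

set_option autoImplicit false
set_option linter.unusedSectionVars false

namespace Pool.Agent.P8H74.BL

open Finset Function MvPolynomial
open scoped Topology

variable {J : Type} [Fintype J] [DecidableEq J] {d n : ℕ} {π : (Fin n → ℝ) →ₗ[ℝ] (J → ℝ)}
  {b : (J → ℝ) →ₗ[ℝ] (Fin n → ℝ)}

/-- the linear forms -/
noncomputable def Lam (π : (Fin n → ℝ) →ₗ[ℝ] (J → ℝ)) (l : J) : MvPolynomial (Fin n) ℝ :=
  ∑ k, C (π (Pi.single k 1) l) * X k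

theorem eval_Lam (x : Fin n → ℝ) (l : J) : MvPolynomial.eval x (Lam π l) = π x l := by
  unfold Lam
  rw [map_sum]
  have h := LinearMap.pi_apply_eq_sum_univ π x
  have e : ∀ k : Fin n, (fun j : Fin n => if k = j then (1 : ℝ) else 0) = Pi.single k 1 := by
    intro k
    funext j
    by_cases h : k = j
    · subst h; simp
    · rw [if_neg h, Pi.single_eq_of_ne (Ne.symm h)]
  rw [h, Finset.sum_apply]
  apply sum_congr rfl
  intro k _
  rw [e, map_mul, eval_C, eval_X, Pi.smul_apply, smul_eq_mul, mul_comm]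

/-- the polynomial of a tensor -/
noncomputable def Psi (π : (Fin n → ℝ) →ₗ[ℝ] (J → ℝ)) (T : Tn J d) : MvPolynomial (Fin n) ℝ :=
  ∑ i : Fin d → J, T i • ∏ j, Lam π (i j)

theorem eval_Psi (T : Tn J d) (x : Fin n → ℝ) :
    MvPolynomial.eval x (Psi π T) = ev T (fun _ => π x) := by
  unfold Psi
  rw [map_sum, ev_eq]
  apply sum_congr rfl
  intro i _
  rw [smul_eval, map_prod]
  congr 1
  apply prod_congr rfl
  intro j _
  rw [eval_Lam]

theorem Psi_hom (T : Tn J d) : (Psi π T).IsHomogeneous d := by
  unfold Psi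
  rw [← mem_homogeneousSubmodule]
  apply Submodule.sum_mem
  intro i _
  apply Submodule.smul_mem
  rw [mem_homogeneousSubmodule]
  have h := IsHomogeneous.prod (univ : Finset (Fin d)) (fun j => Lam π (i j)) (fun _ => 1) (by
    intro j _
    unfold Lam
    apply IsHomogeneous.sum
    intro k _
    have := (isHomogeneous_C (Fin n) (π (Pi.single k 1) (i j))).mul (isHomogeneous_X ℝ k)
    rwa [zero_add] at this)
  rwa [sum_const, card_univ, Fintype.card_fin, smul_eq_mul, mul_one] at h

/-- pulled back tensors -/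
noncomputable def pull (π : (Fin n → ℝ) →ₗ[ℝ] (J → ℝ)) (T : Tn J d) : Tn (Fin n) d :=
  WithLp.toLp 2 fun k => ev T (fun j => π (Pi.single (k j) 1))

theorem ev_pull (T : Tn J d) (v : Fin d → Fin n → ℝ) : ev (pull π T) v = ev T (fun j => π (v j)) :=
  ev_of_multilinear ((evM T).compLinearMap fun _ => π) v

theorem Sym_pull {T : Tn J d} (hT : Sym T) : Sym (pull π T) := by
  intro σ k
  show ev T (fun j => π (Pi.single ((k ∘ σ) j) 1)) = ev T (fun j => π (Pi.single (k j) 1))
  rw [← ev_swap hT σ (fun j => π (Pi.single (k j) 1))]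
  rfl

theorem Sym_comb {T S : Tn J d} (hT : Sym T) (hS : Sym S) (c : ℝ) : Sym (T - c • S) := by
  intro σ i
  rw [PiLp.sub_apply, PiLp.sub_apply, PiLp.smul_apply, PiLp.smul_apply, hT, hS]

theorem PM_Psi {T : Tn J d} (hT : Sym T) (v : Fin d → Fin n → ℝ) :
    PM d (Psi π T) v = d.factorial * ev T (fun j => π (v j)) := by
  have h : T0 d (Psi π T) - (d.factorial : ℝ) • pull π T = 0 := by
    apply pol_zero (Sym_comb (Sym_T0 _) (Sym_pull hT) _)
    intro x
    rw [ev_sub, ev_smul, ev_T0, ev_pull, PM_diag (Psi_hom T), eval_Psi, sub_self]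
  have h2 := congrArg (fun S => ev S v) h
  simp only [ev_zero, ev_sub, ev_smul, ev_T0, ev_pull] at h2
  linarith

/-- the tensor of a polynomial in adapted coordinates -/
noncomputable def Th (d : ℕ) (b : (J → ℝ) →ₗ[ℝ] (Fin n → ℝ)) (f : MvPolynomial (Fin n) ℝ) : Tn J d :=
  WithLp.toLp 2 fun i => (d.factorial : ℝ)⁻¹ * PM d f (fun j => b (Pi.single (i j) 1))

theorem ev_Th (f : MvPolynomial (Fin n) ℝ) (w : Fin d → J → ℝ) :
    ev (Th d b f) w = (d.factorial : ℝ)⁻¹ * PM d f (fun j => b (w j)) :=
  ev_of_multilinear ((d.factorial : ℝ)⁻¹ • (PM d f).compLinearMap fun _ => b) w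

theorem Sym_Th (f : MvPolynomial (Fin n) ℝ) : Sym (Th d b f) := by
  intro σ i
  show (d.factorial : ℝ)⁻¹ * PM d f (fun j => b (Pi.single ((i ∘ σ) j) 1)) =
    (d.factorial : ℝ)⁻¹ * PM d f (fun j => b (Pi.single (i j) 1))
  rw [← PM_perm f (fun j => b (Pi.single (i j) 1)) σ]
  rfl

theorem fac_ne (d : ℕ) : (d.factorial : ℝ) ≠ 0 := by exact_mod_cast d.factorial_ne_zero

theorem Th_Psi {T : Tn J d} (hT : Sym T) (hπb : ∀ x, π (b x) = x) : Th d b (Psi π T) = T := by
  apply ten_ext
  intro w
  rw [ev_Th, PM_Psi hT]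
  simp only [hπb]
  rw [← mul_assoc, inv_mul_cancel₀ (fac_ne d), one_mul]

variable {K : ConvexCone ℝ (Fin n → ℝ)} {v0 : Fin n → ℝ}

theorem exists_add (hK : IsOpen (K : Set (Fin n → ℝ))) (hv : v0 ∈ K) (x : Fin n → ℝ) :
    ∃ t : ℝ, 0 < t ∧ x + t • v0 ∈ K := by
  have hc : Continuous fun t : ℝ => v0 + t • x := by fun_prop
  have h1 : ∀ᶠ t in 𝓝 (0 : ℝ), v0 + t • x ∈ (K : Set (Fin n → ℝ)) := by
    apply hc.continuousAt.eventually
    apply hK.mem_nhds
    show v0 + (0 : ℝ) • x ∈ K
    rwa [zero_smul, add_zero]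
  obtain ⟨ε, hε, hball⟩ := Metric.eventually_nhds_iff.1 h1
  have h2 : v0 + (ε / 2) • x ∈ K := hball (y := ε / 2) (by
    rw [Real.dist_eq, sub_zero, abs_of_pos (by positivity)]; linarith)
  refine ⟨2 / ε, by positivity, ?_⟩
  have h3 := K.smul_mem (c := 2 / ε) (by positivity) h2
  convert h3 using 1
  rw [smul_add, smul_smul]
  have : 2 / ε * (ε / 2) = 1 := by field_simp
  rw [this, one_smul, add_comm]

/-- slots vanish on the kernel -/
theorem slot_zero (hK : IsOpen (K : Set (Fin n → ℝ))) (hv : v0 ∈ K)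
    (hker : ∀ u, π u = 0 → ∀ v ∈ K, v + u ∈ K) {f : MvPolynomial (Fin n) ℝ}
    (hpos : ∀ v : Fin d → Fin n → ℝ, (∀ j, v j ∈ K) → 0 < PM d f v) {u : Fin n → ℝ} (hu : π u = 0)
    (a : Fin d) (v : Fin d → Fin n → ℝ) : PM d f (update v a u) = 0 := by
  have h1 : ∀ v : Fin d → Fin n → ℝ, (∀ j, v j ∈ K) → PM d f (update v a u) = 0 := by
    intro v hvK
    have h2 : ∀ s : ℝ, 0 < PM d f v + s * PM d f (update v a u) := by
      intro s
      have h3 := hpos (update v a (v a + s • u)) (by
        intro j
        by_cases hj : j = a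
        · subst hj
          rw [update_self]
          exact hker _ (by rw [map_smul, hu, smul_zero]) _ (hvK j)
        · rw [update_of_ne hj]; exact hvK j)
      rw [MultilinearMap.map_update_add, MultilinearMap.map_update_smul, update_eq_self,
        smul_eq_mul] at h3
      exact h3
    by_contra hne
    have h4 := h2 (-(PM d f v) / PM d f (update v a u))
    rw [div_mul_cancel₀ _ hne] at h4
    linarith
  have h2 : ∀ (s : Finset (Fin d)) (v : Fin d → Fin n → ℝ), (∀ j, j ∉ s → v j ∈ K) →
      PM d f (update v a u) = 0 := by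
    intro s
    induction s using Finset.induction_on with
    | empty => intro v hvK; exact h1 v fun j => hvK j (notMem_empty j)
    | insert k s hk ih =>
      intro v hvK
      by_cases hka : k = a
      · subst hka
        have e : update v k u = update (update v k v0) k u := by rw [update_idem]
        rw [e]
        apply ih
        intro j hj
        by_cases hjk : j = k
        · subst hjk; rw [update_self]; exact hv
        · rw [update_of_ne hjk]
          exact hvK j (by rw [mem_insert, not_or]; exact ⟨hjk, hj⟩)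
      · obtain ⟨t, ht, htK⟩ := exists_add hK hv (v k)
        have hup : ∀ y ∈ K, PM d f (update (update v k y) a u) = 0 := by
          intro y hy
          apply ih
          intro j hj
          by_cases hjk : j = k
          · subst hjk; rw [update_self]; exact hy
          · rw [update_of_ne hjk]
            exact hvK j (by rw [mem_insert, not_or]; exact ⟨hjk, hj⟩)
        have h3 := hup _ htK
        have h4 := hup _ (K.smul_mem ht hv)
        rw [update_comm hka, MultilinearMap.map_update_add, ← update_comm hka, ← update_comm hka,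
          h4, add_zero, update_eq_self] at h3
        exact h3
  exact h2 univ v fun j hj => absurd (mem_univ j) hj

theorem PM_proj (hK : IsOpen (K : Set (Fin n → ℝ))) (hv : v0 ∈ K)
    (hker : ∀ u, π u = 0 → ∀ v ∈ K, v + u ∈ K) (hπb : ∀ x, π (b x) = x) {f : MvPolynomial (Fin n) ℝ}
    (hpos : ∀ v : Fin d → Fin n → ℝ, (∀ j, v j ∈ K) → 0 < PM d f v) (v : Fin d → Fin n → ℝ) :
    PM d f (fun j => b (π (v j))) = PM d f v := by
  have h1 : ∀ s : Finset (Fin d), PM d f (fun j => if j ∈ s then b (π (v j)) else v j) =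
      PM d f v := by
    intro s
    induction s using Finset.induction_on with
    | empty => simp
    | insert k s hk ih =>
      rw [← ih]
      set w : Fin d → Fin n → ℝ := fun j => if j ∈ s then b (π (v j)) else v j with hw
      have e : (fun j => if j ∈ insert k s then b (π (v j)) else v j) =
          update w k (w k + (b (π (v k)) - v k)) := by
        funext j
        by_cases hj : j = k
        · subst hj
          rw [update_self, if_pos (mem_insert_self _ _)]
          simp only [hw, if_neg hk]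
          abel
        · rw [update_of_ne hj]
          simp only [hw, mem_insert, hj, false_or]
      rw [e, MultilinearMap.map_update_add, update_eq_self,
        slot_zero hK hv hker hpos (u := b (π (v k)) - v k) (by rw [map_sub, hπb, sub_self]), add_zero]
  have h2 := h1 univ
  simpa using h2

theorem Psi_Th (hK : IsOpen (K : Set (Fin n → ℝ))) (hv : v0 ∈ K)
    (hker : ∀ u, π u = 0 → ∀ v ∈ K, v + u ∈ K) (hπb : ∀ x, π (b x) = x) {f : MvPolynomial (Fin n) ℝ}
    (hf : f.IsHomogeneous d)
    (hpos : ∀ v : Fin d → Fin n → ℝ, (∀ j, v j ∈ K) → 0 < PM d f v) : Psi π (Th d b f) = f := by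
  apply MvPolynomial.funext
  intro x
  rw [eval_Psi, ev_Th, PM_proj hK hv hker hπb hpos (fun _ => x), PM_diag hf, ← mul_assoc,
    inv_mul_cancel₀ (fac_ne d), one_mul]

end Pool.Agent.P8H74.BL
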