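import Mathlib

/-! Tensors, their values at vectors, and the weight operators. -/

set_option autoImplicit false
set_option linter.unusedSectionVars false

namespace Pool.Agent.P8H74.BL

open Finset Function

variable {J : Type} [Fintype J] [DecidableEq J] {d : ℕ}

/-- tensors -/
abbrev Tn (J : Type) [Fintype J] (d : ℕ) := EuclideanSpace ℝ (Fin d → J)

/-- the multilinear form of a tensor -/
noncomputable def evM (T : Tn J d) : MultilinearMap ℝ (fun _ : Fin d => J → ℝ) ℝ :=
  ∑ i : Fin d → J, T i • (MultilinearMap.mkPiAlgebra ℝ (Fin d) ℝ).compLinearMap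
    (fun j => LinearMap.proj (i j))

/-- the value of a tensor at vectors -/
noncomputable def ev (T : Tn J d) (v : Fin d → J → ℝ) : ℝ := evM T v

theorem ev_eq (T : Tn J d) (v : Fin d → J → ℝ) : ev T v = ∑ i : Fin d → J, T i * ∏ j, v j (i j) := by
  unfold ev evM
  simp

theorem ev_add (T S : Tn J d) (v : Fin d → J → ℝ) : ev (T + S) v = ev T v + ev S v := by
  rw [ev_eq, ev_eq, ev_eq, ← sum_add_distrib]
  apply sum_congr rfl
  intro i _
  rw [PiLp.add_apply]; ring

theorem ev_smul (c : ℝ) (T : Tn J d) (v : Fin d → J → ℝ) : ev (c • T) v = c * ev T v := by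
  rw [ev_eq, ev_eq, mul_sum]
  apply sum_congr rfl
  intro i _
  rw [PiLp.smul_apply, smul_eq_mul]; ring

theorem ev_sub (T S : Tn J d) (v : Fin d → J → ℝ) : ev (T - S) v = ev T v - ev S v := by
  rw [ev_eq, ev_eq, ev_eq, ← sum_sub_distrib]
  apply sum_congr rfl
  intro i _
  rw [PiLp.sub_apply]; ring

theorem ev_zero (v : Fin d → J → ℝ) : ev (0 : Tn J d) v = 0 := by
  rw [ev_eq]
  apply sum_eq_zero
  intro i _
  rw [PiLp.zero_apply, zero_mul]

theorem ev_update_add (T : Tn J d) (v : Fin d → J → ℝ) (a : Fin d) (x y : J → ℝ) :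
    ev T (update v a (x + y)) = ev T (update v a x) + ev T (update v a y) :=
  (evM T).map_update_add v a x y

theorem ev_update_smul (T : Tn J d) (v : Fin d → J → ℝ) (a : Fin d) (c : ℝ) (x : J → ℝ) :
    ev T (update v a (c • x)) = c * ev T (update v a x) :=
  (evM T).map_update_smul v a c x

theorem ev_update_sub (T : Tn J d) (v : Fin d → J → ℝ) (a : Fin d) (x y : J → ℝ) :
    ev T (update v a (x - y)) = ev T (update v a x) - ev T (update v a y) :=
  (evM T).map_update_sub v a x y

/-- continuity -/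
theorem ev_cont : Continuous fun q : Tn J d × (Fin d → J → ℝ) => ev q.1 q.2 := by
  simp only [ev_eq]
  fun_prop

theorem abs_coord_le (T : Tn J d) (i : Fin d → J) : |T i| ≤ ‖T‖ := by
  have := PiLp.norm_apply_le T i
  rwa [Real.norm_eq_abs] at this

/-- the bound on bounded sets -/
theorem abs_ev_le (T : Tn J d) {v : Fin d → J → ℝ} {R : ℝ} (hv : ∀ j l, |v j l| ≤ R) :
    |ev T v| ≤ (Fintype.card (Fin d → J) * R ^ d) * ‖T‖ := by
  rw [ev_eq]
  refine (abs_sum_le_sum_abs _ _).trans ?_
  have h1 : ∀ i ∈ (univ : Finset (Fin d → J)), |T i * ∏ j, v j (i j)| ≤ ‖T‖ * R ^ d := by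
    intro i _
    rw [abs_mul]
    apply mul_le_mul (abs_coord_le T i) _ (abs_nonneg _) (norm_nonneg _)
    rw [Finset.abs_prod]
    calc ∏ j, |v j (i j)| ≤ ∏ j : Fin d, R :=
          prod_le_prod (fun _ _ => abs_nonneg _) (fun j _ => hv j (i j))
      _ = R ^ d := by rw [prod_const, card_univ, Fintype.card_fin]
  refine (sum_le_sum h1).trans (le_of_eq ?_)
  rw [sum_const, card_univ, nsmul_eq_mul]; ring

variable (o : J)

/-- the base vector -/
def e0 : J → ℝ := Pi.single o 1

/-- the weight -/
def wt (i : Fin d → J) : ℕ := (univ.filter fun j => i j ≠ o).card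

/-- the weight operators on vectors -/
noncomputable def Av (s : ℝ) (x : J → ℝ) : J → ℝ := fun l => if l = o then x l else Real.exp (-s) * x l

/-- the weight operators on tensors -/
noncomputable def At (s : ℝ) (T : Tn J d) : Tn J d :=
  WithLp.toLp 2 fun i => Real.exp (-(s * wt o i)) * T i

theorem At_apply (s : ℝ) (T : Tn J d) (i : Fin d → J) :
    At o s T i = Real.exp (-(s * wt o i)) * T i := rfl

theorem prod_Av (s : ℝ) (v : Fin d → J → ℝ) (i : Fin d → J) :
    ∏ j, Av o s (v j) (i j) = Real.exp (-(s * wt o i)) * ∏ j, v j (i j) := by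
  have h1 : ∀ j, Av o s (v j) (i j) = (if i j ≠ o then Real.exp (-s) else 1) * v j (i j) := by
    intro j
    unfold Av
    by_cases h : i j = o
    · rw [if_pos h, if_neg (not_not.2 h), one_mul]
    · rw [if_neg h, if_pos h]
  rw [prod_congr rfl (fun j _ => h1 j), prod_mul_distrib, prod_ite, prod_const, prod_const_one, mul_one]
  congr 1
  unfold wt
  rw [← Real.exp_nat_mul]
  congr 1
  ring

theorem ev_At (s : ℝ) (T : Tn J d) (v : Fin d → J → ℝ) :
    ev (At o s T) v = ev T (fun j => Av o s (v j)) := by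
  rw [ev_eq, ev_eq]
  apply sum_congr rfl
  intro i _
  rw [prod_Av, At_apply]; ring

theorem ev_Av (s : ℝ) (T : Tn J d) (v : Fin d → J → ℝ) :
    ev T (fun j => Av o s (v j)) = ∑ i, T i * Real.exp (-(s * wt o i)) * ∏ j, v j (i j) := by
  rw [ev_eq]
  apply sum_congr rfl
  intro i _
  rw [prod_Av]; ring

theorem Av_add (s : ℝ) (x y : J → ℝ) : Av o s (x + y) = Av o s x + Av o s y := by
  funext l
  show (if l = o then (x + y) l else Real.exp (-s) * (x + y) l) =
    (if l = o then x l else Real.exp (-s) * x l) + (if l = o then y l else Real.exp (-s) * y l)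
  rw [Pi.add_apply]
  split_ifs <;> ring

theorem Av_smul (s c : ℝ) (x : J → ℝ) : Av o s (c • x) = c • Av o s x := by
  funext l
  show (if l = o then (c • x) l else Real.exp (-s) * (c • x) l) =
    c * (if l = o then x l else Real.exp (-s) * x l)
  rw [Pi.smul_apply, smul_eq_mul]
  split_ifs <;> ring

theorem Av_zero_time (x : J → ℝ) : Av o 0 x = x := by
  funext l
  simp [Av]

theorem Av_e0 (s : ℝ) : Av o s (e0 o) = e0 o := by
  funext l
  unfold Av e0
  by_cases h : l = o
  · rw [if_pos h]
  · rw [if_neg h, Pi.single_eq_of_ne h, mul_zero]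

theorem Av_apply_o (s : ℝ) (x : J → ℝ) : Av o s x o = x o := by
  unfold Av; rw [if_pos rfl]

theorem Av_ne_zero {s : ℝ} {x : J → ℝ} (hx : x ≠ 0) : Av o s x ≠ 0 := by
  intro h
  apply hx
  funext l
  have h1 := congrFun h l
  unfold Av at h1
  by_cases hl : l = o
  · rw [if_pos hl] at h1; exact h1
  · rw [if_neg hl] at h1
    have h2 := Real.exp_pos (-s)
    rw [Pi.zero_apply] at h1
    rcases mul_eq_zero.1 h1 with h3 | h3
    · exact absurd h3 h2.ne'
    · exact h3

/-- `Av s x = e0 + exp (-s) (x - e0)` on the affine hyperplane -/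
theorem Av_eq {s : ℝ} {x : J → ℝ} (hx : x o = 1) :
    Av o s x = e0 o + Real.exp (-s) • (x - e0 o) := by
  funext l
  show (if l = o then x l else Real.exp (-s) * x l) =
    e0 o l + Real.exp (-s) * (x l - e0 o l)
  unfold e0
  by_cases h : l = o
  · subst h
    rw [if_pos rfl, Pi.single_eq_same, hx]; ring
  · rw [if_neg h, Pi.single_eq_of_ne h]; ring

theorem Av_update (s : ℝ) (w : Fin d → J → ℝ) (a : Fin d) (x : J → ℝ) :
    (fun j => Av o s (update w a x j)) = update (fun j => Av o s (w j)) a (Av o s x) := by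
  funext j
  by_cases h : j = a
  · subst h; rw [update_self, update_self]
  · rw [update_of_ne h, update_of_ne h]

/-- the derivation -/
noncomputable def Lt (T : Tn J d) : Tn J d := WithLp.toLp 2 fun i => -(wt o i : ℝ) * T i

theorem Lt_apply (T : Tn J d) (i : Fin d → J) : Lt o T i = -(wt o i : ℝ) * T i := rfl

theorem wt_le (i : Fin d → J) : wt o i ≤ d := by
  unfold wt
  refine (card_le_univ _).trans (le_of_eq ?_)
  rw [Fintype.card_fin]

/-- the derivation is a combination of the operators -/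
theorem exists_Lt (d : ℕ) : ∃ c : ℕ → ℝ, ∀ T : Tn J d,
    Lt o T = ∑ k ∈ range (d + 1), c k • At o k T := by
  set q : Polynomial ℝ := Lagrange.interpolate (range (d + 1)) (fun k : ℕ => Real.exp (-(k : ℝ)))
    (fun k : ℕ => -(k : ℝ)) with hq
  have hinj : Set.InjOn (fun k : ℕ => Real.exp (-(k : ℝ))) (range (d + 1)) := by
    intro a _ b _ hab
    have h1 := Real.exp_injective hab
    have h2 : (a : ℝ) = b := by linarith
    exact_mod_cast h2
  have hev : ∀ k ≤ d, q.eval (Real.exp (-(k : ℝ))) = -(k : ℝ) := by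
    intro k hk
    exact Lagrange.eval_interpolate_at_node _ hinj (mem_range.2 (by omega))
  have hdeg : q.natDegree < d + 1 := by
    have h1 := Lagrange.degree_interpolate_lt (fun k : ℕ => -(k : ℝ)) hinj
    rw [card_range] at h1
    by_cases h0 : q = 0
    · rw [h0, Polynomial.natDegree_zero]; omega
    · exact (Polynomial.natDegree_lt_iff_degree_lt h0).2 h1
  refine ⟨fun k => q.coeff k, fun T => ?_⟩
  ext i
  rw [Lt_apply, ← hev _ (wt_le o i), Polynomial.eval_eq_sum_range' hdeg, sum_mul]
  simp only [WithLp.ofLp_sum, Finset.sum_apply, PiLp.smul_apply, smul_eq_mul, At_apply]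
  apply sum_congr rfl
  intro k _
  have e : Real.exp (-(wt o i : ℝ)) ^ k = Real.exp (-((k : ℝ) * wt o i)) := by
    rw [← Real.exp_nat_mul]; congr 1; ring
  rw [e]; ring

/-- powers of linear forms -/
noncomputable def pw (d : ℕ) (l : J → ℝ) : Tn J d := WithLp.toLp 2 fun i => ∏ j, l (i j)

theorem pw_apply (l : J → ℝ) (i : Fin d → J) : pw d l i = ∏ j, l (i j) := rfl

theorem ev_pw (l : J → ℝ) (v : Fin d → J → ℝ) : ev (pw d l) v = ∏ j, ∑ k, l k * v j k := by
  rw [ev_eq, Finset.prod_univ_sum, Fintype.piFinset_univ]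
  apply sum_congr rfl
  intro i _
  rw [pw_apply, prod_mul_distrib]

/-- the coordinates are values -/
theorem ev_single (T : Tn J d) (i : Fin d → J) : ev T (fun j => Pi.single (i j) 1) = T i := by
  rw [ev_eq, sum_eq_single i]
  · rw [prod_eq_one, mul_one]
    intro j _
    rw [Pi.single_eq_same]
  · intro b _ hb
    obtain ⟨j, hj⟩ := Function.ne_iff.1 hb
    rw [prod_eq_zero (mem_univ j), mul_zero]
    rw [Pi.single_eq_of_ne hj]
  · intro h; exact absurd (mem_univ i) h

theorem ev_e0 (T : Tn J d) : ev T (fun _ => e0 o) = T (fun _ => o) := ev_single T (fun _ => o)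

/-- symmetric tensors have symmetric forms -/
theorem ev_swap {T : Tn J d} (hT : ∀ (σ : Equiv.Perm (Fin d)) (i : Fin d → J), T (i ∘ σ) = T i)
    (σ : Equiv.Perm (Fin d)) (v : Fin d → J → ℝ) : ev T (v ∘ σ) = ev T v := by
  rw [ev_eq, ev_eq]
  let e : (Fin d → J) ≃ (Fin d → J) := σ.arrowCongr (Equiv.refl J)
  rw [← e.symm.sum_comp]
  apply sum_congr rfl
  intro i _
  have h1 : e.symm i = i ∘ σ := by
    funext j; rfl
  rw [h1, hT]
  congr 1
  exact Equiv.prod_comp σ (fun j => v j (i j))

theorem ev_comm {T : Tn J d} (hT : ∀ (σ : Equiv.Perm (Fin d)) (i : Fin d → J), T (i ∘ σ) = T i)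
    (w : Fin d → J → ℝ) {a b : Fin d} (hab : a ≠ b) (x y : J → ℝ) :
    ev T (update (update w a x) b y) = ev T (update (update w a y) b x) := by
  rw [← ev_swap hT (Equiv.swap a b) (update (update w a y) b x)]
  congr 1
  funext j
  rw [Function.comp_apply]
  by_cases hja : j = a
  · subst hja
    rw [Equiv.swap_apply_left, update_self, update_of_ne hab, update_self]
  · by_cases hjb : j = b
    · subst hjb
      rw [Equiv.swap_apply_right, update_self, update_of_ne hab, update_self]
    · rw [Equiv.swap_apply_of_ne_of_ne hja hjb, update_of_ne hjb, update_of_ne hja,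
        update_of_ne hjb, update_of_ne hja]

end Pool.Agent.P8H74.BL
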